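import Mathlib

-- part Defs
section
/-!
Definitions for the lower bound on the span of the odd zeta values divided by powers of pi.
-/

set_option autoImplicit false

namespace ZOdd

open Finset

/-- The real zeta value. -/
noncomputable def zr (j : ℕ) : ℝ := ∑' m : ℕ, 1 / ((m : ℝ) + 1) ^ j

/-- The rational span of one and of the zeta values divided by powers of pi. -/
noncomputable def Lam (s : ℕ) : Submodule ℚ ℝ :=
  Submodule.span ℚ (insert 1 {x | ∃ j, 2 ≤ j ∧ j ≤ s ∧ x = zr j / Real.pi ^ j})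

/-- Shift of a sequence of coefficients. -/
noncomputable def sh (f : ℕ → ℝ) (m : ℕ) : ℝ := if m = 0 then 0 else f (m - 1)

/-- Moments of the rows without zeta values. -/
noncomputable def pm (c : ℕ → ℕ → ℝ) : ℕ → ℕ → ℝ
  | 0 => c 0
  | t + 1 => fun m => (((t : ℝ) + 1) * pm c t m + sh (pm c t) m) / ((t : ℝ) + 2)

/-- Moments with initial data c; the arguments are the order, the type and the coefficient. -/
noncomputable def mom (c : ℕ → ℕ → ℝ) : ℕ → ℕ → ℕ → ℝ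
  | 0 => fun i m => c i m - if i = 1 then c 0 m else 0
  | t + 1 => fun i m => (((t : ℝ) + 1) * mom c t i m + sh (mom c t i) m
      + if i = 0 then 0 else if i = 1 then -pm c (t + 1) m else mom c t (i - 1) m) / ((t : ℝ) + 2)

theorem mom_zero_eq (c : ℕ → ℕ → ℝ) (t : ℕ) : mom c t 0 = pm c t := by
  induction t with
  | zero => funext m; simp [mom, pm]
  | succ t ih => funext m; simp [mom, pm, ih]

/-- The common denominator. -/
def DD (N R : ℕ) : ℕ := Nat.lcmUpto N * ∏ r ∈ range R, Nat.lcmUpto (N / (r + 1))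

/-- An even power of the sine. -/
noncomputable def Sn (a : ℕ) (z : ℂ) : ℂ := Complex.sin (Real.pi * z) ^ (2 * a)

/-- A Hurwitz type series. -/
noncomputable def Zs (j : ℕ) (z : ℂ) : ℂ :=
  ∑' m : ℕ, (1 / ((m : ℂ) + 1) ^ j + (-1) ^ j / ((m : ℂ) + z) ^ j)

/-- Entire extensions of the products of the sine power with the series. -/
def IsT (a : ℕ) (T : ℕ → ℂ → ℂ) : Prop :=
  T 0 = Sn a ∧ (∀ i ≤ 2 * a, Differentiable ℂ (T i)) ∧
    ∀ i, 1 ≤ i → i ≤ 2 * a → ∀ z : ℂ, (∀ m : ℕ, (m : ℂ) + z ≠ 0) → T i z = Sn a z * Zs i z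

/-- The entire functions of the rows without zeta values. -/
noncomputable def F0 (T : ℕ → ℂ → ℂ) : ℕ → ℂ → ℂ
  | 0 => T 0
  | M + 1 => fun z => (z - ((M : ℂ) + 1)) * F0 T M z / ((M : ℂ) + 1)

/-- The entire functions of all rows; the arguments are the pole order and the type. -/
noncomputable def FF (T : ℕ → ℂ → ℂ) : ℕ → ℕ → ℂ → ℂ
  | 0 => T
  | M + 1 => fun i z => ((z - ((M : ℂ) + 1)) * FF T M i z
      + if i = 0 then 0 else if i = 1 then -(z / ((M : ℂ) + 1)) * F0 T M z else FF T M (i - 1) z)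
        / ((M : ℂ) + 1)

theorem FF_zero_eq (T : ℕ → ℂ → ℂ) (M : ℕ) : FF T M 0 = F0 T M := by
  induction M with
  | zero => simp [FF, F0]
  | succ M ih => funext z; simp [FF, F0, ih]

/-- A Taylor coefficient. -/
noncomputable def tc (f : ℂ → ℂ) (x : ℂ) (m : ℕ) : ℂ := iteratedDeriv m f x / (m.factorial : ℂ)

end ZOdd

end

-- part Bound
section
set_option autoImplicit false

namespace ZOdd

open Finset

theorem bound_sin (z : ℂ) : ‖Complex.sin z‖ ≤ Real.exp ‖z‖ := by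
  have a := Complex.norm_exp_le_exp_norm (-z * Complex.I)
  have b := Complex.norm_exp_le_exp_norm (z * Complex.I)
  have c := norm_sub_le (Complex.exp (-z * Complex.I)) (Complex.exp (z * Complex.I))
  simp only [Complex.sin, norm_mul, norm_div, norm_neg, Complex.norm_I, mul_one,
    Complex.norm_ofNat] at a b ⊢
  linarith

theorem bound_Zs {K : ℝ} (hK : 1 ≤ K) {z : ℂ} (hz : ‖z‖ ≤ K)
    (hz' : ∀ m : ℕ, ((m : ℝ) + 1) / K ≤ ‖(m : ℂ) + z‖) {j : ℕ} (hj : 1 ≤ j) :
    ‖Zs j z‖ ≤ 4 * K ^ (j + 1) := by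
  have s := ((hasSum_nat_add_iff' 1).2 hasSum_zeta_two).mul_left (2 * K ^ (j + 1))
  refine (tsum_of_norm_bounded s fun m => ?_).trans ?_
  · have p : (1 : ℝ) ≤ m + 1 := by simp
    have q : 0 < ‖(m : ℂ) + z‖ := lt_of_lt_of_le (by positivity) (hz' m)
    have r : 1 / ‖(m : ℂ) + z‖ ≤ K * (1 / (m + 1)) := by
      rw [mul_one_div, ← one_div_div _ K]
      exact one_div_le_one_div_of_le (by positivity) (hz' m)
    have n : ‖(m : ℂ) + 1‖ = m + 1 := by exact_mod_cast Complex.norm_natCast (m + 1)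
    have u0 : (0 : ℝ) < 1 / (m + 1) := by positivity
    have u1 : (1 : ℝ) / (m + 1) ≤ 1 := (div_le_one (by positivity)).2 p
    push_cast
    rw [← one_div_pow ((m : ℝ) + 1) 2]
    rcases hj.eq_or_lt with rfl | hj
    · have : 1 / ((m : ℂ) + 1) ^ 1 + (-1) ^ 1 / (m + z) ^ 1 = (z - 1) * (1 / (m + 1)) *
          (1 / (m + z)) := by
        have := norm_pos_iff.1 q
        have : (m : ℂ) + 1 ≠ 0 := Nat.cast_add_one_ne_zero m
        field_simp
        ring
      rw [this, norm_mul, norm_mul, norm_div, norm_div, norm_one, n]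
      have t : ‖z - 1‖ ≤ 2 * K := (norm_sub_le _ _).trans (by rw [norm_one]; linarith)
      calc _ ≤ 2 * K * (1 / (m + 1)) * (K * (1 / (m + 1))) := by gcongr
        _ = _ := by ring
    · refine (norm_add_le _ _).trans ?_
      rw [norm_div, norm_div, norm_pow, norm_pow, norm_pow, norm_neg, norm_one, n, one_pow,
        ← one_div_pow, ← one_div_pow]
      have t : (1 / ((m : ℝ) + 1)) ^ j ≤ (1 / (m + 1)) ^ 2 := pow_le_pow_of_le_one u0.le u1 hj
      have k1 : 1 ≤ K ^ (j + 1) := one_le_pow₀ hK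
      have k2 : K ^ j ≤ K ^ (j + 1) := pow_le_pow_right₀ hK j.le_succ
      calc _ ≤ K ^ (j + 1) * (1 / (m + 1)) ^ 2 + (K * (1 / (m + 1))) ^ j :=
            add_le_add (t.trans (le_mul_of_one_le_left (by positivity) k1)) (by gcongr)
        _ ≤ K ^ (j + 1) * (1 / (m + 1)) ^ 2 + K ^ (j + 1) * (1 / (m + 1)) ^ 2 := by
            rw [mul_pow]; gcongr
        _ = _ := by ring
  · have : Real.pi ^ 2 ≤ 12 := by nlinarith [Real.pi_lt_d2, Real.pi_pos]
    have k : 0 ≤ K ^ (j + 1) := by positivity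
    simp only [range_one, sum_singleton, Nat.cast_zero]
    nlinarith

theorem bound_step {z w v : ℂ} {K M : ℕ} (hz : ‖z‖ ≤ K) {B : ℝ} {n : ℕ}
    (hw : ‖w‖ ≤ B * n.choose M) {e : ℕ} (hv : ‖v‖ ≤ e * (B * n.choose M)) (hn : n = K + e + M) :
    ‖((z - ((M : ℂ) + 1)) * w + v) / ((M : ℂ) + 1)‖ ≤ B * (n + 1).choose (M + 1) := by
  have k : ‖(M : ℂ) + 1‖ = M + 1 := by exact_mod_cast Complex.norm_natCast (M + 1)
  have c : ((n : ℝ) + 1) * n.choose M = (n + 1).choose (M + 1) * (M + 1) := by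
    exact_mod_cast Nat.add_one_mul_choose_eq n M
  have t : ‖z - ((M : ℂ) + 1)‖ ≤ K + (M + 1) := (norm_sub_le _ _).trans (by rw [k]; linarith)
  rw [norm_div, k, div_le_iff₀ (by positivity), mul_assoc, ← c]
  calc _ ≤ ((K : ℝ) + (M + 1)) * (B * n.choose M) + e * (B * n.choose M) :=
        (norm_add_le _ _).trans (add_le_add (by rw [norm_mul]; gcongr) hv)
    _ = _ := by rw [hn]; push_cast; ring

theorem FF_bound (a : ℕ) (ha : 1 ≤ a) (T : ℕ → ℂ → ℂ) (hT : IsT a T) (K : ℕ) (hK : 1 ≤ K) (z : ℂ)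
    (hz : ‖z‖ ≤ K) (hz' : ∀ m : ℕ, ((m : ℝ) + 1) / K ≤ ‖(m : ℂ) + z‖) (M i : ℕ) (hi : i ≤ 2 * a) :
    ‖FF T M i z‖ ≤ Real.exp (20 * a * K + M) := by
  have k1 : (1 : ℝ) ≤ K := by exact_mod_cast hK
  have a1 : (1 : ℝ) ≤ a := by exact_mod_cast ha
  have hS : ‖Sn a z‖ ≤ Real.exp (8 * a * K) := by
    rw [Sn, norm_pow]
    refine (pow_le_pow_left₀ (norm_nonneg _) (bound_sin _) _).trans ?_
    rw [← Real.exp_nat_mul, Real.exp_le_exp, norm_mul, Complex.norm_real, Real.norm_eq_abs,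
      abs_of_pos Real.pi_pos]
    calc _ ≤ ((2 * a : ℕ) : ℝ) * (4 * K) := by gcongr; exact Real.pi_le_four
      _ = _ := by push_cast; ring
  obtain ⟨B, hB⟩ : ∃ B, B = Real.exp (8 * a * K) * (4 * (K : ℝ) ^ (2 * a + 1)) := ⟨_, rfl⟩
  have B0 : 0 ≤ B := by rw [hB]; positivity
  have h0 : ∀ i ≤ 2 * a, ‖T i z‖ ≤ B := fun i hi => by
    rw [hB]
    rcases i.eq_zero_or_pos with rfl | h
    · rw [hT.1]
      exact hS.trans (le_mul_of_one_le_right (by positivity)
        (by linarith [one_le_pow₀ k1 (n := 2 * a + 1)]))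
    · rw [hT.2.2 i h hi z fun m e => (hz' m).not_gt (by rw [e, norm_zero]; positivity), norm_mul]
      exact mul_le_mul hS ((bound_Zs k1 hz hz' h).trans (by gcongr)) (norm_nonneg _) (by positivity)
  have h1 : ∀ M, ‖F0 T M z‖ ≤ B * (K + M).choose M := fun M => by
    induction M with
    | zero => simpa [F0] using h0 0 (Nat.zero_le _)
    | succ M ih => simpa [F0, add_assoc] using bound_step (v := 0) (e := 0) hz ih (by simp) rfl
  have h2 : ∀ M, ∀ i ≤ 2 * a, ‖FF T M i z‖ ≤ K * B * (K + 1 + M).choose M := fun M => by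
    induction M with
    | zero => exact fun i hi => by simpa [FF] using (h0 i hi).trans (le_mul_of_one_le_left B0 k1)
    | succ M ih =>
      refine fun i hi => bound_step (e := 1) hz (ih i hi) ?_ rfl
      rw [Nat.cast_one, one_mul]
      split_ifs
      · rw [norm_zero]; positivity
      · have k : (1 : ℝ) ≤ ‖(M : ℂ) + 1‖ := by
          rw [show ‖(M : ℂ) + 1‖ = M + 1 by exact_mod_cast Complex.norm_natCast (M + 1)]; simp
        rw [norm_mul, norm_neg, norm_div, mul_assoc]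
        refine mul_le_mul ((div_le_self (norm_nonneg _) k).trans hz) ((h1 M).trans ?_)
          (norm_nonneg _) (by positivity)
        gcongr
        exact (by omega : K + M ≤ K + 1 + M)
      · exact ih _ (by omega)
  have e2 : (2 : ℝ) ≤ Real.exp 1 := by linarith [Real.add_one_le_exp (1 : ℝ)]
  have c : ((K + 1 + M).choose M : ℝ) ≤ Real.exp 1 ^ (K + 1 + M) :=
    le_trans (by exact_mod_cast Nat.choose_le_two_pow _ _) (pow_le_pow_left₀ zero_le_two e2 _)
  have d : (K : ℝ) ≤ Real.exp K := by linarith [Real.add_one_le_exp (K : ℝ)]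
  refine (h2 M i hi).trans ?_
  calc _ ≤ Real.exp K * (Real.exp (8 * a * K) * (Real.exp 1 ^ 2 * Real.exp K ^ (2 * a + 1))) *
        Real.exp 1 ^ (K + 1 + M) := by rw [hB]; gcongr; nlinarith
    _ ≤ _ := by
      simp only [← Real.exp_nat_mul, ← Real.exp_add, Real.exp_le_exp]
      push_cast
      nlinarith [mul_le_mul a1 k1 zero_le_one (by linarith),
        mul_le_mul_of_nonneg_right a1 (by linarith : (0 : ℝ) ≤ K)]

theorem circle_ok (R c : ℕ) (z : ℂ) (hz : ‖z‖ = R + 1 / 2) :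
    ‖(c : ℂ) + z‖ ≤ ((2 * R + 4 + c : ℕ) : ℝ) ∧
      ∀ m : ℕ, ((m : ℝ) + 1) / ((2 * R + 4 + c : ℕ) : ℝ) ≤ ‖(m : ℂ) + ((c : ℂ) + z)‖ := by
  have R0 : (0 : ℝ) ≤ R := R.cast_nonneg
  have c0 : (0 : ℝ) ≤ c := c.cast_nonneg
  refine ⟨(norm_add_le _ _).trans (by rw [hz, Complex.norm_natCast]; push_cast; linarith),
    fun m => ?_⟩
  have k := abs_le.1 (abs_norm_sub_norm_le ((m + c : ℕ) : ℂ) (-z))
  rw [norm_neg, hz, Complex.norm_natCast, sub_neg_eq_add] at k
  have h : 1 / 2 ≤ ‖((m + c : ℕ) : ℂ) + z‖ := by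
    rcases le_or_gt (m + c) R with h | h
    · have : ((m + c : ℕ) : ℝ) ≤ R := by exact_mod_cast h
      linarith
    · have : (R : ℝ) + 1 ≤ (m + c : ℕ) := by exact_mod_cast h
      linarith
  rw [div_le_iff₀ (by positivity), ← add_assoc]
  push_cast at k h ⊢
  nlinarith

end ZOdd

end

-- part Diff
section
set_option autoImplicit false

namespace ZOdd

open Finset

theorem diff_F0 (T : ℕ → ℂ → ℂ) (h : Differentiable ℂ (T 0)) (M : ℕ) :
    Differentiable ℂ (F0 T M) := by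
  induction M with
  | zero => exact h
  | succ M ih => exact ((differentiable_id.sub_const _).mul ih).div_const _

theorem FF_differentiable (a : ℕ) (T : ℕ → ℂ → ℂ) (hT : IsT a T) (M i : ℕ) (hi : i ≤ 2 * a) :
    Differentiable ℂ (FF T M i) := by
  induction M generalizing i with
  | zero => exact hT.2.1 i hi
  | succ M ih =>
    refine (((differentiable_id.sub_const _).mul (ih i hi)).add ?_).div_const _
    split_ifs
    · exact differentiable_const _
    · exact (differentiable_id.div_const _).neg.mul (diff_F0 T (hT.2.1 0 (Nat.zero_le _)) M)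
    · exact ih _ (by omega)

theorem diff_ev (z : ℂ) : ∀ᶠ m : ℕ in Filter.atTop, ‖((m : ℂ) + z)⁻¹‖ ≤ 2 * (1 / (m : ℝ)) := by
  filter_upwards [tendsto_natCast_atTop_atTop.eventually_ge_atTop (2 * ‖z‖ + 1)] with m hm
  have h0 := norm_nonneg z
  have h1 : (m : ℝ) / 2 ≤ ‖(m : ℂ) + z‖ := by
    have := norm_sub_le ((m : ℂ) + z) z
    rw [add_sub_cancel_right, Complex.norm_natCast] at this
    linarith
  rw [norm_inv]
  refine (inv_anti₀ (by linarith) h1).trans_eq ?_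
  rw [inv_div, mul_one_div]

theorem diff_sum (z : ℂ) {j : ℕ} (hj : 2 ≤ j) : Summable fun m : ℕ => 1 / ((m : ℂ) + z) ^ j := by
  refine Summable.of_norm_bounded_eventually_nat
    ((Real.summable_one_div_nat_pow.2 hj).mul_left (2 ^ j)) ?_
  filter_upwards [diff_ev z] with m hm
  rw [one_div, ← inv_pow, norm_pow]
  refine (pow_le_pow_left₀ (norm_nonneg _) hm j).trans_eq ?_
  rw [mul_pow, one_div_pow]

theorem diff_summable (z : ℂ) (hz : ∀ m : ℕ, (m : ℂ) + z ≠ 0) {j : ℕ} (hj : 1 ≤ j) :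
    Summable fun m : ℕ => 1 / ((m : ℂ) + 1) ^ j + (-1) ^ j / ((m : ℂ) + z) ^ j := by
  rcases hj.eq_or_lt with rfl | hj
  · refine Summable.of_norm_bounded_eventually_nat
      ((Real.summable_one_div_nat_pow.2 one_lt_two).mul_left (‖z - 1‖ * 4)) ?_
    filter_upwards [diff_ev z, diff_ev 1] with m h1 h2
    have h3 := Nat.cast_add_one_ne_zero (R := ℂ) m
    have h4 := hz m
    have e : 1 / ((m : ℂ) + 1) ^ 1 + (-1) ^ 1 / ((m : ℂ) + z) ^ 1 =
        (z - 1) * (((m : ℂ) + z)⁻¹ * ((m : ℂ) + 1)⁻¹) := by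
      field_simp
      ring
    rw [e, norm_mul, norm_mul, mul_assoc]
    refine mul_le_mul_of_nonneg_left ((mul_le_mul h1 h2 (norm_nonneg _) (by positivity)).trans_eq ?_)
      (norm_nonneg _)
    ring
  · refine (diff_sum 1 hj).add (((diff_sum z hj).mul_left ((-1) ^ j)).congr fun m => ?_)
    rw [mul_one_div]

theorem diff_shift {z : ℂ} (hz : ∀ m : ℕ, (m : ℂ) + z ≠ 0) (m : ℕ) : (m : ℂ) + (z + 1) ≠ 0 := by
  have := hz (m + 1)
  push_cast at this
  rwa [add_right_comm, add_assoc] at this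

theorem diff_Zs {z : ℂ} (hz : ∀ m : ℕ, (m : ℂ) + z ≠ 0) {j : ℕ} (hj : 1 ≤ j) :
    Zs j (z + 1) - Zs j z = -((-1) ^ j / z ^ j) := by
  have h1 := ((diff_summable _ (diff_shift hz) hj).hasSum.sub
    (diff_summable _ hz hj).hasSum).tendsto_sum_nat
  have h2 : ∀ n : ℕ, ∑ m ∈ range n, ((1 / ((m : ℂ) + 1) ^ j + (-1) ^ j / ((m : ℂ) + (z + 1)) ^ j) -
      (1 / ((m : ℂ) + 1) ^ j + (-1) ^ j / ((m : ℂ) + z) ^ j)) =
      (-1) ^ j * (((n : ℂ) + z)⁻¹) ^ j - (-1) ^ j / z ^ j := fun n => by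
    induction n with
    | zero => simp [div_eq_mul_inv]
    | succ n ih =>
      rw [sum_range_succ, ih]
      push_cast
      rw [add_right_comm (n : ℂ) 1 z, add_assoc (n : ℂ) z 1]
      simp only [div_eq_mul_inv, inv_pow]
      ring
  have h3 : Filter.Tendsto (fun n : ℕ => ((n : ℂ) + z)⁻¹) Filter.atTop (nhds 0) := by
    refine squeeze_zero_norm' (diff_ev z) ?_
    simpa using tendsto_one_div_atTop_nhds_zero_nat.const_mul (2 : ℝ)
  have h4 := ((h3.pow j).const_mul ((-1 : ℂ) ^ j)).sub_const ((-1) ^ j / z ^ j)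
  rw [zero_pow (by omega), mul_zero, zero_sub] at h4
  simp only [h2] at h1
  exact tendsto_nhds_unique h1 h4

theorem diff_Sn (a : ℕ) (z : ℂ) : Sn a (z + 1) = Sn a z := by
  simp only [Sn, mul_add, mul_one, Complex.sin_add_pi]
  exact Even.neg_pow (even_two_mul a) _

theorem diff_ext {f : ℂ → ℂ} (hf : Continuous f)
    (h : ∀ z : ℂ, (∀ m : ℕ, (m : ℂ) + z ≠ 0) → f z = 0) (z : ℂ) : f z = 0 := by
  have hd : Dense (Set.range fun m : ℕ => -(m : ℂ))ᶜ := (Set.countable_range _).dense_compl ℂ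
  exact congrFun (hf.ext_on hd continuous_const fun w hw =>
    h w fun m e => hw ⟨m, neg_eq_of_add_eq_zero_right e⟩) z

theorem diff_T {a : ℕ} {T : ℕ → ℂ → ℂ} (hT : IsT a T) {i : ℕ} (h1 : 1 ≤ i) (hi : i ≤ 2 * a) {z : ℂ}
    (hz : ∀ m : ℕ, (m : ℂ) + z ≠ 0) :
    T i (z + 1) - T i z = -(Sn a z * ((-1) ^ i / z ^ i)) := by
  rw [hT.2.2 i h1 hi _ (diff_shift hz), hT.2.2 i h1 hi _ hz, diff_Sn, ← mul_sub, diff_Zs hz h1,
    mul_neg]

theorem diff_one {a : ℕ} {T : ℕ → ℂ → ℂ} (hT : IsT a T) (hi : 1 ≤ 2 * a) (z : ℂ) :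
    z * (T 1 (z + 1) - T 1 z) - T 0 z = 0 := by
  have c1 := (hT.2.1 1 hi).continuous
  have c0 := (hT.2.1 0 (Nat.zero_le _)).continuous
  refine diff_ext (f := fun z => z * (T 1 (z + 1) - T 1 z) - T 0 z) (by fun_prop) (fun z hz => ?_) z
  have h0 : z ≠ 0 := by simpa using hz 0
  rw [diff_T hT le_rfl hi hz, hT.1]
  field_simp
  ring

theorem diff_two {a : ℕ} {T : ℕ → ℂ → ℂ} (hT : IsT a T) {k : ℕ} (hi : k + 2 ≤ 2 * a) (z : ℂ) :
    z * (T (k + 2) (z + 1) - T (k + 2) z) + (T (k + 1) (z + 1) - T (k + 1) z) = 0 := by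
  have c1 := (hT.2.1 (k + 2) hi).continuous
  have c0 := (hT.2.1 (k + 1) (by omega)).continuous
  refine diff_ext (f := fun z => z * (T (k + 2) (z + 1) - T (k + 2) z) +
    (T (k + 1) (z + 1) - T (k + 1) z)) (by fun_prop) (fun z hz => ?_) z
  have h0 : z ≠ 0 := by simpa using hz 0
  rw [diff_T hT (by omega) hi hz, diff_T hT (by omega) (by omega) hz]
  field_simp
  ring

theorem diff_F0_step {a : ℕ} {T : ℕ → ℂ → ℂ} (hT : IsT a T) (M : ℕ) (z : ℂ) :
    F0 T (M + 1) (z + 1) = F0 T (M + 1) z + F0 T M z := by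
  induction M generalizing z with
  | zero => simp only [F0, hT.1, diff_Sn]; push_cast; ring
  | succ M ih =>
    have h1 := Nat.cast_add_one_ne_zero (R := ℂ) M
    have h2 := Nat.cast_add_one_ne_zero (R := ℂ) (M + 1)
    rw [F0]
    simp only
    rw [ih, F0]
    push_cast at h2 ⊢
    field_simp
    ring

theorem FF_diff (a : ℕ) (T : ℕ → ℂ → ℂ) (hT : IsT a T) (M i : ℕ) (hi : i ≤ 2 * a) (z : ℂ) :
    FF T (M + 1) i (z + 1) - FF T (M + 1) i z = FF T M i z := by
  induction M generalizing i with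
  | zero =>
    match i, hi with
    | 0, _ => rw [FF_zero_eq, FF_zero_eq, diff_F0_step hT]; ring
    | 1, hi =>
      have h1 := diff_one hT hi z
      have h2 : T 0 (z + 1) = T 0 z := by rw [hT.1, diff_Sn]
      simp only [FF, F0, one_ne_zero, if_false, if_true, h2]
      push_cast
      linear_combination h1
    | k + 2, hi =>
      have h1 := diff_two hT hi z
      simp only [FF, Nat.add_eq_zero_iff, Nat.reduceEqDiff, and_false, if_false,
        Nat.add_one_sub_one, two_ne_zero]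
      push_cast
      linear_combination h1
  | succ M ih =>
    have h1 := Nat.cast_add_one_ne_zero (R := ℂ) M
    have h2 := Nat.cast_add_one_ne_zero (R := ℂ) (M + 1)
    match i, hi with
    | 0, _ => rw [FF_zero_eq, FF_zero_eq, diff_F0_step hT]; ring
    | 1, hi =>
      have e := eq_add_of_sub_eq (ih 1 hi)
      have e2 : FF T (M + 1) 1 z = ((z - ((M : ℂ) + 1)) * FF T M 1 z +
        -(z / ((M : ℂ) + 1)) * F0 T M z) / ((M : ℂ) + 1) := by simp [FF]
      have e3 : F0 T (M + 1) z = (z - ((M : ℂ) + 1)) * F0 T M z / ((M : ℂ) + 1) := rfl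
      rw [FF]
      simp only [one_ne_zero, if_false, if_true]
      rw [e, diff_F0_step hT, e2, e3]
      push_cast at h2 ⊢
      field_simp
      ring
    | k + 2, hi =>
      have e := eq_add_of_sub_eq (ih (k + 2) hi)
      have e' := eq_add_of_sub_eq (ih (k + 1) (by omega))
      have e2 : FF T (M + 1) (k + 2) z = ((z - ((M : ℂ) + 1)) * FF T M (k + 2) z +
        FF T M (k + 1) z) / ((M : ℂ) + 1) := by simp [FF]
      rw [FF]
      simp only [Nat.add_eq_zero_iff, Nat.reduceEqDiff, and_false, if_false,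
        Nat.add_one_sub_one, two_ne_zero]
      rw [e, e', e2]
      push_cast at h2 ⊢
      field_simp
      ring

end ZOdd

end

-- part Rec
section
set_option autoImplicit false

namespace ZOdd

open Finset

theorem rec_tc_shift (f : ℂ → ℂ) (x s : ℂ) (m : ℕ) :
    tc (fun z => f (z + s)) x m = tc f (x + s) m := by
  simp only [tc, iteratedDeriv_comp_add_const]

theorem rec_tc_add (f g : ℂ → ℂ) (hf : Differentiable ℂ f) (hg : Differentiable ℂ g) (x : ℂ)
    (m : ℕ) : tc (fun z => f z + g z) x m = tc f x m + tc g x m := by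
  simp only [tc]
  rw [iteratedDeriv_fun_add hf.contDiff.contDiffAt hg.contDiff.contDiffAt, add_div]

theorem rec_tc_sub (f g : ℂ → ℂ) (hf : Differentiable ℂ f) (hg : Differentiable ℂ g) (x : ℂ)
    (m : ℕ) : tc (fun z => f z - g z) x m = tc f x m - tc g x m := by
  simp only [tc]
  rw [iteratedDeriv_fun_sub hf.contDiff.contDiffAt hg.contDiff.contDiffAt, sub_div]

theorem rec_tc_const_mul (c : ℂ) (f : ℂ → ℂ) (x : ℂ) (m : ℕ) :
    tc (fun z => c * f z) x m = c * tc f x m := by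
  simp only [tc]
  rw [iteratedDeriv_const_mul_field, mul_div_assoc]

theorem rec_tc_div (c : ℂ) (f : ℂ → ℂ) (x : ℂ) (m : ℕ) :
    tc (fun z => f z / c) x m = tc f x m / c := by
  simp only [tc]
  rw [iteratedDeriv_div_const, div_right_comm]

theorem rec_iter_mul (f : ℂ → ℂ) (hf : Differentiable ℂ f) (m : ℕ) :
    iteratedDeriv (m + 1) (fun z => z * f z)
      = fun z => z * iteratedDeriv (m + 1) f z + ((m : ℂ) + 1) * iteratedDeriv m f z := by
  have hd : ∀ k : ℕ, Differentiable ℂ (iteratedDeriv k f) := fun k =>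
    ContDiff.differentiable_iteratedDeriv' k hf.contDiff
  have hD : ∀ (k : ℕ) (z : ℂ), HasDerivAt (iteratedDeriv k f) (iteratedDeriv (k + 1) f z) z := by
    intro k z
    rw [iteratedDeriv_succ]
    exact (hd k z).hasDerivAt
  induction m with
  | zero =>
    funext z
    have h := (hasDerivAt_id' z).fun_mul (hD 0 z)
    rw [iteratedDeriv_succ]
    simp only [iteratedDeriv_zero] at h ⊢
    rw [h.deriv]
    simp only [Nat.cast_zero]
    ring
  | succ m ih =>
    funext z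
    rw [iteratedDeriv_succ, ih]
    have h := ((hasDerivAt_id' z).fun_mul (hD (m + 1) z)).fun_add
      ((hD m z).const_mul ((m : ℂ) + 1))
    rw [h.deriv]
    push_cast
    ring

theorem rec_tc_mul (f : ℂ → ℂ) (hf : Differentiable ℂ f) (x : ℂ) (m : ℕ) :
    tc (fun z => z * f z) x m = x * tc f x m + if m = 0 then 0 else tc f x (m - 1) := by
  cases m with
  | zero => simp [tc]
  | succ m =>
    simp only [tc, rec_iter_mul f hf m, Nat.succ_ne_zero, if_false, Nat.add_sub_cancel,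
      Nat.factorial_succ]
    have h1 : ((m.factorial : ℕ) : ℂ) ≠ 0 := by exact_mod_cast m.factorial_ne_zero
    have h2 : ((m : ℂ) + 1) ≠ 0 := by exact_mod_cast m.succ_ne_zero
    push_cast
    field_simp

theorem rec_tc_mul_real (f : ℂ → ℂ) (hf : Differentiable ℂ f) (x : ℂ) (u : ℕ → ℝ)
    (hu : ∀ m, tc f x m = (u m : ℂ)) (m : ℕ) :
    tc (fun z => z * f z) x m = x * (u m : ℂ) + (sh u m : ℝ) := by
  rw [rec_tc_mul f hf, hu m]
  by_cases hm : m = 0
  · simp [sh, hm]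
  · simp [sh, hm, hu]

theorem tc_mom (a : ℕ) (T : ℕ → ℂ → ℂ)
    (hd : ∀ M, ∀ i ≤ 2 * a, Differentiable ℂ (FF T M i))
    (hdiff : ∀ M, ∀ i ≤ 2 * a, ∀ z, FF T (M + 1) i (z + 1) - FF T (M + 1) i z = FF T M i z)
    (τ : ℕ → ℕ → ℝ) (hτ : ∀ i ≤ 2 * a, ∀ m, tc (T i) 1 m = (τ i m : ℂ)) (t i m : ℕ)
    (hi : i ≤ 2 * a) :
    tc (FF T (t + 1) i) ((t : ℂ) + 1) m = (mom (fun i m => sh (τ i) m
      + if i = 0 then 0 else if i = 1 then -τ 0 m else τ (i - 1) m) t i m : ℝ) := by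
  set c : ℕ → ℕ → ℝ := fun i m => sh (τ i) m
      + if i = 0 then 0 else if i = 1 then -τ 0 m else τ (i - 1) m with hc
  have hT : ∀ i ≤ 2 * a, Differentiable ℂ (T i) := fun i hi => hd 0 i hi
  induction t generalizing i m with
  | zero =>
    have hmul : ∀ j ≤ 2 * a, ∀ m, tc (fun z => z * T j z) 1 m = (τ j m : ℂ) + (sh (τ j) m : ℝ) := by
      intro j hj m
      rw [rec_tc_mul_real (T j) (hT j hj) 1 (τ j) (hτ j hj) m, one_mul]
    have hdm : ∀ j ≤ 2 * a, Differentiable ℂ (fun z => z * T j z) := fun j hj =>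
      differentiable_id.mul (hT j hj)
    have h0 : (0 : ℕ) ≤ 2 * a := Nat.zero_le _
    simp only [Nat.cast_zero, zero_add]
    by_cases hi0 : i = 0
    · subst hi0
      have : FF T 1 0 = fun z => z * T 0 z - T 0 z := by
        funext z; simp [FF]; ring
      rw [this, rec_tc_sub _ _ (hdm 0 h0) (hT 0 h0), hmul 0 h0, hτ 0 h0]
      simp [mom, hc]
    · by_cases hi1 : i = 1
      · subst hi1
        have : FF T 1 1 = fun z => (z * T 1 z - T 1 z) - z * T 0 z := by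
          funext z; simp [FF, F0]; ring
        rw [this, rec_tc_sub _ _ ((hdm 1 hi).fun_sub (hT 1 hi)) (hdm 0 h0),
          rec_tc_sub _ _ (hdm 1 hi) (hT 1 hi), hmul 0 h0, hmul 1 hi, hτ 1 hi]
        simp [mom, hc]
        ring
      · have hi' : i - 1 ≤ 2 * a := by omega
        have : FF T 1 i = fun z => (z * T i z - T i z) + T (i - 1) z := by
          funext z; simp [FF, hi0, hi1]; ring
        rw [this, rec_tc_add _ _ ((hdm i hi).fun_sub (hT i hi)) (hT _ hi'),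
          rec_tc_sub _ _ (hdm i hi) (hT i hi), hmul i hi, hτ i hi, hτ _ hi']
        simp [mom, hc, hi0, hi1]
  | succ t ih =>
    have h0 : (0 : ℕ) ≤ 2 * a := Nat.zero_le _
    have hne : ((t : ℂ) + 2) ≠ 0 := by exact_mod_cast (show t + 2 ≠ 0 by omega)
    have hmul : ∀ j ≤ 2 * a, ∀ m, tc (fun z => z * FF T (t + 1) j z) ((t : ℂ) + 1) m
        = ((t : ℂ) + 1) * (mom c t j m : ℝ) + (sh (mom c t j) m : ℝ) := fun j hj m =>
      rec_tc_mul_real _ (hd _ j hj) _ (mom c t j) (fun m => ih j m hj) m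
    have hdm : ∀ j ≤ 2 * a, Differentiable ℂ (fun z => z * FF T (t + 1) j z) := fun j hj =>
      differentiable_id.mul (hd _ j hj)
    have hsh : tc (FF T (t + 1 + 1) i) (((t + 1 : ℕ) : ℂ) + 1) m
        = tc (fun z => FF T (t + 1 + 1) i (z + 1)) ((t : ℂ) + 1) m := by
      rw [rec_tc_shift]; push_cast; rfl
    have hfun : ∀ z, FF T (t + 1 + 1) i (z + 1) = (z * FF T (t + 1) i z
        + if i = 0 then 0 else if i = 1 then -(z * FF T (t + 1) 0 z / ((t : ℂ) + 2))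
          else FF T (t + 1) (i - 1) z) / ((t : ℂ) + 2) := by
      intro z
      have h1 := hdiff (t + 1) i hi z
      have h2 : FF T (t + 1 + 1) i z = ((z - (((t + 1 : ℕ) : ℂ) + 1)) * FF T (t + 1) i z
          + if i = 0 then 0 else if i = 1 then -(z / (((t + 1 : ℕ) : ℂ) + 1)) * F0 T (t + 1) z
            else FF T (t + 1) (i - 1) z) / (((t + 1 : ℕ) : ℂ) + 1) := rfl
      have h3 : (((t + 1 : ℕ) : ℂ) + 1) = (t : ℂ) + 2 := by push_cast; ring
      rw [h3, ← FF_zero_eq] at h2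
      rw [sub_eq_iff_eq_add] at h1
      rw [h1, h2]
      split_ifs <;> field_simp <;> ring
    rw [hsh, funext hfun, rec_tc_div]
    by_cases hi0 : i = 0
    · subst hi0
      simp only [if_true, add_zero]
      rw [hmul 0 h0]
      simp [mom]
    · by_cases hi1 : i = 1
      · subst hi1
        simp only [if_true, one_ne_zero, if_false, ← sub_eq_add_neg]
        rw [rec_tc_sub _ _ (hdm 1 hi) ((hdm 0 h0).div_const _), rec_tc_div, hmul 0 h0, hmul 1 hi]
        simp [mom, pm, mom_zero_eq]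
        ring
      · have hi' : i - 1 ≤ 2 * a := by omega
        simp only [hi0, hi1, if_false]
        rw [rec_tc_add _ _ (hdm i hi) (hd _ _ hi'), hmul i hi, ih _ m hi']
        simp [mom, hi0, hi1]

theorem tc_fwd (a : ℕ) (T : ℕ → ℂ → ℂ)
    (hd : ∀ M, ∀ i ≤ 2 * a, Differentiable ℂ (FF T M i))
    (hdiff : ∀ M, ∀ i ≤ 2 * a, ∀ z, FF T (M + 1) i (z + 1) - FF T (M + 1) i z = FF T M i z)
    (M h i m : ℕ) (hi : i ≤ 2 * a) (x : ℂ) :
    tc (FF T M i) x m = ∑ l ∈ range (h + 1),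
      (-1) ^ (h - l) * (h.choose l : ℂ) * tc (FF T (M + h) i) (x + l) m := by
  have hstep : ∀ M, fwdDiff (1 : ℂ) (fun y => tc (FF T (M + 1) i) y m)
      = fun y => tc (FF T M i) y m := by
    intro M
    funext y
    have h1 : FF T M i = fun z => FF T (M + 1) i (z + 1) - FF T (M + 1) i z :=
      funext fun z => (hdiff M i hi z).symm
    have h2 : Differentiable ℂ (fun z => FF T (M + 1) i (z + 1)) :=
      (hd (M + 1) i hi).comp (differentiable_id.add_const 1)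
    rw [h1, rec_tc_sub _ _ h2 (hd (M + 1) i hi), rec_tc_shift]
    rfl
  have hiter : ∀ h : ℕ, (fwdDiff (1 : ℂ))^[h] (fun y => tc (FF T (M + h) i) y m)
      = fun y => tc (FF T M i) y m := by
    intro h
    induction h with
    | zero => rfl
    | succ h ih => rw [Function.iterate_succ_apply, ← add_assoc, hstep, ih]
  have := congrFun (hiter h) x
  rw [fwdDiff_iter_eq_sum_shift] at this
  rw [← this]
  refine Finset.sum_congr rfl fun l _ => ?_
  simp [zsmul_eq_mul]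

end ZOdd

end

-- part Small
section
/-!
A linear functional made of Taylor coefficients which kills polynomials of low degree is small.
-/

set_option autoImplicit false

namespace ZOdd

open Finset

theorem small_tc {f : ℂ → ℂ} (hf : Differentiable ℂ f) (c : ℂ) {R C : ℝ} (hR : 0 < R)
    (hC : ∀ z ∈ Metric.sphere c R, ‖f z‖ ≤ C) (n : ℕ) : ‖tc f c n‖ ≤ C / R ^ n := by
  have h := Complex.norm_iteratedDeriv_le_of_forall_mem_sphere_norm_le n hR hf.diffContOnCl hC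
  have h1 : (0 : ℝ) < n.factorial := by exact_mod_cast n.factorial_pos
  rw [tc, norm_div, Complex.norm_natCast, div_le_iff₀ h1]
  exact h.trans_eq (by ring)

theorem small_tail {f : ℂ → ℂ} (hf : Differentiable ℂ f) {R B X : ℝ} (hX : 1 ≤ X)
    (hR : 2 * X ≤ R) (hB : ∀ z : ℂ, ‖z‖ = R → ‖f z‖ ≤ B) (T : ℕ) {z : ℂ} (hz : ‖z‖ ≤ X) :
    ‖f z - ∑ τ ∈ range T, tc f 0 τ * z ^ τ‖ ≤ 2 * B * (X / R) ^ T := by
  have hR0 : 0 < R := by linarith
  have ha := small_tc hf 0 hR0 (fun z hz => hB z (by simpa using hz))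
  have hB0 : 0 ≤ B := by simpa using (norm_nonneg _).trans (ha 0)
  have h1 : HasSum (fun n => tc f 0 n * z ^ n) (f z) := by
    have e : (fun n => tc f 0 n * z ^ n) = fun n : ℕ =>
        (n.factorial : ℂ)⁻¹ • (z - 0) ^ n • iteratedDeriv n f 0 := by
      funext n
      rw [tc, sub_zero, smul_eq_mul, smul_eq_mul]
      ring
    rw [e]
    exact Complex.hasSum_taylorSeries_of_entire hf 0 z
  have hq : X / R ≤ 1 / 2 := by rw [div_le_div_iff₀ hR0 two_pos]; linarith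
  have hq0 : 0 ≤ X / R := by positivity
  refine (((hasSum_nat_add_iff' T).2 h1).norm_le_of_bounded
    (hasSum_geometric_two.mul_left (B * (X / R) ^ T)) fun n => ?_).trans_eq (by ring)
  rw [norm_mul, norm_pow]
  calc ‖tc f 0 (n + T)‖ * ‖z‖ ^ (n + T) ≤ B / R ^ (n + T) * X ^ (n + T) := by
        gcongr; exact ha _
    _ = B * (X / R) ^ T * (X / R) ^ n := by rw [mul_assoc, ← pow_add, add_comm T, div_pow]; ring
    _ ≤ _ := by gcongr

theorem small_split {f : ℂ → ℂ} (hf : Differentiable ℂ f) (a : ℕ → ℂ) (T : ℕ) (x : ℂ) (o : ℕ) :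
    tc f x o = tc (fun z => f z - ∑ τ ∈ range T, a τ * z ^ τ) x o +
      ∑ τ ∈ range T, a τ * ((τ.choose o : ℂ) * x ^ (τ - o)) := by
  have h0 : ((o.factorial : ℕ) : ℂ) ≠ 0 := by exact_mod_cast o.factorial_ne_zero
  rw [tc, tc, iteratedDeriv_fun_sub hf.contDiff.contDiffAt (by fun_prop),
    iteratedDeriv_fun_sum (fun τ _ => by fun_prop), sub_div, sum_div, sub_add, eq_comm,
    sub_eq_self, sub_eq_zero]
  refine sum_congr rfl fun τ _ => ?_
  rw [iteratedDeriv_const_mul_field, iteratedDeriv_pow, Nat.descFactorial_eq_factorial_mul_choose]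
  push_cast
  field_simp

theorem small_fun (Ψ : ℂ → ℂ) (hΨ : Differentiable ℂ Ψ) (x0 : ℂ) (R B X : ℝ) (hX : 1 ≤ X)
    (hR : 2 * X ≤ R) (hB : ∀ z : ℂ, ‖z‖ = R → ‖Ψ (x0 + z)‖ ≤ B) {κ : Type} (s : Finset κ)
    (x : κ → ℂ) (o : κ → ℕ) (γ : κ → ℂ) (hx : ∀ k ∈ s, ‖x k‖ + 1 ≤ X) (T : ℕ)
    (hT : ∀ τ < T, ∑ k ∈ s, γ k * (τ.choose (o k) : ℂ) * x k ^ (τ - o k) = 0) :
    ‖∑ k ∈ s, γ k * tc Ψ (x0 + x k) (o k)‖ ≤ (∑ k ∈ s, ‖γ k‖) * (2 * B * (X / R) ^ T) := by
  let f : ℂ → ℂ := fun z => Ψ (x0 + z)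
  have hf : Differentiable ℂ f := hΨ.comp (differentiable_id.const_add x0)
  let r : ℂ → ℂ := fun z => f z - ∑ τ ∈ range T, tc f 0 τ * z ^ τ
  have hr : Differentiable ℂ r := hf.sub (by fun_prop)
  have h1 : ∀ k, tc Ψ (x0 + x k) (o k) = tc r (x k) (o k) +
      ∑ τ ∈ range T, tc f 0 τ * ((τ.choose (o k) : ℂ) * x k ^ (τ - o k)) := fun k => by
    rw [← small_split hf, tc, tc, iteratedDeriv_comp_const_add]
  have h2 : ∑ k ∈ s, γ k * tc Ψ (x0 + x k) (o k) = ∑ k ∈ s, γ k * tc r (x k) (o k) := by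
    simp only [h1, mul_add, sum_add_distrib, mul_sum]
    rw [sum_comm, add_eq_left]
    refine sum_eq_zero fun τ hτ => ?_
    have h5 := congrArg (tc f 0 τ * ·) (hT τ (mem_range.1 hτ))
    simp only [mul_zero, mul_sum] at h5
    exact (sum_congr rfl fun k _ => by ring).trans h5
  rw [h2, sum_mul]
  refine norm_sum_le_of_le _ fun k hk => ?_
  rw [norm_mul]
  refine mul_le_mul_of_nonneg_left ?_ (norm_nonneg _)
  have h3 := small_tc hr (x k) one_pos (C := 2 * B * (X / R) ^ T) (fun z hz => by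
    refine small_tail hf hX hR hB T ?_
    have h4 := norm_le_norm_add_norm_sub' z (x k)
    rw [mem_sphere_iff_norm.1 hz] at h4
    exact h4.trans (hx k hk)) (o k)
  rwa [one_pow, div_one] at h3

end ZOdd

end

-- part Row
section
set_option autoImplicit false

namespace ZOdd

open Finset

theorem row_card (w yy n : ℕ) (φ : ℕ → ℕ) (hφ : ∀ v, φ v ≤ yy) :
    Fintype.card (Σ v : Fin (w + 1), Fin (φ v * n)) ≤ (w + 1) * yy * n := by
  rw [Fintype.card_sigma]
  simp only [Fintype.card_fin]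
  calc ∑ v : Fin (w + 1), φ v * n ≤ ∑ _v : Fin (w + 1), yy * n :=
        sum_le_sum fun v _ => Nat.mul_le_mul_right _ (hφ v)
    _ = (w + 1) * yy * n := by simp [mul_assoc]

theorem small_row (a : ℕ) (ha : 1 ≤ a) (T : ℕ → ℂ → ℂ) (hT : IsT a T) (τ : ℕ → ℕ → ℝ)
    (hτ : ∀ i ≤ 2 * a, ∀ m, tc (T i) 1 m = (τ i m : ℂ)) (w yy r0 n Tn : ℕ) (φ : ℕ → ℕ)
    (hφ : ∀ v, φ v ≤ yy) (hn : 1 ≤ n) (hr : 2 * yy + 2 ≤ r0)
    (y : (Σ v : Fin (w + 1), Fin (φ v * n)) → ℝ)
    (hy : ∀ e < Tn, ∑ q, y q * ∑ l ∈ range (yy * n - q.2 + 1), (-1) ^ (yy * n - q.2 - l)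
      * ((yy * n - q.2).choose l : ℝ) * (e.choose q.1 : ℝ) * ((q.2 + l : ℕ) : ℝ) ^ (e - q.1) = 0)
    (u i μ : ℕ) (hu : u < a) (hi : i < a) (hμ : μ < n) :
    |∑ q, y q * (((u + q.1).choose u : ℝ) * mom (fun i m => sh (τ i) m
        + if i = 0 then 0 else if i = 1 then -τ 0 m else τ (i - 1) m) (μ + q.2) i (u + q.1))|
      ≤ ((w + 1) * yy * n : ℕ) * 2 ^ (w + a) * 2 ^ (yy * n)
        * (2 * Real.exp (20 * a * (2 * r0 * n + 4 + n) + (n + yy * n))
          * (((yy : ℝ) + 1) / r0) ^ Tn) * ‖y‖ := by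
  set c : ℕ → ℕ → ℝ := fun i m => sh (τ i) m
      + if i = 0 then 0 else if i = 1 then -τ 0 m else τ (i - 1) m with hc
  have hi2 : i ≤ 2 * a := by omega
  have hd := FF_differentiable a T hT
  have hdiff := FF_diff a T hT
  have hq : ∀ q : (Σ v : Fin (w + 1), Fin (φ v * n)), (q.2 : ℕ) ≤ yy * n := fun q =>
    q.2.2.le.trans (Nat.mul_le_mul_right _ (hφ _))
  set B : ℝ := Real.exp (20 * a * (2 * r0 * n + 4 + n) + (n + yy * n)) with hB
  have hn' : (1 : ℝ) ≤ n := by exact_mod_cast hn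
  have hr' : 2 * (yy : ℝ) + 2 ≤ r0 := by exact_mod_cast hr
  have hyy : (0 : ℝ) ≤ yy := Nat.cast_nonneg _
  have hμ' : (μ : ℝ) + 1 ≤ n := by exact_mod_cast hμ
  have key := small_fun (FF T (μ + 1 + yy * n) i) (hd _ i hi2) ((μ + 1 : ℕ) : ℂ)
    (((r0 * n : ℕ) : ℝ) + 1 / 2) B ((yy : ℝ) * n + 1) (by nlinarith) (by push_cast; nlinarith)
    (by
      intro z hz
      obtain ⟨h1, h2⟩ := circle_ok (r0 * n) (μ + 1) z hz
      refine (FF_bound a ha T hT _ (by omega) _ h1 h2 _ i hi2).trans (Real.exp_le_exp.2 ?_)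
      push_cast
      have : (0 : ℝ) ≤ a := Nat.cast_nonneg _
      nlinarith)
    ((univ : Finset (Σ v : Fin (w + 1), Fin (φ v * n))).sigma fun q => range (yy * n - q.2 + 1))
    (fun k => (((k.1.2 : ℕ) + k.2 : ℕ) : ℂ)) (fun k => u + k.1.1)
    (fun k => (y k.1 : ℂ) * ((u + k.1.1).choose u : ℂ)
      * ((-1) ^ (yy * n - k.1.2 - k.2) * ((yy * n - k.1.2).choose k.2 : ℂ)))
    (by
      intro k hk
      have h1 := mem_range.1 (mem_sigma.1 hk).2
      have h2 := hq k.1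
      have h3 : (k.1.2 : ℕ) + k.2 ≤ yy * n := by omega
      rw [Complex.norm_natCast]
      have : (((k.1.2 : ℕ) + k.2 : ℕ) : ℝ) ≤ (yy : ℝ) * n := by exact_mod_cast h3
      linarith) Tn
    (by
      intro e he
      have h0 := congrArg (fun r : ℝ => (e.choose u : ℂ) * (r : ℂ)) (hy (e - u) (by omega))
      simp only [Complex.ofReal_zero, mul_zero] at h0
      rw [← h0, sum_sigma]
      push_cast
      rw [mul_sum]
      refine sum_congr rfl fun q _ => ?_
      rw [mul_sum, mul_sum]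
      refine sum_congr rfl fun l _ => ?_
      have h1 : (e.choose (u + q.1) : ℂ) * ((u + q.1).choose u : ℂ)
          = (e.choose u : ℂ) * ((e - u).choose q.1 : ℂ) := by
        have := Nat.choose_mul (n := e) (k := u + q.1) (s := u) (Nat.le_add_right _ _)
        rw [Nat.add_sub_cancel_left] at this
        exact_mod_cast this
      rw [Nat.sub_sub e u q.1]
      linear_combination ((y q : ℂ) * ((-1) ^ (yy * n - q.2 - l) * ((yy * n - q.2).choose l : ℂ))
        * (((q.2 : ℕ) : ℂ) + l) ^ (e - (u + q.1))) * h1)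
  have hsum : ((∑ q, y q * (((u + q.1).choose u : ℝ) * mom c (μ + q.2) i (u + q.1)) : ℝ) : ℂ)
      = ∑ k ∈ (univ : Finset (Σ v : Fin (w + 1), Fin (φ v * n))).sigma
          fun q => range (yy * n - q.2 + 1), (y k.1 : ℂ) * ((u + k.1.1).choose u : ℂ)
        * ((-1) ^ (yy * n - k.1.2 - k.2) * ((yy * n - k.1.2).choose k.2 : ℂ))
        * tc (FF T (μ + 1 + yy * n) i) (((μ + 1 : ℕ) : ℂ) + (((k.1.2 : ℕ) + k.2 : ℕ) : ℂ))
          (u + k.1.1) := by
    rw [sum_sigma, Complex.ofReal_sum]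
    refine sum_congr rfl fun q _ => ?_
    rw [Complex.ofReal_mul, Complex.ofReal_mul, ← tc_mom a T hd hdiff τ hτ _ i _ hi2,
      tc_fwd a T hd hdiff _ (yy * n - q.2) i _ hi2, mul_sum, mul_sum]
    refine sum_congr rfl fun l _ => ?_
    have h1 : μ + q.2 + 1 + (yy * n - q.2) = μ + 1 + yy * n := by have := hq q; omega
    have h2 : (((μ + q.2 : ℕ) : ℂ) + 1 + l) = ((μ + 1 : ℕ) : ℂ) + (((q.2 : ℕ) + l : ℕ) : ℂ) := by
      push_cast; ring
    rw [h1, h2]
    push_cast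
    ring
  rw [← hsum, Complex.norm_real, Real.norm_eq_abs] at key
  refine key.trans ?_
  have hγ : ∑ k ∈ (univ : Finset (Σ v : Fin (w + 1), Fin (φ v * n))).sigma
          fun q => range (yy * n - q.2 + 1), ‖(y k.1 : ℂ) * ((u + k.1.1).choose u : ℂ)
        * ((-1) ^ (yy * n - k.1.2 - k.2) * ((yy * n - k.1.2).choose k.2 : ℂ))‖
      ≤ ((w + 1) * yy * n : ℕ) * (2 ^ (w + a) * 2 ^ (yy * n) * ‖y‖) := by
    rw [sum_sigma]
    refine (sum_le_card_nsmul _ _ (2 ^ (w + a) * 2 ^ (yy * n) * ‖y‖) fun q _ => ?_).trans ?_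
    · have h1 : ((u + q.1).choose u : ℝ) ≤ 2 ^ (w + a) := by
        have h := q.1.2
        exact_mod_cast (Nat.choose_le_two_pow _ _).trans
          (Nat.pow_le_pow_right (by norm_num) (by omega))
      have h2 : ∑ l ∈ range (yy * n - q.2 + 1), ((yy * n - q.2).choose l : ℝ) ≤ 2 ^ (yy * n) := by
        have h := Nat.sum_range_choose (yy * n - q.2)
        exact_mod_cast h.le.trans (Nat.pow_le_pow_right (by norm_num) (by omega))
      have h3 : |y q| ≤ ‖y‖ := norm_le_pi_norm y q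
      simp only [norm_mul, norm_pow, norm_neg, norm_one, one_pow, one_mul, Complex.norm_natCast,
        Complex.norm_real, Real.norm_eq_abs]
      rw [← mul_sum]
      calc |y q| * ((u + q.1).choose u : ℝ)
            * ∑ l ∈ range (yy * n - q.2 + 1), ((yy * n - q.2).choose l : ℝ)
          ≤ ‖y‖ * 2 ^ (w + a) * 2 ^ (yy * n) := by gcongr
        _ = _ := by ring
    · rw [nsmul_eq_mul, card_univ]
      have := row_card w yy n φ hφ
      gcongr
  have hX : ((yy : ℝ) * n + 1) / (((r0 * n : ℕ) : ℝ) + 1 / 2) ≤ ((yy : ℝ) + 1) / r0 := by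
    push_cast
    rw [div_le_div_iff₀ (by nlinarith) (by linarith)]
    nlinarith
  have hB0 : 0 ≤ B := (Real.exp_pos _).le
  calc _ ≤ (((w + 1) * yy * n : ℕ) * (2 ^ (w + a) * 2 ^ (yy * n) * ‖y‖))
        * (2 * B * (((yy : ℝ) + 1) / r0) ^ Tn) := by gcongr
    _ = _ := by ring

end ZOdd

end

-- part ExT
section
set_option autoImplicit false

namespace ZOdd

open Finset

/-- One term of the series, with the removable singularity filled in. -/
noncomputable def ext_u (a i m : ℕ) (z : ℂ) : ℂ :=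
  Sn a z * (1 / ((m : ℂ) + 1) ^ i) + (-1) ^ i * Complex.sin (Real.pi * z) ^ (2 * a - i) *
    (dslope (fun w : ℂ => Complex.sin (Real.pi * w)) (-(m : ℂ)) z) ^ i

theorem ext_sin_diff : Differentiable ℂ (fun w : ℂ => Complex.sin (Real.pi * w)) := by
  fun_prop

theorem ext_Sn_diff (a : ℕ) : Differentiable ℂ (Sn a) := by
  unfold Sn
  fun_prop

theorem ext_u_diff (a i m : ℕ) : Differentiable ℂ (ext_u a i m) := by
  have h1 : Differentiable ℂ (dslope (fun w : ℂ => Complex.sin (Real.pi * w)) (-(m : ℂ))) := by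
    rw [← differentiableOn_univ]
    exact (Complex.differentiableOn_dslope Filter.univ_mem).2 ext_sin_diff.differentiableOn
  have h2 := ext_Sn_diff a
  have h3 := ext_sin_diff
  unfold ext_u
  exact (h2.mul_const _).add (((h3.pow _).const_mul _).mul (h1.pow _))

theorem ext_u_eq (a i m : ℕ) (hi : i ≤ 2 * a) (z : ℂ) (hz : (m : ℂ) + z ≠ 0) :
    ext_u a i m z = Sn a z * (1 / ((m : ℂ) + 1) ^ i + (-1) ^ i / ((m : ℂ) + z) ^ i) := by
  have hne : z ≠ -(m : ℂ) := fun h => hz (by rw [h]; ring)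
  have h0 : Complex.sin (Real.pi * (-(m : ℂ))) = 0 := by
    rw [mul_neg, Complex.sin_neg, mul_comm, Complex.sin_nat_mul_pi, neg_zero]
  have h1 : dslope (fun w : ℂ => Complex.sin (Real.pi * w)) (-(m : ℂ)) z
      = Complex.sin (Real.pi * z) / ((m : ℂ) + z) := by
    rw [dslope_of_ne _ hne, slope_def_field, h0, sub_zero]
    congr 1
    ring
  have h2 : Sn a z = Complex.sin (Real.pi * z) ^ (2 * a - i) * Complex.sin (Real.pi * z) ^ i := by
    rw [← pow_add, Nat.sub_add_cancel hi]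
    rfl
  unfold ext_u
  rw [h1, div_pow, mul_add]
  congr 1
  rw [h2]
  ring

theorem ext_term_le (i m R : ℕ) (hi : 1 ≤ i) (hm : 2 * R + 1 ≤ m) (z : ℂ) (hz : ‖z‖ ≤ R) :
    (m : ℂ) + z ≠ 0 ∧ ‖1 / ((m : ℂ) + 1) ^ i + (-1) ^ i / ((m : ℂ) + z) ^ i‖
      ≤ (2 * (R + 1) + 1 + 2 ^ i) * (1 / ((m : ℝ) + 1) ^ 2) := by
  have hm' : (2 * R + 1 : ℝ) ≤ m := by exact_mod_cast hm
  have hR : (0 : ℝ) ≤ R := Nat.cast_nonneg R
  have hp : (0 : ℝ) < (m : ℝ) + 1 := by positivity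
  have hlow : ((m : ℝ) + 1) / 2 ≤ ‖(m : ℂ) + z‖ := by
    have h1 : ‖(m : ℂ)‖ ≤ ‖(m : ℂ) + z‖ + ‖z‖ := by
      simpa using norm_sub_le ((m : ℂ) + z) z
    rw [Complex.norm_natCast] at h1
    linarith
  have hpos : 0 < ‖(m : ℂ) + z‖ := lt_of_lt_of_le (by positivity) hlow
  have hne : (m : ℂ) + z ≠ 0 := norm_pos_iff.1 hpos
  have hn1 : ‖(m : ℂ) + 1‖ = (m : ℝ) + 1 := by
    have : (m : ℂ) + 1 = ((m + 1 : ℕ) : ℂ) := by push_cast; ring
    rw [this, Complex.norm_natCast]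
    push_cast
    ring
  have hne1 : (m : ℂ) + 1 ≠ 0 := norm_pos_iff.1 (by rw [hn1]; exact hp)
  refine ⟨hne, ?_⟩
  have hq : (0 : ℝ) ≤ 1 / ((m : ℝ) + 1) ^ 2 := by positivity
  have h2i : (0 : ℝ) < 2 ^ i := by positivity
  rcases Nat.eq_or_lt_of_le hi with h | h
  · subst h
    have e : 1 / ((m : ℂ) + 1) ^ 1 + (-1) ^ 1 / ((m : ℂ) + z) ^ 1
        = (z - 1) / (((m : ℂ) + 1) * ((m : ℂ) + z)) := by
      field_simp
      ring
    rw [e, norm_div, norm_mul, hn1]
    have h3 : ‖z - 1‖ ≤ R + 1 := by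
      have := norm_sub_le z 1
      rw [norm_one] at this
      linarith
    calc ‖z - 1‖ / (((m : ℝ) + 1) * ‖(m : ℂ) + z‖)
        ≤ (R + 1) / (((m : ℝ) + 1) * (((m : ℝ) + 1) / 2)) := by gcongr
      _ = (2 * (R + 1)) * (1 / ((m : ℝ) + 1) ^ 2) := by field_simp
      _ ≤ _ := by gcongr; linarith
  · have h1m : (1 : ℝ) ≤ (m : ℝ) + 1 := by linarith [Nat.cast_nonneg (α := ℝ) m]
    have hpw : ((m : ℝ) + 1) ^ 2 ≤ ((m : ℝ) + 1) ^ i := pow_le_pow_right₀ h1m h
    have a1 : ‖1 / ((m : ℂ) + 1) ^ i‖ ≤ 1 / ((m : ℝ) + 1) ^ 2 := by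
      rw [norm_div, norm_one, norm_pow, hn1]
      gcongr
    have a2 : ‖(-1) ^ i / ((m : ℂ) + z) ^ i‖ ≤ 2 ^ i * (1 / ((m : ℝ) + 1) ^ 2) := by
      rw [norm_div, norm_pow, norm_pow, norm_neg, norm_one, one_pow]
      calc 1 / ‖(m : ℂ) + z‖ ^ i ≤ 1 / (((m : ℝ) + 1) / 2) ^ i := by gcongr
        _ = 2 ^ i * (1 / ((m : ℝ) + 1) ^ i) := by rw [div_pow]; field_simp
        _ ≤ _ := by gcongr
    calc _ ≤ _ := norm_add_le _ _
      _ ≤ 1 / ((m : ℝ) + 1) ^ 2 + 2 ^ i * (1 / ((m : ℝ) + 1) ^ 2) := add_le_add a1 a2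
      _ = (1 + 2 ^ i) * (1 / ((m : ℝ) + 1) ^ 2) := by ring
      _ ≤ _ := by gcongr; linarith

theorem ext_bdd (f : ℂ → ℂ) (hf : Continuous f) (R : ℝ) :
    ∃ B : ℝ, 0 ≤ B ∧ ∀ z : ℂ, ‖z‖ ≤ R → ‖f z‖ ≤ B := by
  obtain ⟨B, hB⟩ := (isCompact_closedBall (0 : ℂ) R).exists_bound_of_continuousOn hf.continuousOn
  refine ⟨max B 0, le_max_right _ _, fun z hz => le_trans (hB z ?_) (le_max_left _ _)⟩
  simpa using hz

theorem ext_sum_diff (a i : ℕ) (hi : 1 ≤ i) (hi' : i ≤ 2 * a) :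
    Differentiable ℂ (fun z => ∑' m : ℕ, ext_u a i m z) := by
  intro z₀
  obtain ⟨R, hR⟩ := exists_nat_gt ‖z₀‖
  obtain ⟨B, hB0, hB⟩ := ext_bdd (Sn a) (ext_Sn_diff a).continuous R
  choose C _ hC using fun m : ℕ => ext_bdd (ext_u a i m) (ext_u_diff a i m).continuous R
  have hs0 : Summable fun m : ℕ => 1 / ((m : ℝ) + 1) ^ 2 := by
    have := (summable_nat_add_iff 1).2 (Real.summable_one_div_nat_pow.2 (by norm_num : 1 < 2))
    simpa using this
  have hs : Summable fun m : ℕ => if m < 2 * R + 1 then C m else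
      B * ((2 * (R + 1) + 1 + 2 ^ i) * (1 / ((m : ℝ) + 1) ^ 2)) := by
    rw [← summable_nat_add_iff (2 * R + 1)]
    have := (summable_nat_add_iff (2 * R + 1)).2
      ((hs0.mul_left (2 * ((R : ℝ) + 1) + 1 + 2 ^ i)).mul_left B)
    refine this.congr fun m => ?_
    rw [if_neg (by omega)]
  have hd : DifferentiableOn ℂ (fun z => ∑' m : ℕ, ext_u a i m z) (Metric.ball 0 R) := by
    refine Complex.differentiableOn_tsum_of_summable_norm hs
      (fun m => (ext_u_diff a i m).differentiableOn) Metric.isOpen_ball fun m w hw => ?_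
    have hw' : ‖w‖ ≤ R := le_of_lt (by simpa using hw)
    split_ifs with h
    · exact hC m w hw'
    · obtain ⟨h1, h2⟩ := ext_term_le i m R hi (by omega) w hw'
      rw [ext_u_eq a i m hi' w h1, norm_mul]
      exact mul_le_mul (hB w hw') h2 (norm_nonneg _) hB0
  exact hd.differentiableAt (Metric.isOpen_ball.mem_nhds (by simpa using hR))

theorem exists_T (a : ℕ) : ∃ T, IsT a T := by
  refine ⟨fun i => if i = 0 then Sn a else fun z => ∑' m : ℕ, ext_u a i m z, by simp, ?_, ?_⟩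
  · intro i hi
    by_cases h : i = 0
    · simp only [h, if_true]
      exact ext_Sn_diff a
    · simp only [h, if_false]
      exact ext_sum_diff a i (by omega) hi
  · intro i hi hi' z hz
    have h : i ≠ 0 := by omega
    simp only [h, if_false]
    unfold Zs
    rw [← tsum_mul_left]
    exact tsum_congr fun m => ext_u_eq a i m hi' z (hz m)

end ZOdd

end

-- part Wt
section
set_option autoImplicit false

namespace ZOdd

open Finset

/-- Real numbers of weight g. -/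
def wtW (g : ℕ) (x : ℂ) : Prop :=
  ∃ r : ℝ, x = (r : ℂ) ∧ ∀ s, g ≤ s → r / Real.pi ^ g ∈ Lam s

theorem wt_zero (g : ℕ) : wtW g 0 := ⟨0, by simp, fun s _ => by simp⟩

theorem wt_add {g : ℕ} {x y : ℂ} (hx : wtW g x) (hy : wtW g y) : wtW g (x + y) := by
  obtain ⟨r, rfl, hr⟩ := hx
  obtain ⟨t, rfl, ht⟩ := hy
  exact ⟨r + t, by simp, fun s hs => by rw [add_div]; exact add_mem (hr s hs) (ht s hs)⟩

theorem wt_sum {g : ℕ} {ι : Type} (s : Finset ι) (f : ι → ℂ) (h : ∀ i ∈ s, wtW g (f i)) :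
    wtW g (∑ i ∈ s, f i) :=
  sum_induction f (wtW g) (fun _ _ => wt_add) (wt_zero g) h

theorem wt_mul {g g' : ℕ} {x : ℂ} (q : ℚ) (k : ℕ) (hg : k + g = g') (hx : wtW g x) :
    wtW g' ((q : ℂ) * (Real.pi : ℂ) ^ k * x) := by
  obtain ⟨r, rfl, hr⟩ := hx
  subst hg
  refine ⟨q * Real.pi ^ k * r, by push_cast; ring, fun s hs => ?_⟩
  have h := (Lam s).smul_mem q (hr s (by omega))
  convert h using 1
  rw [Rat.smul_def, pow_add]
  have := Real.pi_ne_zero
  field_simp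

theorem wt_rat {g : ℕ} {x : ℂ} (q : ℚ) (hx : wtW g x) : wtW g ((q : ℂ) * x) := by
  simpa using wt_mul q 0 (zero_add g) hx

theorem wt_one : wtW 0 1 :=
  ⟨1, by simp, fun s _ => by
    rw [pow_zero, div_one]; exact Submodule.subset_span (Set.mem_insert _ _)⟩

theorem wt_zr (j : ℕ) (hj : 2 ≤ j) : wtW j (zr j : ℂ) :=
  ⟨zr j, rfl, fun _ hs => Submodule.subset_span (Set.mem_insert_of_mem _ ⟨j, hj, hs, rfl⟩)⟩

theorem wt_sin (k : ℕ) : ∃ q : ℚ, iteratedDeriv k (fun z : ℂ => Complex.sin (Real.pi * z)) 1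
    = (q : ℂ) * (Real.pi : ℂ) ^ k := by
  rw [iteratedDeriv_comp_const_mul Complex.contDiff_sin]
  rcases Nat.even_or_odd' k with ⟨n, rfl | rfl⟩
  · exact ⟨0, by simp⟩
  · refine ⟨(-1) ^ (n + 1), ?_⟩
    rw [Complex.iteratedDeriv_odd_sin]
    simp [pow_succ, mul_comm]

theorem wt_sinpow (n k : ℕ) : ∃ q : ℚ,
    iteratedDeriv k (fun z : ℂ => Complex.sin (Real.pi * z) ^ n) 1
      = (q : ℂ) * (Real.pi : ℂ) ^ k := by
  induction n generalizing k with
  | zero =>
    refine ⟨if k = 0 then 1 else 0, ?_⟩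
    rcases k with _ | k <;> simp [iteratedDeriv_const]
  | succ n ih =>
    choose q hq using ih
    choose p hp using wt_sin
    refine ⟨∑ i ∈ range (k + 1), k.choose i * q i * p (k - i), ?_⟩
    simp only [pow_succ]
    rw [iteratedDeriv_fun_mul (by fun_prop) (by fun_prop)]
    push_cast
    rw [sum_mul]
    refine sum_congr rfl fun i hi => ?_
    have h : (Real.pi : ℂ) ^ k = (Real.pi : ℂ) ^ i * (Real.pi : ℂ) ^ (k - i) := by
      rw [← pow_add]; congr 1; have := mem_range.1 hi; omega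
    rw [hq, hp, h]
    ring

theorem wt_order (a : ℕ) :
    (∀ k < 2 * a, iteratedDeriv k (Sn a) 1 = 0) ∧ iteratedDeriv (2 * a) (Sn a) 1 ≠ 0 := by
  have hf : AnalyticAt ℂ (fun z : ℂ => Complex.sin (Real.pi * z)) 1 := by fun_prop
  have h1 : analyticOrderAt (fun z : ℂ => Complex.sin (Real.pi * z)) 1 = (1 : ℕ) := by
    rw [analyticOrderAt_eq_nat_iff_iteratedDeriv_eq_zero hf]
    refine ⟨fun k hk => ?_, ?_⟩
    · obtain rfl : k = 0 := by omega
      simp
    · rw [iteratedDeriv_comp_const_mul Complex.contDiff_sin]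
      simp [Real.pi_ne_zero]
  have h2 := analyticOrderAt_pow hf (2 * a)
  rw [h1] at h2
  refine (analyticOrderAt_eq_nat_iff_iteratedDeriv_eq_zero (hf.pow (2 * a))).1 ?_
  rw [h2]
  simp

theorem wt_ball {z : ℂ} (hz : z ∈ Metric.ball (1 : ℂ) (1 / 2)) (m : ℕ) :
    ((m : ℝ) + 1) / 2 ≤ ‖(m : ℂ) + z‖ := by
  have h1 : ‖z - 1‖ < 1 / 2 := by simpa [dist_eq_norm] using hz
  have h2 := (abs_le.1 (Complex.abs_re_le_norm (z - 1))).1
  have h3 := Complex.re_le_norm ((m : ℂ) + z)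
  have h4 : (0 : ℝ) ≤ m := Nat.cast_nonneg m
  simp only [Complex.sub_re, Complex.one_re, Complex.add_re, Complex.natCast_re] at h2 h3
  linarith

theorem wt_ne {z : ℂ} (hz : z ∈ Metric.ball (1 : ℂ) (1 / 2)) (m : ℕ) : (m : ℂ) + z ≠ 0 := by
  have h := wt_ball hz m
  have h4 : (0 : ℝ) < ((m : ℝ) + 1) / 2 := by positivity
  exact norm_pos_iff.1 (h4.trans_le h)

theorem wt_summ (j : ℕ) (hj : 2 ≤ j) : Summable fun m : ℕ => 1 / ((m : ℝ) + 1) ^ j := by
  have h := (summable_nat_add_iff 1).2 (Real.summable_one_div_nat_pow.2 (by omega : 1 < j))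
  simpa using h

theorem wt_zrC (j : ℕ) : (zr j : ℂ) = ∑' m : ℕ, 1 / ((m : ℂ) + 1) ^ j := by
  rw [zr, Complex.ofReal_tsum]
  exact tsum_congr fun n => by push_cast; rfl

theorem wt_summC (j : ℕ) (hj : 2 ≤ j) : Summable fun m : ℕ => 1 / ((m : ℂ) + 1) ^ j := by
  have h := Complex.summable_ofReal.2 (wt_summ j hj)
  simpa using h

theorem wt_term {z : ℂ} (hz : z ∈ Metric.ball (1 : ℂ) (1 / 2)) (j m : ℕ) :
    ‖(-1) ^ j / ((m : ℂ) + z) ^ j‖ ≤ 2 ^ j * (1 / ((m : ℝ) + 1) ^ j) := by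
  have h := wt_ball hz m
  have h4 : (0 : ℝ) < ((m : ℝ) + 1) / 2 := by positivity
  rw [norm_div, norm_pow, norm_pow, norm_neg, norm_one, one_pow]
  calc 1 / ‖(m : ℂ) + z‖ ^ j ≤ 1 / (((m : ℝ) + 1) / 2) ^ j := by gcongr
    _ = _ := by rw [div_pow]; field_simp

theorem wt_deriv (i : ℕ) (hi : 1 ≤ i) {z : ℂ} (hz : z ∈ Metric.ball (1 : ℂ) (1 / 2)) :
    HasDerivAt (Zs i) ((i : ℂ) * (-(zr (i + 1) : ℂ) + Zs (i + 1) z)) z := by
  have hs := wt_summ (i + 1) (by omega)
  have h0 : Summable fun m : ℕ => 1 / ((m : ℂ) + 1) ^ i + (-1) ^ i / ((m : ℂ) + 1) ^ i := by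
    rcases hi.eq_or_lt with rfl | hi
    · simp [neg_div]
    · refine (wt_summC i hi).add ?_
      simpa [div_eq_mul_inv] using (wt_summC i hi).mul_left ((-1) ^ i)
  have h := hasDerivAt_tsum_of_isPreconnected (t := Metric.ball (1 : ℂ) (1 / 2))
    (g := fun (m : ℕ) (z : ℂ) => 1 / ((m : ℂ) + 1) ^ i + (-1) ^ i / ((m : ℂ) + z) ^ i)
    (g' := fun (m : ℕ) (z : ℂ) => (i : ℂ) * ((-1) ^ (i + 1) / ((m : ℂ) + z) ^ (i + 1)))
    ((hs.mul_left (2 ^ (i + 1))).mul_left (i : ℝ)) Metric.isOpen_ball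
    (convex_ball _ _).isPreconnected (fun m y hy => ?_) (fun m y hy => ?_)
    (Metric.mem_ball_self (by norm_num)) h0 hz
  · refine HasDerivAt.congr_deriv h ?_
    rw [tsum_mul_left, Zs, (wt_summC (i + 1) (by omega)).tsum_add
      (.of_norm_bounded (hs.mul_left (2 ^ (i + 1))) fun m => wt_term hz _ m), wt_zrC]
    ring
  · have hne := wt_ne hy m
    have h1 := ((((hasDerivAt_id y).const_add (m : ℂ)).pow i).inv
      (pow_ne_zero i hne)).const_mul ((-1 : ℂ) ^ i)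
    obtain ⟨k, rfl⟩ : ∃ k, i = k + 1 := ⟨i - 1, by omega⟩
    convert h1.const_add (1 / ((m : ℂ) + 1) ^ (k + 1)) using 1
    · funext x; simp [div_eq_mul_inv]
    · simp only [id, Pi.pow_apply, Nat.add_sub_cancel]
      field_simp
      ring
  · rw [norm_mul, Complex.norm_natCast]
    exact mul_le_mul_of_nonneg_left (wt_term hy _ m) (Nat.cast_nonneg _)

theorem wt_Zs (m i : ℕ) (hi : 1 ≤ i) : wtW (m + i) (iteratedDeriv m (Zs i) 1) := by
  induction m generalizing i with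
  | zero =>
    have h : Zs i 1 = ((1 + (-1) ^ i : ℚ) : ℂ) * (zr i : ℂ) := by
      rw [wt_zrC, ← tsum_mul_left, Zs]
      exact tsum_congr fun n => by push_cast; ring
    rw [iteratedDeriv_zero, h, zero_add]
    rcases hi.eq_or_lt with rfl | hi
    · simpa using wt_zero 1
    · exact wt_rat _ (wt_zr i hi)
  | succ m ih =>
    have h : deriv (Zs i) =ᶠ[nhds 1] fun z => ((i : ℚ) : ℂ) * (-(zr (i + 1) : ℂ) + Zs (i + 1) z) := by
      filter_upwards [Metric.ball_mem_nhds (1 : ℂ) (by norm_num : (0 : ℝ) < 1 / 2)] with z hz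
      simpa using (wt_deriv i hi hz).deriv
    rw [iteratedDeriv_succ', h.iteratedDeriv_eq, iteratedDeriv_const_mul_field]
    refine wt_rat _ ?_
    have h2 := ih (i + 1) (by omega)
    rw [show m + 1 + i = m + (i + 1) by ring]
    rcases Nat.eq_zero_or_pos m with rfl | hm
    · rw [iteratedDeriv_zero] at h2 ⊢
      refine wt_add ?_ h2
      simpa using wt_rat (-1) (wt_zr (i + 1) (by omega))
    · rwa [iteratedDeriv_const_add hm]

theorem wt_T (a : ℕ) (T : ℕ → ℂ → ℂ) (hT : IsT a T) (i : ℕ) (hi : i ≤ 2 * a) (m : ℕ) :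
    wtW (m + i) (tc (T i) 1 m) := by
  have hq : tc (T i) 1 m = (((m.factorial : ℚ)⁻¹ : ℚ) : ℂ) * iteratedDeriv m (T i) 1 := by
    rw [tc]; push_cast; ring
  rw [hq]
  refine wt_rat _ ?_
  clear hq
  choose q hq using wt_sinpow (2 * a)
  rcases Nat.eq_zero_or_pos i with rfl | h1
  · rw [hT.1]
    have h := wt_mul (q m) m rfl wt_one
    rw [mul_one, ← hq] at h
    exact h
  · have hb := Metric.ball_mem_nhds (1 : ℂ) (by norm_num : (0 : ℝ) < 1 / 2)
    have h : T i =ᶠ[nhds 1] fun z => Complex.sin (Real.pi * z) ^ (2 * a) * Zs i z := by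
      filter_upwards [hb] with z hz
      exact hT.2.2 i h1 hi z (wt_ne hz)
    have hZ : AnalyticAt ℂ (Zs i) 1 := DifferentiableOn.analyticAt
      (fun z hz => (wt_deriv i h1 hz).differentiableAt.differentiableWithinAt) hb
    rw [h.iteratedDeriv_eq, iteratedDeriv_fun_mul (by fun_prop) hZ.contDiffAt]
    refine wt_sum _ _ fun k hk => ?_
    have h3 := wt_mul (m.choose k * q k) k (g' := m + i) (by have := mem_range.1 hk; omega)
      (wt_Zs (m - k) i h1)
    convert h3 using 1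
    rw [hq]
    push_cast
    ring

theorem tc_T (a : ℕ) (T : ℕ → ℂ → ℂ) (hT : IsT a T) :
    ∃ τ : ℕ → ℕ → ℝ, (∀ i ≤ 2 * a, ∀ m, tc (T i) 1 m = (τ i m : ℂ)) ∧
      (∀ i ≤ 2 * a, ∀ m s, m + i ≤ s → τ i m / Real.pi ^ (m + i) ∈ Lam s) ∧
      (∀ m < 2 * a, τ 0 m = 0) ∧ τ 0 (2 * a) ≠ 0 := by
  have h1 : ∀ i ≤ 2 * a, ∀ m, tc (T i) 1 m = (((tc (T i) 1 m).re : ℝ) : ℂ) := by
    intro i hi m
    obtain ⟨r, hr, -⟩ := wt_T a T hT i hi m
    rw [hr, Complex.ofReal_re]
  refine ⟨fun i m => (tc (T i) 1 m).re, h1, fun i hi m s hs => ?_, fun m hm => ?_, fun h => ?_⟩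
  · obtain ⟨r, hr, h⟩ := wt_T a T hT i hi m
    simp only [hr, Complex.ofReal_re]
    exact h s hs
  · simp only [hT.1, tc, (wt_order a).1 m hm, zero_div, Complex.zero_re]
  · have h2 := h1 0 (Nat.zero_le _) (2 * a)
    rw [show (tc (T 0) 1 (2 * a)).re = 0 from h, hT.1, tc, Complex.ofReal_zero,
      div_eq_zero_iff] at h2
    exact h2.elim (wt_order a).2 (Nat.cast_ne_zero.2 (Nat.factorial_ne_zero _))

end ZOdd

end

-- part Den
section
set_option autoImplicit false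

namespace ZOdd

open Finset

/-- Integer combinations of reciprocals of products of distinct integers. -/
def den_S (t R : ℕ) : AddSubgroup ℝ :=
  AddSubgroup.closure {x | ∃ J : Finset ℕ, J ⊆ Icc 1 t ∧ J.card ≤ R ∧ x = 1 / ∏ j ∈ J, (j : ℝ)}

theorem den_mono {t t' R R' : ℕ} (ht : t ≤ t') (hR : R ≤ R') {x : ℝ} (hx : x ∈ den_S t R) :
    x ∈ den_S t' R' := by
  refine AddSubgroup.closure_mono ?_ hx
  rintro y ⟨J, h1, h2, rfl⟩
  exact ⟨J, h1.trans (Icc_subset_Icc_right ht), h2.trans hR, rfl⟩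

theorem den_mul {t R : ℕ} (z : ℤ) {x : ℝ} (hx : x ∈ den_S t R) : (z : ℝ) * x ∈ den_S t R := by
  simpa using AddSubgroup.zsmul_mem _ hx z

theorem den_int (t R : ℕ) (z : ℤ) : (z : ℝ) ∈ den_S t R := by
  have h : (1 : ℝ) ∈ den_S t R := AddSubgroup.subset_closure ⟨∅, by simp, by simp, by simp⟩
  simpa using den_mul z h

theorem den_div {t R : ℕ} {x : ℝ} (hx : x ∈ den_S t R) :
    x / ((t : ℝ) + 1) ∈ den_S (t + 1) (R + 1) := by
  induction hx using AddSubgroup.closure_induction with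
  | mem y hy =>
    obtain ⟨J, h1, h2, rfl⟩ := hy
    have hn : t + 1 ∉ J := fun h => by have := mem_Icc.1 (h1 h); omega
    refine AddSubgroup.subset_closure ⟨insert (t + 1) J, ?_, ?_, ?_⟩
    · intro j hj
      rcases mem_insert.1 hj with rfl | hj
      · simp
      · have := mem_Icc.1 (h1 hj); exact mem_Icc.2 ⟨this.1, by omega⟩
    · rw [card_insert_of_notMem hn]; omega
    · rw [prod_insert hn, div_div, mul_comm]; push_cast; rfl
  | zero => simp
  | add y z _ _ hy hz => rw [add_div]; exact AddSubgroup.add_mem _ hy hz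
  | neg y _ hy => rw [neg_div]; exact AddSubgroup.neg_mem _ hy

theorem den_fin {N R P : ℕ} (hP : ∀ J : Finset ℕ, J ⊆ Icc 1 N → J.card ≤ R → ∏ j ∈ J, j ∣ P)
    {x : ℝ} (hx : x ∈ den_S N R) : ∃ z : ℤ, (P : ℝ) * x = z := by
  induction hx using AddSubgroup.closure_induction with
  | mem y hy =>
    obtain ⟨J, h1, h2, rfl⟩ := hy
    obtain ⟨k, hk⟩ := hP J h1 h2
    have h0 : (∏ j ∈ J, (j : ℝ)) ≠ 0 := prod_ne_zero_iff.2 fun j hj => by
      have := mem_Icc.1 (h1 hj); exact Nat.cast_ne_zero.2 (by omega)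
    refine ⟨k, ?_⟩
    rw [hk]; push_cast; field_simp
  | zero => exact ⟨0, by simp⟩
  | add y z _ _ hy hz =>
    obtain ⟨a, ha⟩ := hy
    obtain ⟨b, hb⟩ := hz
    exact ⟨a + b, by rw [mul_add, ha, hb]; push_cast; rfl⟩
  | neg y _ hy =>
    obtain ⟨a, ha⟩ := hy
    exact ⟨-a, by rw [mul_neg, ha]; push_cast; rfl⟩

theorem den_cancel {t R : ℕ} {d x : ℝ} (h : d * (((t : ℝ) + 1) * x) ∈ den_S t R) :
    d * x ∈ den_S (t + 1) (R + 1) := by
  have h1 := den_div h
  have h0 : (t : ℝ) + 1 ≠ 0 := by positivity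
  rwa [show d * (((t : ℝ) + 1) * x) / ((t : ℝ) + 1) = d * x by field_simp] at h1

theorem den_sh {t m i Mx : ℕ} {d : ℝ} {f : ℕ → ℝ} (hm : m ≤ Mx)
    (h : ∀ m ≤ Mx, d * (((t : ℝ) + 1) * f m) ∈ den_S t (m + i)) :
    d * sh f m ∈ den_S (t + 1) (m + i) := by
  rcases m with _ | m
  · simp [sh]
  · have := den_cancel (h m (by omega))
    simp only [sh, Nat.add_one_ne_zero, if_false, Nat.add_sub_cancel]
    exact den_mono le_rfl (by omega) this

theorem den_pm (c : ℕ → ℕ → ℝ) (d : ℝ) (Mx : ℕ) (hc : ∀ m ≤ Mx, ∃ z : ℤ, d * c 0 m = z) (t : ℕ) :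
    ∀ m ≤ Mx, d * (((t : ℝ) + 1) * pm c t m) ∈ den_S t (m + 0) := by
  induction t with
  | zero =>
    intro m hm
    obtain ⟨z, hz⟩ := hc m hm
    simpa [pm, hz] using den_int 0 m z
  | succ t ih =>
    intro m hm
    have h0 : (t : ℝ) + 2 ≠ 0 := by positivity
    have e : d * ((((t + 1 : ℕ) : ℝ) + 1) * pm c (t + 1) m)
        = d * (((t : ℝ) + 1) * pm c t m) + d * sh (pm c t) m := by
      simp only [pm]; push_cast; rw [show (t : ℝ) + 1 + 1 = t + 2 by ring]; field_simp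
    rw [e]
    exact AddSubgroup.add_mem _ (den_mono (by omega) le_rfl (ih m hm)) (den_sh hm ih)

theorem den_mom (c : ℕ → ℕ → ℝ) (d : ℝ) (I Mx L N : ℕ) (hL : ∀ j, 1 ≤ j → j ≤ N → j ∣ L)
    (hc : ∀ i ≤ I, ∀ m ≤ Mx, ∃ z : ℤ, d * c i m = z) (t : ℕ) (ht : t + 1 ≤ N) :
    ∀ i ≤ I, ∀ m ≤ Mx, (L * d) * (((t : ℝ) + 1) * mom c t i m) ∈ den_S t (m + i) := by
  induction t with
  | zero =>
    intro i hi m hm
    obtain ⟨z, hz⟩ := hc i hi m hm
    obtain ⟨z0, hz0⟩ := hc 0 (by omega) m hm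
    have e : (L * d) * ((((0 : ℕ) : ℝ) + 1) * mom c 0 i m)
        = ((L * (z - if i = 1 then z0 else 0) : ℤ) : ℝ) := by
      simp only [mom]; push_cast; rw [← hz, ← hz0]; split_ifs <;> ring
    rw [e]; exact den_int _ _ _
  | succ t ih =>
    intro i hi m hm
    have ih := ih (by omega)
    have h0 : (t : ℝ) + 2 ≠ 0 := by positivity
    have e : (L * d) * ((((t + 1 : ℕ) : ℝ) + 1) * mom c (t + 1) i m)
        = (L * d) * (((t : ℝ) + 1) * mom c t i m) + (L * d) * sh (mom c t i) m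
          + (L * d) * if i = 0 then 0 else if i = 1 then -pm c (t + 1) m
            else mom c t (i - 1) m := by
      rw [mom]; push_cast; rw [show (t : ℝ) + 1 + 1 = t + 2 by ring]; field_simp
    rw [e]
    refine AddSubgroup.add_mem _ (AddSubgroup.add_mem _
      (den_mono (by omega) le_rfl (ih i hi m hm)) (den_sh hm (ih i hi))) ?_
    split_ifs with h1 h2
    · simp
    · obtain ⟨k, hk⟩ := hL (t + 2) (by omega) (by omega)
      have h3 := den_mul (-k) (den_pm c d Mx (hc 0 (by omega)) (t + 1) m hm)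
      refine den_mono (R := m + 0) le_rfl (by omega) ?_
      convert h3 using 1
      rw [hk]; push_cast; ring
    · exact den_mono le_rfl (by omega) (den_cancel (ih (i - 1) (by omega) m hm))

-- BLOCK Den
theorem mom_den
    (hdvd : ∀ (N R : ℕ) (J : Finset ℕ), J ⊆ Icc 1 N → J.card ≤ R →
      ∏ j ∈ J, j ∣ ∏ r ∈ range R, Nat.lcmUpto (N / (r + 1)))
    (c : ℕ → ℕ → ℝ) (d0 I Mx : ℕ)
    (hc : ∀ i ≤ I, ∀ m ≤ Mx, ∃ z : ℤ, (d0 : ℝ) * c i m = z) (N R t i m : ℕ) (ht : t + 2 ≤ N)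
    (hi : i ≤ I) (hm : m ≤ Mx) (hR : m + i + 1 ≤ R) :
    ∃ z : ℤ, ((d0 * DD N R : ℕ) : ℝ) * mom c t i m = z := by
  have hL : ∀ j, 1 ≤ j → j ≤ N → j ∣ Nat.lcmUpto N := fun j h1 h2 =>
    Finset.dvd_lcm (f := id) (mem_Icc.2 ⟨h1, h2⟩)
  have h := den_cancel (den_mom c d0 I Mx _ N hL hc t (by omega) i hi m hm)
  obtain ⟨z, hz⟩ := den_fin (hdvd N R) (den_mono (by omega) hR h)
  refine ⟨z, ?_⟩
  rw [← hz, DD]; push_cast; ring

end ZOdd

end

-- part Lcm
section
set_option autoImplicit false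

namespace ZOdd

open Finset

theorem lcm_count (N R q : ℕ) (hq : 0 < q) (J : Finset ℕ) (hJ : J ⊆ Icc 1 N) (hR : J.card ≤ R) :
    (J.filter fun j => q ∣ j).card ≤ ((range R).filter fun r => q ≤ N / (r + 1)).card := by
  have h1 : (J.filter fun j => q ∣ j).card ≤ R := (card_filter_le _ _).trans hR
  have h2 : (J.filter fun j => q ∣ j).card ≤ N / q := by
    rw [← Nat.Ioc_filter_dvd_card_eq_div]
    refine card_le_card (filter_subset_filter _ fun j hj => ?_)
    have := mem_Icc.1 (hJ hj)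
    exact mem_Ioc.2 ⟨this.1, this.2⟩
  generalize (J.filter fun j => q ∣ j).card = c at h1 h2
  rw [← card_range c]
  refine card_le_card fun r hr => ?_
  have hr' := mem_range.1 hr
  refine mem_filter.2 ⟨mem_range.2 (by omega), ?_⟩
  rw [Nat.le_div_iff_mul_le (Nat.succ_pos r), mul_comm, ← Nat.le_div_iff_mul_le hq]
  omega

theorem prod_dvd_DD (N R : ℕ) (J : Finset ℕ) (hJ : J ⊆ Icc 1 N) (hR : J.card ≤ R) :
    ∏ j ∈ J, j ∣ ∏ r ∈ range R, Nat.lcmUpto (N / (r + 1)) := by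
  have h0 : ∀ j ∈ J, j ≠ 0 := fun j hj => by have := (mem_Icc.1 (hJ hj)).1; omega
  rw [← Nat.factorization_prime_le_iff_dvd (prod_ne_zero_iff.2 h0)
    (prod_ne_zero_iff.2 fun r _ => Nat.lcmUpto_ne_zero _)]
  intro p hp
  rw [Nat.factorization_prod_apply h0,
    Nat.factorization_prod_apply fun r _ => Nat.lcmUpto_ne_zero _]
  calc ∑ j ∈ J, j.factorization p = ∑ j ∈ J, ∑ e ∈ Ico 1 N, if p ^ e ∣ j then 1 else 0 := by
        refine sum_congr rfl fun j hj => ?_
        have := mem_Icc.1 (hJ hj)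
        rw [Nat.factorization_eq_card_pow_dvd_of_lt (b := N) hp this.1
          (this.2.trans_lt (Nat.lt_pow_self hp.one_lt)), card_filter]
    _ = ∑ e ∈ Ico 1 N, (J.filter fun j => p ^ e ∣ j).card := by
        rw [sum_comm]; simp only [card_filter]
    _ ≤ ∑ e ∈ Ico 1 N, ((range R).filter fun r => p ^ e ≤ N / (r + 1)).card :=
        sum_le_sum fun e _ => lcm_count N R _ (pow_pos hp.pos e) J hJ hR
    _ = ∑ r ∈ range R, ((Ico 1 N).filter fun e => p ^ e ≤ N / (r + 1)).card := by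
        simp only [card_filter]; rw [sum_comm]
    _ ≤ _ := by
        refine sum_le_sum fun r _ => ?_
        rw [Nat.factorization_lcmUpto _ hp]
        refine (card_le_card (t := Icc 1 (p.log (N / (r + 1)))) fun e he => ?_).trans (by simp)
        have := mem_filter.1 he
        exact mem_Icc.2 ⟨(mem_Ico.1 this.1).1, Nat.le_log_of_pow_le hp.one_lt this.2⟩

theorem DD_pos (N R : ℕ) : 1 ≤ DD N R :=
  Nat.mul_pos (Nat.lcmUpto_pos _) (prod_pos fun _ _ => Nat.lcmUpto_pos _)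

theorem lcm_le (n : ℕ) {x : ℝ} (h : (n : ℝ) ≤ x) : (Nat.lcmUpto n : ℝ) ≤ Real.exp (6 * x) := by
  have h0 : (0 : ℝ) < Nat.lcmUpto n := Nat.cast_pos.2 (Nat.lcmUpto_pos n)
  have h1 : (0 : ℝ) ≤ n := Nat.cast_nonneg n
  rw [← Real.log_le_iff_le_exp h0, ← Chebyshev.psi_eq_log_lcmUpto]
  have h2 : Real.log 4 ≤ 2 := by
    have := Real.log_two_lt_d9
    rw [show (4 : ℝ) = 2 ^ 2 by norm_num, Real.log_pow]
    push_cast
    linarith
  calc Chebyshev.psi n ≤ (Real.log 4 + 4) * n := Chebyshev.psi_le_const_mul_self h1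
    _ ≤ 6 * n := mul_le_mul_of_nonneg_right (by linarith) h1
    _ ≤ 6 * x := by linarith

theorem DD_le (N R : ℕ) (hR : 1 ≤ R) :
    (DD N R : ℝ) ≤ Real.exp (6 * N * (2 + Real.log R)) := by
  have hN : (0 : ℝ) ≤ N := Nat.cast_nonneg N
  have h1 : ∑ r ∈ range R, ((r : ℝ) + 1)⁻¹ ≤ 1 + Real.log R := by
    have := harmonic_le_one_add_log R
    simpa [harmonic] using this
  calc (DD N R : ℝ) = Nat.lcmUpto N * ∏ r ∈ range R, (Nat.lcmUpto (N / (r + 1)) : ℝ) := by
        simp [DD]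
    _ ≤ Real.exp (6 * N) * ∏ r ∈ range R, Real.exp (6 * (N * ((r : ℝ) + 1)⁻¹)) := by
        refine mul_le_mul (lcm_le N le_rfl) (prod_le_prod (fun _ _ => Nat.cast_nonneg _)
          fun r _ => lcm_le _ ?_) (prod_nonneg fun _ _ => Nat.cast_nonneg _) (Real.exp_pos _).le
        simpa [div_eq_mul_inv] using Nat.cast_div_le (α := ℝ) (m := N) (n := r + 1)
    _ = Real.exp (6 * N * (1 + ∑ r ∈ range R, ((r : ℝ) + 1)⁻¹)) := by
        rw [← Real.exp_sum, ← Real.exp_add, ← mul_sum, ← mul_sum]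
        congr 1
        ring
    _ ≤ _ := Real.exp_le_exp.2 (mul_le_mul_of_nonneg_left (by linarith) (by positivity))

end ZOdd

end

-- part Lin
section
/-!
Size, vanishing and linearity of the moments.
-/

set_option autoImplicit false

namespace ZOdd

open Finset

theorem lin_sh_le {f : ℕ → ℝ} {C : ℝ} {Mx : ℕ} (hC : 0 ≤ C) (h : ∀ m ≤ Mx, |f m| ≤ C) (m : ℕ)
    (hm : m ≤ Mx) : |sh f m| ≤ C := by
  unfold sh
  split_ifs
  · simpa using hC
  · exact h _ (by omega)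

theorem lin_pm_size (c : ℕ → ℕ → ℝ) (C0 : ℝ) (Mx : ℕ) (hc : ∀ m ≤ Mx, |c 0 m| ≤ C0) (t : ℕ) :
    ∀ m ≤ Mx, |pm c t m| ≤ C0 := by
  have h0 : 0 ≤ C0 := (abs_nonneg _).trans (hc 0 (Nat.zero_le _))
  induction t with
  | zero => exact hc
  | succ t ih =>
    intro m hm
    have h1 := abs_le.1 (ih m hm)
    have h2 := abs_le.1 (lin_sh_le h0 ih m hm)
    have h3 : (0 : ℝ) < (t : ℝ) + 1 := by positivity
    have h4 : (0 : ℝ) < (t : ℝ) + 2 := by positivity
    have h5 := mul_le_mul_of_nonneg_left h1.1 h3.le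
    have h6 := mul_le_mul_of_nonneg_left h1.2 h3.le
    simp only [pm]
    rw [abs_div, abs_of_pos h4, div_le_iff₀ h4, abs_le]
    constructor <;> linarith

theorem mom_size (c : ℕ → ℕ → ℝ) (C0 : ℝ) (I Mx : ℕ) (hc : ∀ i ≤ I, ∀ m ≤ Mx, |c i m| ≤ C0)
    (t i m : ℕ) (hi : i ≤ I) (hm : m ≤ Mx) : |mom c t i m| ≤ 2 * C0 * (t + 2) := by
  have h0 : 0 ≤ C0 := (abs_nonneg _).trans (hc 0 (Nat.zero_le _) 0 (Nat.zero_le _))
  induction t generalizing i m with
  | zero =>
    have h1 := abs_le.1 (hc i hi m hm)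
    have h2 := abs_le.1 (hc 0 (Nat.zero_le _) m hm)
    simp only [mom]
    rw [abs_le]
    split_ifs <;> constructor <;> push_cast <;> linarith
  | succ t ih =>
    have h3 : (0 : ℝ) < (t : ℝ) + 1 := by positivity
    have h4 : (0 : ℝ) < (t : ℝ) + 2 := by positivity
    have hB : 0 ≤ 2 * C0 * ((t : ℝ) + 2) := by positivity
    have h1 := abs_le.1 (ih i m hi hm)
    have h2 := abs_le.1 (lin_sh_le hB (fun m hm => ih i m hi hm) m hm)
    have h5 := mul_le_mul_of_nonneg_left h1.1 h3.le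
    have h6 := mul_le_mul_of_nonneg_left h1.2 h3.le
    have h7 := abs_le.1 (lin_pm_size c C0 Mx (hc 0 (Nat.zero_le _)) (t + 1) m hm)
    have h8 := abs_le.1 (ih (i - 1) m (by omega) hm)
    have h9 : 0 ≤ C0 * t := by positivity
    simp only [mom]
    rw [abs_div, abs_of_pos h4, div_le_iff₀ h4, abs_le]
    split_ifs <;> constructor <;> push_cast <;> linarith

theorem lin_pm_vanish (c : ℕ → ℕ → ℝ) (g : ℕ) (hc : ∀ m, m ≤ g → c 0 m = 0) (t : ℕ) :
    ∀ m ≤ g, pm c t m = 0 := by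
  intro m hm
  simpa using lin_pm_size c 0 g (fun m hm => by rw [hc m hm, abs_zero]) t m hm

theorem mom_vanish (c : ℕ → ℕ → ℝ) (g : ℕ) (hc : ∀ i m, m + i ≤ g → c i m = 0)
    (t i m : ℕ) (h : m + i ≤ g) : mom c t i m = 0 := by
  induction t generalizing i m with
  | zero => simp [mom, hc i m h, hc 0 m (by omega)]
  | succ t ih =>
    have h1 : sh (mom c t i) m = 0 := by
      unfold sh
      split_ifs
      · rfl
      · exact ih _ _ (by omega)
    simp [mom, ih i m h, h1, ih (i - 1) m (by omega),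
      lin_pm_vanish c g (fun m hm => hc 0 m hm) (t + 1) m (by omega)]

theorem lin_sh_sum {κ : Type} (s : Finset κ) (r : κ → ℝ) (f' : κ → ℕ → ℝ) (f : ℕ → ℝ) (Mx : ℕ)
    (h : ∀ m ≤ Mx, f m = ∑ k ∈ s, r k * f' k m) (m : ℕ) (hm : m ≤ Mx) :
    sh f m = ∑ k ∈ s, r k * sh (f' k) m := by
  unfold sh
  split_ifs
  · simp
  · exact h _ (by omega)

theorem lin_pm_sum {κ : Type} (s : Finset κ) (r : κ → ℝ) (c' : κ → ℕ → ℕ → ℝ) (c : ℕ → ℕ → ℝ)
    (Mx : ℕ) (hc : ∀ m ≤ Mx, c 0 m = ∑ k ∈ s, r k * c' k 0 m) (t : ℕ) :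
    ∀ m ≤ Mx, pm c t m = ∑ k ∈ s, r k * pm (c' k) t m := by
  induction t with
  | zero => exact hc
  | succ t ih =>
    intro m hm
    simp only [pm]
    rw [ih m hm, lin_sh_sum s r _ _ Mx ih m hm, mul_sum, ← sum_add_distrib, sum_div]
    exact sum_congr rfl fun k _ => by ring

theorem mom_sum {κ : Type} (s : Finset κ) (r : κ → ℝ) (c' : κ → ℕ → ℕ → ℝ) (c : ℕ → ℕ → ℝ)
    (I Mx : ℕ) (hc : ∀ i ≤ I, ∀ m ≤ Mx, c i m = ∑ k ∈ s, r k * c' k i m) (t i m : ℕ) (hi : i ≤ I)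
    (hm : m ≤ Mx) : mom c t i m = ∑ k ∈ s, r k * mom (c' k) t i m := by
  induction t generalizing i m with
  | zero =>
    simp only [mom]
    rw [hc i hi m hm, hc 0 (Nat.zero_le _) m hm]
    split_ifs
    · rw [← sum_sub_distrib]; exact sum_congr rfl fun k _ => by ring
    · simp
  | succ t ih =>
    have h1 := lin_pm_sum s r c' c Mx (hc 0 (Nat.zero_le _)) (t + 1) m hm
    have h2 := ih (i - 1) m (by omega) hm
    have h3 := lin_sh_sum s r (fun k => mom (c' k) t i) _ Mx (fun m hm => ih i m hi hm) m hm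
    simp only [mom]
    rw [ih i m hi hm, h1, h2, h3, mul_sum, ← sum_add_distrib]
    split_ifs
    · rw [add_zero, sum_div]; exact sum_congr rfl fun k _ => by ring
    · rw [← sub_eq_add_neg, ← sum_sub_distrib, sum_div]; exact sum_congr rfl fun k _ => by ring
    · rw [← sum_add_distrib, sum_div]; exact sum_congr rfl fun k _ => by ring

end ZOdd

end

-- part Cost
section
/-!
The product of the column denominators.
-/

set_option autoImplicit false

namespace ZOdd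

open Finset

theorem cost_phi (V yy : ℕ) (hV1 : 1 ≤ V) (hyy : 1 ≤ yy) :
    ∑ v : Fin (V * yy + 1), V * yy / max (v : ℕ) V = V * yy + ∑ v ∈ Icc V (V * yy), V * yy / v := by
  have h1 : V ≤ V * yy + 1 := (Nat.le_mul_of_pos_right V hyy).trans (Nat.le_succ _)
  rw [Fin.sum_univ_eq_sum_range (fun v => V * yy / max v V), range_eq_Ico,
    ← sum_Ico_consecutive _ (Nat.zero_le V) h1]
  congr 1
  · rw [sum_congr rfl fun v hv => show V * yy / max v V = yy by
      rw [max_eq_right (mem_Ico.1 hv).2.le, Nat.mul_div_cancel_left _ hV1]]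
    simp
  · exact sum_congr rfl fun v hv => by rw [max_eq_left (mem_Icc.1 hv).1]

theorem cost_cnt (δ K a V yy : ℕ) (hV : 3 * a ≤ V) (hV1 : 1 ≤ V) (hyy : 1 ≤ yy) :
    ∑ c : (Fin δ × Fin K) × Fin (V * yy + 1), (if (c.1.2 : ℕ) < c.2 + 3 * a then
      (V * yy / max (c.2 : ℕ) V) ^ 2 else 0) ≤
      δ * (2 * (V * yy) * (V * yy + ∑ v ∈ Icc V (V * yy), V * yy / v)) := by
  rw [Fintype.sum_prod_type, Fintype.sum_prod_type]
  refine (sum_le_card_nsmul _ _ _ fun l _ => ?_).trans_eq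
    (by rw [card_univ, Fintype.card_fin, smul_eq_mul])
  rw [sum_comm, ← cost_phi V yy hV1 hyy, mul_sum]
  refine sum_le_sum fun v _ => ?_
  simp only
  rw [← sum_filter, sum_const, Fin.card_filter_val_lt, smul_eq_mul, sq, ← mul_assoc]
  refine Nat.mul_le_mul_right _ ?_
  calc min K (v + 3 * a) * (V * yy / max (v : ℕ) V)
      ≤ 2 * max (v : ℕ) V * (V * yy / max (v : ℕ) V) := Nat.mul_le_mul_right _ (by omega)
    _ ≤ 2 * (V * yy) := by
      rw [mul_assoc]; exact Nat.mul_le_mul_left _ (Nat.mul_div_le _ _)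

theorem cost_le (δ K a V yy n d0 : ℕ) (hV : 3 * a ≤ V) (hV1 : 1 ≤ V) (hyy : 1 ≤ yy) (hd : 1 ≤ d0) :
    ∏ q : (Σ c : (Fin δ × Fin K) × Fin (V * yy + 1), Fin (V * yy / max (c.2 : ℕ) V * n)),
      (((if (q.1.1.2 : ℕ) < q.1.2 + 3 * a then
        d0 * DD ((V * yy / max (q.1.2 : ℕ) V + 1) * n) (V * yy + 2 * a) else 1 : ℕ)) : ℝ)
      ≤ (d0 : ℝ) ^ (δ * K * ((V * yy + 1) * yy) * n) * Real.exp (24 * (δ : ℝ) * ((V * yy : ℕ) : ℝ)
          * ((V * yy + ∑ v ∈ Icc V (V * yy), V * yy / v : ℕ) : ℝ)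
          * (2 + Real.log ((V * yy + 2 * a : ℕ) : ℝ)) * (n : ℝ) ^ 2) := by
  have hw : V ≤ V * yy := Nat.le_mul_of_pos_right V hyy
  have hd' : (1 : ℝ) ≤ d0 := by exact_mod_cast hd
  obtain ⟨Λ, hΛ⟩ : ∃ Λ : ℝ, Λ = 2 + Real.log ((V * yy + 2 * a : ℕ) : ℝ) := ⟨_, rfl⟩
  have hΛ0 : 0 ≤ Λ := by rw [hΛ]; positivity
  rw [Fintype.prod_sigma, ← hΛ]
  have h1 : ∀ c : (Fin δ × Fin K) × Fin (V * yy + 1),
      ∏ _q : Fin (V * yy / max (c.2 : ℕ) V * n), (((if (c.1.2 : ℕ) < c.2 + 3 * a then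
        d0 * DD ((V * yy / max (c.2 : ℕ) V + 1) * n) (V * yy + 2 * a) else 1 : ℕ)) : ℝ) ≤
      (d0 : ℝ) ^ (yy * n) * Real.exp (((if (c.1.2 : ℕ) < c.2 + 3 * a then
        (V * yy / max (c.2 : ℕ) V) ^ 2 else 0 : ℕ) : ℝ) * (12 * Λ * (n : ℝ) ^ 2)) := by
    intro c
    have h2 : V * yy / max (c.2 : ℕ) V ≤ yy :=
      Nat.div_le_of_le_mul (Nat.mul_le_mul_right _ (le_max_right _ _))
    have h3 : 1 ≤ V * yy / max (c.2 : ℕ) V :=
      (Nat.le_div_iff_mul_le (by omega)).2 (by have := c.2.2; omega)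
    rw [prod_const, card_univ, Fintype.card_fin]
    generalize V * yy / max (c.2 : ℕ) V = f at h2 h3 ⊢
    split_ifs
    · have h4 := DD_le ((f + 1) * n) (V * yy + 2 * a) (by omega)
      have h5 : (1 : ℝ) ≤ f := by exact_mod_cast h3
      rw [← hΛ] at h4
      rw [Nat.cast_mul, mul_pow]
      refine mul_le_mul (pow_le_pow_right₀ hd' (Nat.mul_le_mul_right _ h2))
        ((pow_le_pow_left₀ (Nat.cast_nonneg _) h4 _).trans ?_) (by positivity) (by positivity)
      rw [← Real.exp_nat_mul]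
      refine Real.exp_le_exp.2 ?_
      push_cast
      calc (f : ℝ) * n * (6 * ((f + 1) * n) * Λ) ≤ f * n * (6 * ((f + f) * n) * Λ) := by gcongr
        _ = _ := by ring
    · simpa using one_le_pow₀ hd'
  refine (prod_le_prod (fun c _ => by positivity) fun c _ => h1 c).trans ?_
  rw [prod_mul_distrib, prod_const, ← Real.exp_sum, ← sum_mul, ← Nat.cast_sum, ← pow_mul, card_univ,
    Fintype.card_prod, Fintype.card_prod, Fintype.card_fin, Fintype.card_fin, Fintype.card_fin]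
  refine mul_le_mul (le_of_eq (by congr 1; ring)) (Real.exp_le_exp.2 ?_) (by positivity)
    (by positivity)
  refine (mul_le_mul_of_nonneg_right (Nat.cast_le.2 (cost_cnt δ K a V yy hV hV1 hyy))
    (by positivity)).trans_eq ?_
  rw [Nat.cast_mul, Nat.cast_mul, Nat.cast_mul, Nat.cast_ofNat]
  ring

end ZOdd

end

-- part Det
section
/-!
A determinant inequality for a matrix with column denominators which is small on a subspace transversal to its kernel.
-/

set_option autoImplicit false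

namespace ZOdd

open Finset
open scoped RealInnerProductSpace

theorem det_abs_le_cols {r : ℕ} (N : Matrix (Fin r) (Fin r) ℝ) (c : Fin r → ℝ)
    (h : ∀ i k, |N i k| ≤ c k) : |N.det| ≤ (r : ℝ) ^ r * ∏ k, c k := by
  rw [Matrix.det_apply']
  refine (abs_sum_le_sum_abs _ _).trans ?_
  have h1 : ∀ σ : Equiv.Perm (Fin r), |((Equiv.Perm.sign σ : ℤ) : ℝ) * ∏ k, N (σ k) k|
      ≤ ∏ k, c k := by
    intro σ
    have h2 : |((Equiv.Perm.sign σ : ℤ) : ℝ)| = 1 := by
      rcases Int.units_eq_one_or (Equiv.Perm.sign σ) with h | h <;> simp [h]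
    rw [abs_mul, h2, one_mul, abs_prod]
    exact prod_le_prod (fun k _ => abs_nonneg _) fun k _ => h _ _
  refine (sum_le_card_nsmul _ _ _ fun σ _ => h1 σ).trans ?_
  rw [card_univ, Fintype.card_perm, Fintype.card_fin, nsmul_eq_mul]
  refine mul_le_mul_of_nonneg_right ?_ ((abs_nonneg _).trans (h1 1))
  exact_mod_cast Nat.factorial_le_pow r

theorem det_scaled {α β : Type} [Fintype β] [Nonempty β] (M : α → β → ℝ) (D : β → ℕ)
    (hD : ∀ q, 1 ≤ D q) (hM : ∀ i q, ∃ z : ℤ, (D q : ℝ) * M i q = z) (E : ℝ) (hE : 1 ≤ E)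
    (ha : ∀ i q, |M i q| ≤ E) {γ : Type} [Fintype γ] (H : Submodule ℝ (γ → ℝ))
    (J : (γ → ℝ) →ₗ[ℝ] (β → ℝ)) (m : ℕ) (hm : m ≤ Module.finrank ℝ H) (ρ κ : ℝ) (hρ : 0 ≤ ρ)
    (hκ : 0 ≤ κ) (hsmall : ∀ y ∈ H, ∀ i, |∑ q, M i q * J y q| ≤ ρ * ‖y‖)
    (htrans : ∀ y ∈ H, ∀ z : β → ℝ, (∀ i, ∑ q, M i q * z q = 0) → ‖y‖ ≤ κ * ‖J y - z‖) :
    1 ≤ (∏ q, (D q : ℝ)) * ((Fintype.card β : ℝ) ^ 3 * E) ^ Fintype.card β * (ρ * κ) ^ m := by
  classical
  let A : α → EuclideanSpace ℝ β := fun i => WithLp.toLp 2 fun q => M i q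
  have hA : ∀ i (x : EuclideanSpace ℝ β), ⟪A i, x⟫ = ∑ q, M i q * x q := by
    intro i x
    simp [A, PiLp.inner_apply, mul_comm]
  let P : Submodule ℝ (EuclideanSpace ℝ β) := Submodule.span ℝ (Set.range A)
  have hAP : ∀ i, A i ∈ P := fun i => Submodule.subset_span ⟨i, rfl⟩
  obtain ⟨ι, s, -, hsp, hli⟩ := exists_linearIndependent' ℝ A
  have : Finite ι := hli.finite
  let _ : Fintype ι := Fintype.ofFinite ι
  obtain ⟨r, hr⟩ : ∃ r, r = Module.finrank ℝ P := ⟨_, rfl⟩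
  have hcard : Fintype.card ι = r := by rw [← finrank_span_eq_card hli, hsp, hr]
  have hrβ : r ≤ Fintype.card β := by
    rw [hr]
    exact (Submodule.finrank_le P).trans (by simp)
  let e : Fin r ≃ ι := (Fintype.equivFinOfCardEq hcard).symm
  have hli' : LinearIndependent ℝ fun i : Fin r => A (s (e i)) := hli.comp e e.injective
  let π : (γ → ℝ) →ₗ[ℝ] P := (P.orthogonalProjectionOnto : EuclideanSpace ℝ β →ₗ[ℝ] P) ∘ₗ
    (WithLp.linearEquiv 2 ℝ (β → ℝ)).symm.toLinearMap ∘ₗ J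
  have hπ : ∀ y i, ⟪A i, (π y : EuclideanSpace ℝ β)⟫ = ∑ q, M i q * J y q := by
    intro y i
    have h1 := P.starProjection_inner_eq_zero (WithLp.toLp 2 (J y)) _ (hAP i)
    rw [real_inner_comm, inner_sub_right, sub_eq_zero, hA] at h1
    exact h1.symm
  have hπn : ∀ y ∈ H, ‖y‖ ≤ κ * ‖π y‖ := by
    intro y hy
    have h1 := htrans y hy (J y - (π y : EuclideanSpace ℝ β).ofLp) (fun i => by
      simp only [Pi.sub_apply, mul_sub, sum_sub_distrib]
      rw [← hπ, hA, sub_self])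
    rw [sub_sub_cancel] at h1
    refine h1.trans (mul_le_mul_of_nonneg_left ?_ hκ)
    exact (pi_norm_le_iff_of_nonneg (norm_nonneg _)).2 fun q => PiLp.norm_apply_le _ q
  have hfin : Module.finrank ℝ (H.map π) = Module.finrank ℝ H := by
    rw [← LinearMap.range_domRestrict]
    refine LinearMap.finrank_range_of_inj ?_
    rw [← LinearMap.ker_eq_bot, LinearMap.ker_eq_bot']
    intro y hy
    have h1 := hπn y y.2
    rw [show π y = 0 from hy, norm_zero, mul_zero] at h1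
    exact Subtype.ext (norm_le_zero_iff.1 h1)
  let o := stdOrthonormalBasis ℝ (H.map π)
  let v : Fin r → P := fun k => if h : (k : ℕ) < m then (o ⟨k, by omega⟩ : P) else 0
  obtain ⟨b, hb⟩ := Orthonormal.exists_orthonormalBasis_extension_of_card_eq (𝕜 := ℝ) (E := P)
    (ι := Fin r) (by simp [hr]) (v := v) (s := {k | (k : ℕ) < m}) (by
      have h1 : Orthonormal ℝ fun k => (o k : P) := o.orthonormal.comp_linearIsometry
        (H.map π).subtypeₗᵢ
      have h2 := h1.comp (fun k : {k : Fin r | (k : ℕ) < m} =>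
          ⟨k.1, lt_of_lt_of_le (show (k.1 : ℕ) < m from k.2) (hm.trans hfin.ge)⟩)
        (fun k k' h => Subtype.ext (Fin.ext (by simpa using h)))
      have h3 : Set.domRestrict {k : Fin r | (k : ℕ) < m} v = (fun k => (o k : P)) ∘
          (fun k : {k : Fin r | (k : ℕ) < m} =>
          ⟨k.1, lt_of_lt_of_le (show (k.1 : ℕ) < m from k.2) (hm.trans hfin.ge)⟩) := by
        funext k
        have : (k.1 : ℕ) < m := k.2
        simp [v, this]
      rw [h3]
      exact h2)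
  have hmr : m ≤ r := by
    have := Submodule.finrank_le (H.map π)
    omega
  let N : Matrix (Fin r) (Fin r) ℝ := Matrix.of fun i k => ⟪A (s (e i)), (b k : EuclideanSpace ℝ β)⟫
  have hbq : ∀ k q, |(b k : EuclideanSpace ℝ β) q| ≤ 1 := fun k q => by
    have := PiLp.norm_apply_le (b k : EuclideanSpace ℝ β) q
    rw [show ‖(b k : EuclideanSpace ℝ β)‖ = 1 from b.orthonormal.1 k] at this
    exact this
  let R : Matrix (Fin r) β ℝ := Matrix.of fun i q => M (s (e i)) q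
  have hRl : LinearIndependent ℝ R.row :=
    LinearIndependent.of_comp (WithLp.linearEquiv 2 ℝ (β → ℝ)).symm.toLinearMap hli'
  obtain ⟨ι', t, ht, hsp', hlc⟩ := exists_linearIndependent' ℝ R.col
  have : Finite ι' := hlc.finite
  let _ : Fintype ι' := Fintype.ofFinite ι'
  have hcard' : Fintype.card ι' = r := by
    rw [← finrank_span_eq_card hlc, hsp', ← Matrix.rank_eq_finrank_span_cols, hRl.rank_matrix,
      Fintype.card_fin]
  let e' : Fin r ≃ ι' := (Fintype.equivFinOfCardEq hcard').symm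
  let Q : Matrix (Fin r) (Fin r) ℝ := Matrix.of fun i j => M (s (e i)) (t (e' j))
  have hQ : Q.det ≠ 0 := by
    have h1 : LinearIndependent ℝ Q.col := hlc.comp e' e'.injective
    exact ((Matrix.isUnit_iff_isUnit_det Q).1
      (Matrix.linearIndependent_cols_iff_isUnit.1 h1)).ne_zero
  let B : Matrix (Fin r) (Fin r) ℝ := Matrix.of fun k j => (b k : EuclideanSpace ℝ β) (t (e' j))
  have hQB : Q = N * B := by
    ext i j
    have h1 := congrArg (fun w : P => (w : EuclideanSpace ℝ β) (t (e' j)))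
      (b.sum_repr' ⟨_, hAP (s (e i))⟩)
    simp only [Submodule.coe_inner, Submodule.coe_sum, Submodule.coe_smul, WithLp.ofLp_sum,
      WithLp.ofLp_smul, Finset.sum_apply, Pi.smul_apply, smul_eq_mul] at h1
    simp only [Matrix.mul_apply, N, B, Q, Matrix.of_apply]
    refine h1.symm.trans (sum_congr rfl fun k _ => ?_)
    rw [real_inner_comm]
  have hB := det_abs_le_cols B (fun _ => 1) fun k j => hbq k _
  rw [prod_const_one, mul_one] at hB
  choose Z hZ using hM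
  have h1 : (1 : ℝ) ≤ (∏ q, (D q : ℝ)) * (|N.det| * (r : ℝ) ^ r) := by
    let Y : Matrix (Fin r) (Fin r) ℤ := Matrix.of fun i j => Z (s (e i)) (t (e' j))
    have h2 : ((Y.det : ℤ) : ℝ) = (∏ j, (D (t (e' j)) : ℝ)) * Q.det := by
      have := (Int.castRingHom ℝ).map_det Y
      rw [← Matrix.det_mul_row]
      refine this.trans (congrArg Matrix.det ?_)
      ext i j
      exact (hZ _ _).symm
    have hp : (0 : ℝ) < ∏ j, (D (t (e' j)) : ℝ) :=
      prod_pos fun j _ => by exact_mod_cast hD _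
    have h3 : Y.det ≠ 0 := by
      intro h0
      rw [h0, Int.cast_zero] at h2
      exact mul_ne_zero hp.ne' hQ h2.symm
    have h4 : (1 : ℝ) ≤ |((Y.det : ℤ) : ℝ)| := by exact_mod_cast Int.one_le_abs h3
    have h5 : (∏ j, (D (t (e' j)) : ℝ)) ≤ ∏ q, (D q : ℝ) := by
      have h6 : ∏ j, D (t (e' j)) ≤ ∏ q, D q := by
        rw [← prod_image (s := univ) (g := fun j => t (e' j)) (f := D)
          fun _ _ _ _ h => e'.injective (ht h)]
        exact prod_le_prod_of_subset_of_one_le' (subset_univ _) fun q _ _ => hD q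
      exact_mod_cast h6
    rw [h2, abs_mul, abs_of_pos hp, hQB, Matrix.det_mul, abs_mul] at h4
    refine h4.trans ?_
    gcongr
  have hβ : (1 : ℝ) ≤ Fintype.card β := by exact_mod_cast Fintype.card_pos
  have h2 := det_abs_le_cols N
    (fun k => (Fintype.card β * E) * if (k : ℕ) < m then ρ * κ else 1) (by
      intro i k
      simp only [N, Matrix.of_apply]
      split_ifs with hk
      · obtain ⟨y, hy, hy'⟩ := (o ⟨k, by omega⟩).2
        have h3 : b k = π y := by rw [hb k hk, hy']; simp [v, hk]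
        have h4 := hπn y hy
        rw [← h3, b.orthonormal.1 k, mul_one] at h4
        rw [h3, hπ]
        refine (hsmall y hy _).trans ?_
        calc ρ * ‖y‖ ≤ ρ * κ := by gcongr
          _ = 1 * 1 * (ρ * κ) := by ring
          _ ≤ _ := by gcongr
      · rw [hA, mul_one]
        refine (abs_sum_le_sum_abs _ _).trans ?_
        refine (sum_le_card_nsmul _ _ E fun q _ => ?_).trans (by simp)
        rw [abs_mul]
        have h3 := hbq k q
        calc _ ≤ E * 1 := by gcongr; exact ha _ _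
          _ = E := mul_one E)
  rw [prod_mul_distrib, prod_const, card_univ, Fintype.card_fin, prod_ite, prod_const, prod_const,
    one_pow, mul_one, Fin.card_filter_val_lt, min_eq_right hmr, ← mul_assoc, ← mul_pow] at h2
  have h5 : (r : ℝ) ≤ Fintype.card β := by exact_mod_cast hrβ
  have h6 : ((r : ℝ) * (Fintype.card β * E) * r) ^ r ≤
      ((Fintype.card β : ℝ) ^ 3 * E) ^ Fintype.card β := by
    calc _ ≤ ((Fintype.card β : ℝ) * (Fintype.card β * E) * Fintype.card β) ^ r := by gcongr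
      _ = ((Fintype.card β : ℝ) ^ 3 * E) ^ r := by congr 1; ring
      _ ≤ _ := pow_le_pow_right₀ (one_le_mul_of_one_le_of_one_le (one_le_pow₀ hβ) hE) hrβ
  refine h1.trans ?_
  rw [mul_assoc]
  refine mul_le_mul_of_nonneg_left ?_ (by positivity)
  calc |N.det| * (r : ℝ) ^ r ≤ (r * (Fintype.card β * E)) ^ r * (ρ * κ) ^ m * (r : ℝ) ^ r := by
        gcongr
    _ = ((r : ℝ) * (Fintype.card β * E) * r) ^ r * (ρ * κ) ^ m := by rw [mul_pow _ (r : ℝ)]; ring
    _ ≤ _ := by gcongr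

end ZOdd

end

-- part Asym
section
set_option autoImplicit false

namespace ZOdd

open Finset

-- BLOCK Asym
theorem asym (C g : ℝ) (k n1 : ℕ) (hC : 1 ≤ C)
    (h : ∀ n : ℕ, n1 ≤ n → 1 ≤ n → 1 ≤ (C * n) ^ (k * n) * Real.exp (g * (n : ℝ) ^ 2)) : 0 ≤ g := by
  by_contra hg
  have hg : 0 < -g := by linarith
  obtain ⟨m, hm⟩ := exists_nat_gt (4 * (k : ℝ) ^ 2 * C / (-g) ^ 2)
  obtain ⟨n, h1, h2, h3⟩ : ∃ n : ℕ, n1 ≤ n ∧ 1 ≤ n ∧ m ≤ n := ⟨n1 + 1 + m, by omega, by omega, by omega⟩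
  have hn : (1 : ℝ) ≤ n := by exact_mod_cast h2
  have hmn : (m : ℝ) ≤ n := by exact_mod_cast h3
  have hx : 0 < C * n := by positivity
  have hs : 0 < √(C * n) := Real.sqrt_pos.2 hx
  have hl : Real.log (C * n) ≤ 2 * √(C * n) := by
    have := Real.log_le_sub_one_of_pos hs
    rw [Real.log_sqrt hx.le] at this
    linarith
  have h4 := Real.log_nonneg (h n h1 h2)
  rw [Real.log_mul (by positivity) (by positivity), Real.log_pow, Real.log_exp] at h4
  push_cast at h4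
  have h5 : -g * n ≤ k * (2 * √(C * n)) := by
    have h6 : (k : ℝ) * n * Real.log (C * n) ≤ k * n * (2 * √(C * n)) :=
      mul_le_mul_of_nonneg_left hl (by positivity)
    refine le_of_mul_le_mul_left (a := (n : ℝ)) ?_ (by positivity)
    nlinarith
  have h7 : (-g * n) ^ 2 ≤ (k * (2 * √(C * n))) ^ 2 := pow_le_pow_left₀ (by positivity) h5 2
  rw [mul_pow (k : ℝ), mul_pow 2, Real.sq_sqrt hx.le, mul_pow] at h7
  rw [div_lt_iff₀ (by positivity)] at hm
  have h8 : (m : ℝ) * (-g) ^ 2 ≤ n * (-g) ^ 2 := mul_le_mul_of_nonneg_right hmn (by positivity)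
  nlinarith

end ZOdd

end

-- part Param
section
/-!
The choice of the parameters.
-/

set_option autoImplicit false

namespace ZOdd

open Finset

theorem param_sum (V w : ℕ) (hV : 1 ≤ V) (d : ℕ) :
    (w : ℝ) * (Real.log (V + d : ℕ) - Real.log V) - d ≤ ((∑ v ∈ Ico V (V + d), w / v : ℕ) : ℝ) := by
  induction d with
  | zero => simp
  | succ d ih =>
    rw [← add_assoc, sum_Ico_succ_top (by omega)]
    have h0 : (0 : ℝ) < ((V + d : ℕ) : ℝ) := by exact_mod_cast (by omega : 0 < V + d)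
    have h1 : Real.log ((V + d + 1 : ℕ) : ℝ) - Real.log ((V + d : ℕ) : ℝ) ≤ 1 / ((V + d : ℕ) : ℝ) := by
      rw [← Real.log_div (by positivity) h0.ne']
      refine (Real.log_le_sub_one_of_pos (by positivity)).trans (le_of_eq ?_)
      rw [Nat.cast_succ]
      field_simp
      ring
    have h2 : (w : ℝ) * (1 / ((V + d : ℕ) : ℝ)) ≤ ((w / (V + d) : ℕ) : ℝ) + 1 := by
      rw [mul_one_div, div_le_iff₀ h0]
      have := Nat.lt_mul_div_succ w (show 0 < V + d by omega)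
      rw [mul_comm] at this
      exact_mod_cast this.le
    have h3 := mul_le_mul_of_nonneg_left h1 (Nat.cast_nonneg (α := ℝ) w)
    rw [Nat.cast_add (∑ v ∈ Ico V (V + d), w / v), Nat.cast_succ d]
    linarith

theorem param (hpos : ∀ s, 1 ≤ Module.finrank ℚ (Lam s))
    (core : ∀ a V yy r0 s : ℕ, 2 ≤ a → 3 * a ≤ V → 1 ≤ yy → V * yy + 2 * a ≤ s → 2 * yy + 12 ≤ r0 →
      2 * (a * r0) ≤ ∑ v ∈ Icc V (V * yy), V * yy / v →
      Module.finrank ℚ (Lam s) * (V * yy + 3 * a) * ((V * yy + 1) * yy) < a * (a * (a - 1)) →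
      ((a * r0 : ℕ) : ℝ) ^ 2 * (Real.log ((r0 : ℝ) / (yy + 1)) - 50)
        ≤ 24 * (Module.finrank ℚ (Lam s) : ℝ) * ((V * yy : ℕ) : ℝ)
          * ((V * yy + ∑ v ∈ Icc V (V * yy), V * yy / v : ℕ) : ℝ)
          * (2 + Real.log ((V * yy + 2 * a : ℕ) : ℝ))) :
    ∃ C : ℝ, ∃ x0 : ℕ, ∀ x : ℕ, x0 ≤ x →
      Real.log x ≤ C * Module.finrank ℚ (Lam (2 * x ^ 8)) := by
  refine ⟨10000, ⌈Real.exp 110⌉₊, fun x hx => ?_⟩
  have hxe : Real.exp 110 ≤ x := Nat.ceil_le.1 hx
  have hx0 : (0 : ℝ) < x := (Real.exp_pos _).trans_le hxe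
  have hL : 110 ≤ Real.log x := (Real.le_log_iff_exp_le hx0).2 hxe
  have hLx : Real.log x ≤ x := (Real.log_le_sub_one_of_pos hx0).trans (by linarith)
  have hx1 : 100 ≤ x := by exact_mod_cast (show (100 : ℝ) ≤ x by linarith)
  have hδ := hpos (2 * x ^ 8)
  have hc := core (x ^ 6) (x ^ 6 * x) x ((∑ v ∈ Icc (x ^ 6 * x) (x ^ 6 * x * x),
    x ^ 6 * x * x / v) / (2 * x ^ 6)) (2 * x ^ 8)
  have hs := param_sum (x ^ 6 * x) (x ^ 6 * x * x) (Nat.mul_pos (by positivity) (by omega))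
    (x ^ 6 * x * x - x ^ 6 * x)
  have ha : 100 ≤ x ^ 6 := hx1.trans (Nat.le_self_pow (by norm_num) x)
  have h8 : x ^ 8 = x ^ 6 * x * x := by ring
  have hcnt : ∀ δ : ℕ, 8 * δ < x →
      δ * (x ^ 6 * x * x + 3 * x ^ 6) * ((x ^ 6 * x * x + 1) * x) < x ^ 6 * (x ^ 6 * (x ^ 6 - 1)) := by
    intro δ h
    have h1 : x ^ 6 * x * x + 3 * x ^ 6 ≤ 2 * x ^ 8 := by rw [h8]; nlinarith [Nat.mul_le_mul hx1 hx1]
    have h2 : x ^ 6 * x * x + 1 ≤ 2 * x ^ 8 := by omega
    have h3 : x ^ 6 ≤ 2 * (x ^ 6 - 1) := by omega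
    have h4 : 2 * (δ * (2 * x ^ 8) * (2 * x ^ 8 * x)) < x ^ 6 * (x ^ 6 * x ^ 6) := by
      calc _ = 8 * δ * x ^ 17 := by ring
        _ < x * x ^ 17 := Nat.mul_lt_mul_of_pos_right h (by positivity)
        _ = _ := by ring
    have h5 : x ^ 6 * (x ^ 6 * x ^ 6) ≤ x ^ 6 * (x ^ 6 * (2 * (x ^ 6 - 1))) := by gcongr
    have h6 : δ * (x ^ 6 * x * x + 3 * x ^ 6) * ((x ^ 6 * x * x + 1) * x)
        ≤ δ * (2 * x ^ 8) * (2 * x ^ 8 * x) := by gcongr
    have h7 : x ^ 6 * (x ^ 6 * (2 * (x ^ 6 - 1))) = 2 * (x ^ 6 * (x ^ 6 * (x ^ 6 - 1))) := by ring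
    omega
  have hlog : Real.log ((x ^ 6 * x * x + 2 * x ^ 6 : ℕ) : ℝ) ≤ 9 * Real.log x := by
    have h1 : x ^ 6 * x * x + 2 * x ^ 6 ≤ x ^ 9 := by
      have : x ^ 9 = x ^ 6 * x * x * x := by ring
      nlinarith [Nat.mul_le_mul hx1 hx1, Nat.mul_le_mul_left (x ^ 6 * x * x) hx1]
    have h2 : Real.log ((x : ℝ) ^ 9) = 9 * Real.log x := by rw [Real.log_pow]; norm_num
    rw [← h2]
    exact Real.log_le_log (by positivity) (by exact_mod_cast h1)
  generalize Module.finrank ℚ (Lam (2 * x ^ 8)) = δ at hδ hc ⊢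
  have hδ' : (1 : ℝ) ≤ δ := by exact_mod_cast hδ
  by_cases hbig : 8 * δ < x
  swap
  · have : (x : ℝ) ≤ 8 * δ := by exact_mod_cast not_lt.1 hbig
    linarith
  have hc' := fun h1 h2 h3 h4 h5 h6 => hc h1 h2 h3 h4 h5 h6 (hcnt δ hbig)
  rw [h8] at hc'
  clear hc hcnt h8
  generalize x ^ 6 = a at *
  have hVw : a * x ≤ a * x * x := Nat.le_mul_of_pos_right _ (by omega)
  have haV : 100 * a ≤ a * x := by rw [mul_comm]; exact Nat.mul_le_mul_left a hx1
  rw [Nat.add_sub_cancel' hVw] at hs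
  have hsub : ∑ v ∈ Ico (a * x) (a * x * x), a * x * x / v
      ≤ ∑ v ∈ Icc (a * x) (a * x * x), a * x * x / v := sum_le_sum_of_subset Ico_subset_Icc_self
  generalize ∑ v ∈ Icc (a * x) (a * x * x), a * x * x / v = s0 at *
  have ha0 : (0 : ℝ) < a := by exact_mod_cast (by omega : 0 < a)
  have hw : ((a * x * x : ℕ) : ℝ) * (Real.log x - 1) ≤ s0 := by
    have h1 : Real.log ((a * x * x : ℕ) : ℝ) - Real.log ((a * x : ℕ) : ℝ) = Real.log x := by
      rw [Nat.cast_mul (a * x), Real.log_mul (by positivity) hx0.ne']; ring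
    have h2 : ((a * x * x - a * x : ℕ) : ℝ) ≤ ((a * x * x : ℕ) : ℝ) := by exact_mod_cast Nat.sub_le _ _
    have h3 : ((∑ v ∈ Ico (a * x) (a * x * x), a * x * x / v : ℕ) : ℝ) ≤ s0 := by exact_mod_cast hsub
    rw [h1] at hs
    linarith
  have hw0 : (0 : ℝ) < ((a * x * x : ℕ) : ℝ) := by positivity
  have hws : 100 * (a * x * x) ≤ s0 := by
    have : 100 * ((a * x * x : ℕ) : ℝ) ≤ s0 := by nlinarith
    exact_mod_cast this
  have hr1 : 50 * (x * x) ≤ s0 / (2 * a) := (Nat.le_div_iff_mul_le (by omega)).2 (by nlinarith)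
  have hr2 := Nat.lt_mul_div_succ s0 (show 0 < 2 * a by omega)
  have hr3 := Nat.mul_div_le s0 (2 * a)
  generalize s0 / (2 * a) = r0 at *
  have hxx : 100 * x ≤ x * x := Nat.mul_le_mul_right x hx1
  have h1 := hc' (by omega) (by omega) (by omega) (by omega) (by omega) (by rw [← mul_assoc]; omega)
  have h2 : s0 ≤ 3 * (a * r0) := by
    rw [mul_add, mul_assoc] at hr2
    omega
  have h3 : Real.log x ≤ Real.log ((r0 : ℝ) / (x + 1)) := by
    refine Real.log_le_log hx0 ?_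
    rw [le_div_iff₀ (by positivity)]
    have : x * (x + 1) ≤ r0 := by rw [mul_add]; omega
    exact_mod_cast this
  have h4 : (s0 : ℝ) ≤ 3 * ((a * r0 : ℕ) : ℝ) := by exact_mod_cast h2
  have h5 : ((a * x * x + s0 : ℕ) : ℝ) ≤ 2 * s0 := by exact_mod_cast (by omega)
  have hs0 : (0 : ℝ) < s0 := by exact_mod_cast (by omega)
  generalize ((a * x * x : ℕ) : ℝ) = w at *
  generalize ((a * r0 : ℕ) : ℝ) = t at *
  generalize Real.log x = L at *
  have h6 : (s0 / 3 : ℝ) ^ 2 * (L / 2) ≤ 24 * δ * w * (2 * s0) * (10 * L) := by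
    refine le_trans ?_ (h1.trans ?_)
    · exact mul_le_mul (pow_le_pow_left₀ (by positivity) (by linarith) 2) (by linarith)
        (by linarith) (by positivity)
    · have : 0 ≤ 2 + Real.log ((a * x * x + 2 * a : ℕ) : ℝ) := by
        have := Real.log_natCast_nonneg (a * x * x + 2 * a)
        linarith
      gcongr
      linarith
  have h7 : (s0 : ℝ) ≤ 8640 * δ * w := by
    have hL0 : 0 < (s0 : ℝ) * L := by positivity
    refine le_of_mul_le_mul_right ?_ hL0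
    linarith
  have h8 : L - 1 ≤ 8640 * δ := by
    refine le_of_mul_le_mul_left ?_ hw0
    linarith
  linarith

end ZOdd

end

-- part Bridge
section
set_option autoImplicit false

namespace ZOdd

open Finset

theorem bridge_zr (j : ℕ) (hj : 2 ≤ j) : ((zr j : ℝ) : ℂ) = riemannZeta (j : ℂ) := by
  have h1 : 1 < (j : ℂ).re := by
    rw [Complex.natCast_re]; exact_mod_cast hj
  rw [zeta_eq_tsum_one_div_nat_add_one_cpow h1, zr, Complex.ofReal_tsum]
  refine tsum_congr fun n => ?_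
  rw [Complex.cpow_natCast]
  push_cast
  rfl

/-- The span in the statement. -/
noncomputable def bridgeV (k : ℕ) : Submodule ℚ ℂ :=
  Submodule.span ℚ {x : ℂ | ∃ r : ℕ, 2 * r + 3 ≤ k ∧
    x = riemannZeta 2 ^ r * riemannZeta ((k - 2 * r : ℕ) : ℂ)}

theorem bridge_fin (k : ℕ) : Module.Finite ℚ (bridgeV k) := by
  refine Module.Finite.span_of_finite ℚ ?_
  refine ((Set.finite_Iic k).image
    (fun r : ℕ => riemannZeta 2 ^ r * riemannZeta ((k - 2 * r : ℕ) : ℂ))).subset ?_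
  rintro x ⟨r, hr, rfl⟩
  exact ⟨r, by simp only [Set.mem_Iic]; omega, rfl⟩

theorem bridge_one (k : ℕ) (hk : 3 ≤ k) : 1 ≤ Module.finrank ℚ (bridgeV k) := by
  haveI := bridge_fin k
  rw [Nat.one_le_iff_ne_zero, Ne, Submodule.finrank_eq_zero]
  intro h
  have hm : riemannZeta 2 ^ 0 * riemannZeta ((k - 2 * 0 : ℕ) : ℂ) ∈ bridgeV k :=
    Submodule.subset_span ⟨0, by omega, rfl⟩
  rw [h, Submodule.mem_bot, pow_zero, one_mul] at hm
  refine riemannZeta_ne_zero_of_one_lt_re ?_ hm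
  rw [Complex.natCast_re]
  exact_mod_cast (by omega : 1 < k - 2 * 0)

/-- Multiplication by a power of pi. -/
noncomputable def bridgeM (k : ℕ) : ℝ →ₗ[ℚ] ℂ where
  toFun x := (Real.pi : ℂ) ^ k * (x : ℂ)
  map_add' x y := by push_cast; ring
  map_smul' q x := by
    simp only [Rat.smul_def, RingHom.id_apply]
    push_cast; ring

theorem bridge_inj (k : ℕ) : Function.Injective (bridgeM k) := by
  intro x y h
  have hp : (Real.pi : ℂ) ^ k ≠ 0 := pow_ne_zero _ (by exact_mod_cast Real.pi_ne_zero)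
  have h2 : (Real.pi : ℂ) ^ k * (x : ℂ) = (Real.pi : ℂ) ^ k * (y : ℂ) := h
  exact_mod_cast mul_left_cancel₀ hp h2

theorem bridge_le (s k : ℕ) (hs : s ≤ k) (hk : Odd k) :
    Module.finrank ℚ (Lam s) ≤ 1 + Module.finrank ℚ (bridgeV k) := by
  haveI := bridge_fin k
  have hpi : (Real.pi : ℂ) ≠ 0 := by exact_mod_cast Real.pi_ne_zero
  have hmap : (Lam s).map (bridgeM k) ≤ Submodule.span ℚ {(Real.pi : ℂ) ^ k} ⊔ bridgeV k := by
    rw [Lam, Submodule.map_span_le]
    rintro x (rfl | ⟨j, hj2, hjs, rfl⟩)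
    · refine Submodule.mem_sup_left (Submodule.subset_span ?_)
      show (Real.pi : ℂ) ^ k * ((1 : ℝ) : ℂ) ∈ _
      simp
    · have hx : bridgeM k (zr j / Real.pi ^ j)
          = (Real.pi : ℂ) ^ k * (riemannZeta (j : ℂ) / (Real.pi : ℂ) ^ j) := by
        show (Real.pi : ℂ) ^ k * ((zr j / Real.pi ^ j : ℝ) : ℂ) = _
        rw [Complex.ofReal_div, bridge_zr j hj2, Complex.ofReal_pow]
      rw [hx]
      rcases Nat.even_or_odd' j with ⟨i, rfl | rfl⟩
      · refine Submodule.mem_sup_left (Submodule.mem_span_singleton.2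
          ⟨(-1) ^ (i + 1) * 2 ^ (2 * i - 1) * bernoulli (2 * i) / ((2 * i).factorial : ℚ), ?_⟩)
        have h := riemannZeta_two_mul_nat (k := i) (by omega)
        rw [Nat.cast_mul, Nat.cast_two, h, Rat.smul_def]
        push_cast
        field_simp
      · obtain ⟨l, rfl⟩ := hk
        obtain ⟨r, rfl⟩ : ∃ r, l = i + r := ⟨l - i, by omega⟩
        have hm : riemannZeta 2 ^ r * riemannZeta ((2 * (i + r) + 1 - 2 * r : ℕ) : ℂ)
            ∈ bridgeV (2 * (i + r) + 1) := Submodule.subset_span ⟨r, by omega, rfl⟩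
        rw [show 2 * (i + r) + 1 - 2 * r = 2 * i + 1 by omega] at hm
        refine Submodule.mem_sup_right ?_
        have h6 := Submodule.smul_mem _ ((6 : ℚ) ^ r) hm
        convert h6 using 1
        rw [riemannZeta_two, Rat.smul_def, div_pow, ← pow_mul,
          show 2 * (i + r) + 1 = 2 * i + 1 + 2 * r by ring, pow_add]
        push_cast
        field_simp
  haveI : Module.Finite ℚ (Submodule.span ℚ {(Real.pi : ℂ) ^ k}) :=
    Module.Finite.span_of_finite ℚ (Set.finite_singleton _)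
  rw [(Submodule.equivMapOfInjective _ (bridge_inj k) (Lam s)).finrank_eq]
  refine (Submodule.finrank_mono hmap).trans
    ((Submodule.finrank_add_le_finrank_add_finrank _ _).trans ?_)
  rw [finrank_span_singleton (pow_ne_zero _ hpi)]

theorem bridge (core : ∃ C : ℝ, ∃ x0 : ℕ, ∀ x : ℕ, x0 ≤ x →
      Real.log x ≤ C * Module.finrank ℚ (Lam (2 * x ^ 8))) :
    ∃ c : ℝ, 0 < c ∧ ∀ k : ℕ, Odd k → 3 ≤ k → c * Real.log k ≤ Module.finrank ℚ
      (Submodule.span ℚ {x : ℂ | ∃ r : ℕ, 2 * r + 3 ≤ k ∧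
        x = riemannZeta 2 ^ r * riemannZeta ((k - 2 * r : ℕ) : ℂ)}) := by
  obtain ⟨C, x0, h⟩ := core
  have hA : (0 : ℝ) < 16 * |C| + 8 * x0 + 16 := by positivity
  refine ⟨1 / (16 * |C| + 8 * x0 + 16), by positivity, fun k hk h3 => ?_⟩
  show _ ≤ ((Module.finrank ℚ (bridgeV k) : ℕ) : ℝ)
  have h1 : (1 : ℝ) ≤ (Module.finrank ℚ (bridgeV k) : ℕ) := by exact_mod_cast bridge_one k h3
  obtain ⟨e, he⟩ : ∃ e, e = Nat.log 2 k / 8 - 1 := ⟨_, rfl⟩
  have hL : 1 ≤ Nat.log 2 k := Nat.log_pos (by norm_num) (by omega)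
  have hlo : 2 * (2 ^ e) ^ 8 ≤ k := by
    calc 2 * (2 ^ e) ^ 8 = 2 ^ (8 * e + 1) := by rw [← pow_mul, pow_succ]; ring
      _ ≤ 2 ^ Nat.log 2 k := Nat.pow_le_pow_right (by norm_num) (by omega)
      _ ≤ k := Nat.pow_log_le_self 2 (by omega)
  have hhi : k ≤ (2 ^ e) ^ 8 * 2 ^ 16 := by
    calc k ≤ 2 ^ (Nat.log 2 k + 1) := (Nat.lt_pow_succ_log_self (by norm_num) k).le
      _ ≤ 2 ^ (e * 8 + 16) := Nat.pow_le_pow_right (by norm_num) (by omega)
      _ = _ := by rw [pow_add, pow_mul]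
  obtain ⟨x, hx⟩ : ∃ x : ℕ, x = 2 ^ e := ⟨_, rfl⟩
  rw [← hx] at hlo hhi
  have hx0 : (0 : ℝ) < x := by rw [hx]; positivity
  have hk0 : (0 : ℝ) < k := by exact_mod_cast (by omega : 0 < k)
  have hl2 : Real.log 2 ≤ 1 := by
    have := Real.log_le_sub_one_of_pos (show (0 : ℝ) < 2 by norm_num)
    linarith
  have hlog : Real.log k ≤ 8 * Real.log x + 16 := by
    have h2 : (k : ℝ) ≤ (x : ℝ) ^ 8 * 2 ^ 16 := by exact_mod_cast hhi
    have h4 := Real.log_le_log hk0 h2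
    rw [Real.log_mul (by positivity) (by positivity), Real.log_pow, Real.log_pow] at h4
    push_cast at h4
    linarith
  have hC := abs_nonneg C
  have hx00 : (0 : ℝ) ≤ x0 := Nat.cast_nonneg _
  have hb := bridge_le _ k hlo hk
  generalize Module.finrank ℚ (bridgeV k) = d at h1 hb ⊢
  have hmain : Real.log x ≤ (2 * |C| + x0) * d := by
    rcases le_or_gt x0 x with hc | hc
    · have h5 := h x hc
      have h6 : ((Module.finrank ℚ (Lam (2 * x ^ 8)) : ℕ) : ℝ) ≤ 1 + d := by exact_mod_cast hb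
      have h7 : (0 : ℝ) ≤ (Module.finrank ℚ (Lam (2 * x ^ 8)) : ℕ) := Nat.cast_nonneg _
      have h8 := mul_le_mul_of_nonneg_right (le_abs_self C) h7
      have h9 := mul_le_mul_of_nonneg_left h6 hC
      have h10 := mul_le_mul_of_nonneg_left h1 hC
      have h11 : (0 : ℝ) ≤ x0 * d := by positivity
      linarith
    · have h5 := Real.log_le_sub_one_of_pos hx0
      have h6 : (x : ℝ) ≤ x0 := by exact_mod_cast hc.le
      have h10 := mul_le_mul_of_nonneg_left h1 hx00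
      have h11 : (0 : ℝ) ≤ |C| * d := by positivity
      linarith
  rw [one_div, inv_mul_le_iff₀ hA]
  linarith

end ZOdd

end
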