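import Mathlib

-- part Const
section
/-!
Polynomial vectors and a unipotent connection on the projective line minus three points, over the reals.
-/

set_option autoImplicit false

namespace ZOdd

open Finset Polynomial

/-- The derivation x(1-x) d/dx. -/
noncomputable def th (f : ℝ[X]) : ℝ[X] := X * (1 - X) * derivative f

theorem th_add (f g : ℝ[X]) : th (f + g) = th f + th g := by
  simp only [th, derivative_add]; ring

theorem th_sub (f g : ℝ[X]) : th (f - g) = th f - th g := by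
  simp only [th, derivative_sub]; ring

theorem th_mul (f g : ℝ[X]) : th (f * g) = th f * g + f * th g := by
  simp only [th, derivative_mul]; ring

theorem th_C (a : ℝ) : th (C a) = 0 := by simp [th]

theorem th_zero : th 0 = 0 := by simp [th]

theorem th_X : th X = X * (1 - X) := by simp [th]

theorem th_sum {ι : Type} (s : Finset ι) (f : ι → ℝ[X]) : th (∑ i ∈ s, f i) = ∑ i ∈ s, th (f i) := by
  simp only [th, derivative_sum, mul_sum]

theorem natDegree_th_le (f : ℝ[X]) : (th f).natDegree ≤ f.natDegree + 1 := by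
  rcases Nat.eq_zero_or_pos f.natDegree with h | h
  · rw [eq_C_of_natDegree_eq_zero h, th_C]; simp
  · have h1 : (derivative f).natDegree ≤ f.natDegree - 1 := natDegree_derivative_le f
    have h2 : (X * (1 - X) : ℝ[X]).natDegree ≤ 2 := by compute_degree
    have h3 := natDegree_mul_le (p := (X * (1 - X) : ℝ[X])) (q := derivative f)
    unfold th
    omega

theorem coeff_X_mul_derivative (f : ℝ[X]) (d : ℕ) : (X * derivative f).coeff d = d * f.coeff d := by
  cases d with
  | zero => simp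
  | succ d => rw [coeff_X_mul, coeff_derivative]; push_cast; ring

theorem natDegree_X_mul_derivative_le (f : ℝ[X]) : (X * derivative f).natDegree ≤ f.natDegree := by
  rw [natDegree_le_iff_coeff_eq_zero]
  intro N hN
  rw [coeff_X_mul_derivative, coeff_eq_zero_of_natDegree_lt hN, mul_zero]

theorem natDegree_eq_of_wronskian {f g : ℝ[X]} (hf : f ≠ 0) (hg : g ≠ 0)
    (h : g * derivative f = f * derivative g) : f.natDegree = g.natDegree := by
  have h1 : g * (X * derivative f) = (X * derivative g) * f := by linear_combination X * h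
  have h2 : coeff (g * (X * derivative f)) (g.natDegree + f.natDegree)
      = coeff ((X * derivative g) * f) (g.natDegree + f.natDegree) := by rw [h1]
  rw [coeff_mul_add_eq_of_natDegree_le le_rfl (natDegree_X_mul_derivative_le f),
    coeff_mul_add_eq_of_natDegree_le (natDegree_X_mul_derivative_le g) le_rfl,
    coeff_X_mul_derivative, coeff_X_mul_derivative] at h2
  have hf' : f.coeff f.natDegree ≠ 0 := mt leadingCoeff_eq_zero.1 hf
  have hg' : g.coeff g.natDegree ≠ 0 := mt leadingCoeff_eq_zero.1 hg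
  have h3 : ((f.natDegree : ℝ) - g.natDegree) * (f.coeff f.natDegree * g.coeff g.natDegree) = 0 := by
    linear_combination h2
  have h4 := (mul_eq_zero.1 h3).resolve_right (mul_ne_zero hf' hg')
  exact_mod_cast sub_eq_zero.1 h4

theorem eq_C_mul_of_wronskian {f g : ℝ[X]} (hg : g ≠ 0)
    (h : g * derivative f = f * derivative g) : ∃ a : ℝ, f = C a * g := by
  have hg' : g.coeff g.natDegree ≠ 0 := mt leadingCoeff_eq_zero.1 hg
  refine ⟨f.coeff g.natDegree / g.coeff g.natDegree, ?_⟩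
  by_contra hne
  have hne' : f - C (f.coeff g.natDegree / g.coeff g.natDegree) * g ≠ 0 := sub_ne_zero.2 hne
  have h1 := natDegree_eq_of_wronskian hne' hg (by
    simp only [derivative_sub, derivative_mul, derivative_C, zero_mul, zero_add]
    linear_combination h)
  apply mt leadingCoeff_eq_zero.1 hne'
  rw [leadingCoeff, h1, coeff_sub, coeff_C_mul]
  field_simp
  ring

theorem X_sub_C_mul_derivative_pow (a : ℝ) (s : ℕ) (f : ℝ[X]) :
    (X - C a) * derivative ((X - C a) ^ s * f)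
      = (X - C a) ^ s * (C (s : ℝ) * f + (X - C a) * derivative f) := by
  cases s with
  | zero => simp
  | succ s =>
    rw [derivative_mul, derivative_X_sub_C_pow]
    simp only [Nat.add_sub_cancel, map_natCast, map_add, map_one, Nat.cast_add, Nat.cast_one]
    ring

/-- A logarithm is not a rational function. -/
theorem residue_zero {u f g h : ℝ[X]} {a : ℝ} (hu : eval a u ≠ 0) (hg : g ≠ 0)
    (H : u * (X - C a) * (g * derivative f - f * derivative g) = g ^ 2 * h) : eval a h = 0 := by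
  by_cases hf : f = 0
  · subst hf
    have : g ^ 2 * h = 0 := by rw [← H]; simp
    rw [(mul_eq_zero.1 this).resolve_left (pow_ne_zero 2 hg)]; simp
  obtain ⟨g1, hg1, hg2⟩ := exists_eq_pow_rootMultiplicity_mul_and_not_dvd g hg a
  obtain ⟨f1, hf1, hf2⟩ := exists_eq_pow_rootMultiplicity_mul_and_not_dvd f hf a
  rw [dvd_iff_isRoot, IsRoot.def] at hg2 hf2
  generalize rootMultiplicity a g = r at hg1
  generalize rootMultiplicity a f = s at hf1
  have hX : (X - C a : ℝ[X]) ≠ 0 := X_sub_C_ne_zero a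
  set W : ℝ[X] := (C (s : ℝ) - C (r : ℝ)) * f1 * g1
    + (X - C a) * (g1 * derivative f1 - f1 * derivative g1) with hW
  have key : u * ((X - C a) ^ r * (X - C a) ^ s) * W = (X - C a) ^ r * (X - C a) ^ r * (g1 ^ 2 * h) := by
    have e1 := X_sub_C_mul_derivative_pow a s f1
    have e2 := X_sub_C_mul_derivative_pow a r g1
    rw [← hf1] at e1
    rw [← hg1] at e2
    have e3 : u * (g * ((X - C a) * derivative f) - f * ((X - C a) * derivative g)) = g ^ 2 * h := by
      linear_combination H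
    rw [e1, e2] at e3
    rw [hf1, hg1] at e3
    rw [hW]
    linear_combination e3
  have hWa : eval a W = ((s : ℝ) - r) * eval a f1 * eval a g1 := by simp [hW]
  rcases lt_or_ge s r with hsr | hsr
  · obtain ⟨d, rfl⟩ := Nat.exists_eq_add_of_lt hsr
    exfalso
    have k2 : u * W = (X - C a) ^ (d + 1) * (g1 ^ 2 * h) := by
      apply mul_left_cancel₀ (mul_ne_zero (pow_ne_zero (s + d + 1) hX) (pow_ne_zero s hX))
      linear_combination key
    have k3 := congrArg (eval a) k2
    simp only [eval_mul, hWa, eval_pow, eval_sub, eval_X, eval_C, sub_self] at k3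
    rw [zero_pow (Nat.succ_ne_zero d), zero_mul] at k3
    have : ((s : ℝ) - ((s + d + 1 : ℕ) : ℝ)) ≠ 0 := by
      push_cast
      have : (0 : ℝ) ≤ d := Nat.cast_nonneg d
      intro h0; linarith
    exact mul_ne_zero hu (mul_ne_zero (mul_ne_zero this hf2) hg2) k3
  · obtain ⟨d, rfl⟩ := Nat.exists_eq_add_of_le hsr
    have k2 : u * (X - C a) ^ d * W = g1 ^ 2 * h := by
      apply mul_left_cancel₀ (mul_ne_zero (pow_ne_zero r hX) (pow_ne_zero r hX))
      linear_combination key
    have k3 := congrArg (eval a) k2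
    simp only [eval_mul, hWa, eval_pow, eval_sub, eval_X, eval_C, sub_self] at k3
    have k4 : eval a u * (0 : ℝ) ^ d * ((((r + d : ℕ) : ℝ) - r) * eval a f1 * eval a g1) = 0 := by
      cases d with
      | zero => simp
      | succ d => simp
    rw [k4] at k3
    exact (mul_eq_zero.1 k3.symm).resolve_left (pow_ne_zero 2 hg2)

theorem th_residue {f g h : ℝ[X]} (hg : g ≠ 0) (H : g * th f - th g * f = g ^ 2 * h) :
    eval 0 h = 0 ∧ eval 1 h = 0 := by
  constructor
  · refine residue_zero (u := 1 - X) (f := f) (by simp) hg ?_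
    rw [← H]; simp only [th, map_zero]; ring
  · refine residue_zero (u := -X) (f := f) (by simp) hg ?_
    rw [← H]; simp only [th, map_one]; ring

theorem th_wronskian {f g : ℝ[X]} (hg : g ≠ 0) (H : g * th f - th g * f = 0) :
    ∃ a : ℝ, f = C a * g := by
  apply eq_C_mul_of_wronskian hg
  have hX : (X * (1 - X) : ℝ[X]) ≠ 0 := by
    intro h
    have := congrArg (eval 2) h
    norm_num at this
  apply mul_left_cancel₀ hX
  simp only [th] at H
  linear_combination H
theorem exists_sigma (L : ℝ[X] →ₗ[ℝ] ℝ) :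
    ∃ σ : ℝ[X] →ₗ[ℝ] ℝ[X], σ 1 = 0 ∧ ∀ P, σ (X * P) = X * σ P + C (L P) := by
  let s : ℕ → ℝ[X] := fun k => Nat.rec 0 (fun k sk => X * sk + C (L (X ^ k))) k
  let σ : ℝ[X] →ₗ[ℝ] ℝ[X] := (basisMonomials ℝ).constr ℝ s
  have hσ : ∀ k, σ (X ^ k) = s k := by
    intro k
    have := (basisMonomials ℝ).constr_basis ℝ s k
    rw [coe_basisMonomials] at this
    rw [X_pow_eq_monomial]
    exact this
  refine ⟨σ, by rw [← pow_zero X, hσ 0]; rfl, fun P => ?_⟩
  induction P using Polynomial.induction_on' with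
  | add p q hp hq => simp only [mul_add, map_add, hp, hq]; ring
  | monomial n a =>
    have e : (monomial n a : ℝ[X]) = a • X ^ n := by
      rw [smul_eq_C_mul, C_mul_X_pow_eq_monomial]
    rw [e, mul_smul_comm, map_smul, map_smul, map_smul, ← pow_succ', hσ, hσ]
    simp only [s, smul_eq_C_mul, smul_eq_mul, map_mul]
    ring

section const

variable {ι : Type} [Fintype ι]

/-- The connection x(1-x) d/dx + (1-x) e0 + x e1. -/
noncomputable def nab (ε : Bool → Matrix ι ι ℝ) (x : ι → ℝ[X]) : ι → ℝ[X] :=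
  fun i => th (x i) + ∑ j, ((1 - X) * C (ε false i j) + X * C (ε true i j)) * x j

theorem nab_add (ε : Bool → Matrix ι ι ℝ) (x y : ι → ℝ[X]) :
    nab ε (x + y) = nab ε x + nab ε y := by
  funext i
  simp only [nab, Pi.add_apply, th_add, mul_add, sum_add_distrib]
  ring

theorem nab_smul (ε : Bool → Matrix ι ι ℝ) (f : ℝ[X]) (x : ι → ℝ[X]) :
    nab ε (f • x) = th f • x + f • nab ε x := by
  funext i
  simp only [nab, Pi.add_apply, Pi.smul_apply, smul_eq_mul, th_mul, mul_add, mul_sum]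
  rw [add_assoc]
  congr 2
  exact sum_congr rfl fun j _ => by ring

/-- Pairing of a constant functional with a polynomial vector. -/
noncomputable def pr (ψ : ι → ℝ) (x : ι → ℝ[X]) : ℝ[X] := ∑ i, C (ψ i) * x i

theorem pr_coeff (ψ : ι → ℝ) (x : ι → ℝ[X]) (d : ℕ) :
    (pr ψ x).coeff d = ∑ i, ψ i * (x i).coeff d := by
  simp [pr, finsetSum_coeff]

theorem pr_nab (ε : Bool → Matrix ι ι ℝ) (ψ : ι → ℝ) (x : ι → ℝ[X]) :
    pr ψ (nab ε x) = th (pr ψ x) + (1 - X) * pr (Matrix.vecMul ψ (ε false)) x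
      + X * pr (Matrix.vecMul ψ (ε true)) x := by
  have h : ∀ β, pr (Matrix.vecMul ψ (ε β)) x = ∑ i, ∑ j, C (ψ i) * (C (ε β i j) * x j) := by
    intro β
    simp only [pr, Matrix.vecMul, dotProduct, map_sum, map_mul, sum_mul]
    rw [sum_comm]
    exact sum_congr rfl fun i _ => sum_congr rfl fun j _ => mul_assoc _ _ _
  rw [h, h, mul_sum, mul_sum, pr, pr, th_sum, ← sum_add_distrib, ← sum_add_distrib]
  refine sum_congr rfl fun i _ => ?_
  rw [nab, th_mul, th_C, mul_add, mul_sum, mul_sum, mul_sum, zero_mul, zero_add, add_assoc,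
    ← sum_add_distrib]
  congr 1
  exact sum_congr rfl fun j _ => by ring

theorem nab_const_coeff (ε : Bool → Matrix ι ι ℝ) (c : ι → ℝ) (i : ι) :
    nab ε (fun j => C (c j)) i = C (Matrix.mulVec (ε false) c i)
      + X * C (Matrix.mulVec (ε true) c i - Matrix.mulVec (ε false) c i) := by
  simp only [nab, th_C, zero_add, Matrix.mulVec, dotProduct, map_sub, map_sum, map_mul, mul_sub,
    mul_sum]
  rw [← sum_sub_distrib, ← sum_add_distrib]
  exact sum_congr rfl fun j _ => by ring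

theorem mem_of_coeff (S : Submodule ℝ[X] (ι → ℝ[X])) (x : ι → ℝ[X])
    (h : ∀ d, (fun i => C ((x i).coeff d)) ∈ S) : x ∈ S := by
  classical
  have e : x = ∑ d ∈ range (univ.sup (fun i => (x i).natDegree) + 1),
      (X ^ d : ℝ[X]) • fun i => C ((x i).coeff d) := by
    funext i
    rw [Finset.sum_apply]
    conv_lhs => rw [as_sum_range' (x i) (univ.sup (fun i => (x i).natDegree) + 1)
      (Nat.lt_succ_of_le (le_sup (f := fun i => (x i).natDegree) (mem_univ i)))]
    refine sum_congr rfl fun d _ => ?_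
    simp only [Pi.smul_apply, smul_eq_mul]
    rw [mul_comm, C_mul_X_pow_eq_monomial]
  rw [e]
  exact S.sum_mem fun d _ => S.smul_mem _ (h d)

/-- Membership in a subspace is tested by the functionals killing it. -/
theorem mem_of_ann (V : Submodule ℝ (ι → ℝ)) (c : ι → ℝ)
    (h : ∀ ψ : ι → ℝ, (∀ w ∈ V, ∑ i, ψ i * w i = 0) → ∑ i, ψ i * c i = 0) : c ∈ V := by
  classical
  by_contra hc
  obtain ⟨g, hg1, hg2⟩ := LinearMap.exists_extend_of_notMem (0 : V →ₗ[ℝ] ℝ) hc (1 : ℝ)
  have hg : ∀ w : ι → ℝ, g w = ∑ i, g (Pi.single i 1) * w i := by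
    intro w
    conv_lhs => rw [pi_eq_sum_univ' w]
    simp only [map_sum, map_smul, smul_eq_mul]
    exact sum_congr rfl fun i _ => mul_comm _ _
  have := h (fun i => g (Pi.single i 1)) (fun w hw => by
    rw [← hg]
    have := congrArg (fun f : V →ₗ[ℝ] ℝ => f ⟨w, hw⟩) hg1
    simpa using this)
  rw [← hg, hg2] at this
  exact one_ne_zero this

theorem constancy (ε : Bool → Matrix ι ι ℝ) (wt : ι → ℕ)
    (hε : ∀ β i j, ε β i j ≠ 0 → wt i < wt j) (S : Submodule ℝ[X] (ι → ℝ[X]))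
    (hsat : ∀ (f : ℝ[X]) x, f ≠ 0 → f • x ∈ S → x ∈ S) (hst : ∀ x ∈ S, nab ε x ∈ S) :
    ∀ x ∈ S, ∀ d, (fun i => C ((x i).coeff d)) ∈ S := by
  classical
  suffices H : ∀ (n : ℕ) (J : Finset ι), J.card = n → (∀ β i j, j ∈ J → ε β i j ≠ 0 → i ∈ J) →
      ∀ x ∈ S, (∀ i, i ∉ J → x i = 0) → ∀ d, (fun i => C ((x i).coeff d)) ∈ S from
    fun x hx => H _ univ rfl (fun _ _ _ _ _ => mem_univ _) x hx (fun i hi => absurd (mem_univ i) hi)
  intro n
  induction n with
  | zero =>
    intro J hJ _ x _ hx d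
    rw [card_eq_zero] at hJ
    subst hJ
    convert S.zero_mem using 1
    funext i
    simp [hx i (notMem_empty i)]
  | succ n ih =>
    intro J hJ hcl q hq hqJ
    obtain ⟨j0, hj0, hmax⟩ := exists_max_image J wt (card_pos.1 (by omega))
    have hcl' : ∀ β i j, j ∈ J.erase j0 → ε β i j ≠ 0 → i ∈ J.erase j0 := by
      intro β i j hj hij
      have hj' := mem_of_mem_erase hj
      refine mem_erase.2 ⟨?_, hcl β i j hj' hij⟩
      rintro rfl
      exact absurd (hε β _ _ hij) (not_lt.2 (hmax j hj'))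
    have ih' := ih (J.erase j0) (by rw [card_erase_of_mem hj0]; omega) hcl'
    have hsupp : ∀ (J' : Finset ι), (∀ β i j, j ∈ J' → ε β i j ≠ 0 → i ∈ J') →
        ∀ x : ι → ℝ[X], (∀ i, i ∉ J' → x i = 0) → ∀ i, i ∉ J' → nab ε x i = 0 := by
      intro J' hJ' x hx i hi
      simp only [nab, hx i hi, th_zero, zero_add]
      refine sum_eq_zero fun j _ => ?_
      by_cases hj : j ∈ J'
      · have h0 : ∀ β, ε β i j = 0 := fun β => by
          by_contra h
          exact hi (hJ' β i j hj h)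
        simp [h0]
      · simp [hx j hj]
    by_cases hg : q j0 = 0
    · refine ih' q hq fun i hi => ?_
      by_cases h : i = j0
      · rw [h, hg]
      · exact hqJ i fun h' => hi (mem_erase.2 ⟨h, h'⟩)
    set g := q j0 with hgdef
    let V : Submodule ℝ (ι → ℝ) :=
      { carrier := {c | (fun i => C (c i)) ∈ S ∧ ∀ i, i ∉ J.erase j0 → c i = 0}
        add_mem' := by
          rintro a b ⟨ha, ha'⟩ ⟨hb, hb'⟩
          refine ⟨?_, fun i hi => by simp [ha' i hi, hb' i hi]⟩
          convert S.add_mem ha hb using 1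
          funext i; simp
        zero_mem' := ⟨by convert S.zero_mem using 1; funext i; simp, fun i _ => rfl⟩
        smul_mem' := by
          rintro r a ⟨ha, ha'⟩
          refine ⟨?_, fun i hi => by simp [ha' i hi]⟩
          convert S.smul_mem (C r) ha using 1
          funext i; simp }
    have hcoef : ∀ x ∈ S, (∀ i, i ∉ J.erase j0 → x i = 0) → ∀ d, (fun i => (x i).coeff d) ∈ V :=
      fun x hx hx' d => ⟨ih' x hx hx' d, fun i hi => by simp [hx' i hi]⟩
    have hV : ∀ c ∈ V, ∀ β, Matrix.mulVec (ε β) c ∈ V := by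
      intro c hc β
      have h1 := hcoef _ (hst _ hc.1) (hsupp _ hcl' _ fun i hi => by simp [hc.2 i hi])
      have h2 : Matrix.mulVec (ε false) c ∈ V := by
        convert h1 0 using 1
        funext i; simp [nab_const_coeff]
      cases β
      · exact h2
      · convert V.add_mem (h1 1) h2 using 1
        funext i
        simp [nab_const_coeff, coeff_X_mul, coeff_C]
    have hq' : ∀ d, (fun i => ((g • nab ε q - th g • q) i).coeff d) ∈ V := by
      refine hcoef _ (S.sub_mem (S.smul_mem _ (hst q hq)) (S.smul_mem _ hq)) fun i hi => ?_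
      simp only [Pi.sub_apply, Pi.smul_apply, smul_eq_mul]
      by_cases h : i = j0
      · subst h
        have : nab ε q i = th (q i) := by
          simp only [nab]
          rw [sum_eq_zero, add_zero]
          intro j _
          by_cases hj : j ∈ J
          · have h0 : ∀ β, ε β i j = 0 := fun β => by
              by_contra h
              exact absurd (hε β _ _ h) (not_lt.2 (hmax j hj))
            simp [h0]
          · simp [hqJ j hj]
        rw [this]; ring
      · have hi' : i ∉ J := fun h' => hi (mem_erase.2 ⟨h, h'⟩)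
        rw [hsupp J hcl q hqJ i hi', hqJ i hi']; ring
    have key : ∀ k : ℕ, ∀ ψ : ι → ℝ, (∀ w ∈ V, ∑ i, ψ i * w i = 0) →
        (∀ i, ψ i ≠ 0 → univ.sup wt + 1 ≤ wt i + k) → ∃ a : ℝ, pr ψ q = C a * g := by
      intro k
      induction k with
      | zero =>
        intro ψ _ h
        refine ⟨0, ?_⟩
        have : ∀ i, ψ i = 0 := fun i => by
          by_contra hi
          have h1 := h i hi
          have h2 := le_sup (f := wt) (mem_univ i)
          omega
        simp [pr, this]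
      | succ k ihk =>
        intro ψ hψ h
        have hb : ∀ β, ∃ a : ℝ, pr (Matrix.vecMul ψ (ε β)) q = C a * g := by
          intro β
          refine ihk _ (fun w hw => ?_) (fun i hi => ?_)
          · have := hψ _ (hV w hw β)
            rw [← this]
            exact (Matrix.dotProduct_mulVec ψ (ε β) w).symm
          · obtain ⟨i', -, hi'⟩ := exists_ne_zero_of_sum_ne_zero hi
            have h1 := h i' (left_ne_zero_of_mul hi')
            have h2 := hε β _ _ (right_ne_zero_of_mul hi')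
            omega
        obtain ⟨a0, h0⟩ := hb false
        obtain ⟨a1, h1⟩ := hb true
        have h2 : pr ψ (g • nab ε q - th g • q) = 0 := by
          ext d
          rw [pr_coeff, coeff_zero]
          exact hψ _ (hq' d)
        have h3 : pr ψ (g • nab ε q - th g • q) = g * pr ψ (nab ε q) - th g * pr ψ q := by
          simp only [pr, Pi.sub_apply, Pi.smul_apply, smul_eq_mul, mul_sum]
          rw [← sum_sub_distrib]
          exact sum_congr rfl fun i _ => by ring
        rw [h3, pr_nab, h0, h1] at h2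
        have h4 := th_residue (f := pr ψ q) (h := -((1 - X) * C a0 + X * C a1)) hg
          (by linear_combination h2)
        simp only [eval_neg, eval_add, eval_mul, eval_sub, eval_one, eval_X, eval_C, sub_zero,
          one_mul, zero_mul, add_zero, sub_self, zero_add, neg_eq_zero] at h4
        rw [h4.1, h4.2] at h2
        exact th_wronskian hg (by simpa using h2)
    have hgd : g.coeff g.natDegree ≠ 0 := mt leadingCoeff_eq_zero.1 hg
    let c : ι → ℝ := fun i => (q i).coeff g.natDegree / g.coeff g.natDegree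
    have h5 : ∀ d, (fun i => ((q - g • fun i => C (c i)) i).coeff d) ∈ V := by
      intro d
      refine mem_of_ann V _ fun ψ hψ => ?_
      obtain ⟨a, ha⟩ := key (univ.sup wt + 1) ψ hψ (fun i _ => by omega)
      have h6 : ∑ i, ψ i * c i = a := by
        have := congrArg (fun p : ℝ[X] => p.coeff g.natDegree) ha
        simp only [pr_coeff, coeff_C_mul] at this
        simp only [c, ← mul_div_assoc, ← sum_div, this]
        field_simp
      have h7 := congrArg (fun p : ℝ[X] => p.coeff d) ha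
      simp only [pr_coeff, coeff_C_mul] at h7
      simp only [Pi.sub_apply, Pi.smul_apply, smul_eq_mul, coeff_sub, coeff_mul_C, mul_sub,
        sum_sub_distrib, h7, ← h6, sum_mul]
      rw [sub_eq_zero]
      exact sum_congr rfl fun i _ => by ring
    have h8 : (fun i => C (c i)) ∈ S := by
      refine hsat g _ hg ?_
      have := S.sub_mem hq (mem_of_coeff S _ fun d => (h5 d).1)
      simpa using this
    intro d
    convert S.add_mem (h5 d).1 (S.smul_mem (C (g.coeff d)) h8) using 1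
    funext i
    simp [coeff_mul_C]

end const

theorem sigma_id (l la0 la1 lb0 lb1 : ℝ[X] →ₗ[ℝ] ℝ) (σ σa0 σa1 σb0 σb1 : ℝ[X] →ₗ[ℝ] ℝ[X])
    (h : σ 1 = 0 ∧ ∀ P, σ (X * P) = X * σ P + C (l P))
    (ha0 : σa0 1 = 0 ∧ ∀ P, σa0 (X * P) = X * σa0 P + C (la0 P))
    (ha1 : σa1 1 = 0 ∧ ∀ P, σa1 (X * P) = X * σa1 P + C (la1 P))
    (hb0 : σb0 1 = 0 ∧ ∀ P, σb0 (X * P) = X * σb0 P + C (lb0 P))
    (hb1 : σb1 1 = 0 ∧ ∀ P, σb1 (X * P) = X * σb1 P + C (lb1 P))
    (hrel : ∀ P, l (th P + (1 - 2 * X) * P) + (la0 ((1 - X) * P) + la1 (X * P))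
      + (lb0 ((1 - X) * P) + lb1 (X * P)) = 0) (P : ℝ[X]) :
    σ (th P) + (σb0 ((1 - X) * P) + σb1 (X * P)) = th (σ P) - ((1 - X) * σa0 P + X * σa1 P)
      - C (l 1 + (la0 1 - la1 1) + (lb0 1 - lb1 1)) * P + C (l P + (la0 P - la1 P)) := by
  induction P using Polynomial.induction_on with
  | C a =>
    have e : (C a : ℝ[X]) = a • 1 := by simp [smul_eq_C_mul]
    have e1 : ((1 - X) * C a : ℝ[X]) = a • 1 - a • (X * 1) := by simp [smul_eq_C_mul]; ring
    have e2 : (X * C a : ℝ[X]) = a • (X * 1) := by simp [smul_eq_C_mul]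
    rw [th_C, e1, e2, map_sub, map_smul, map_smul, map_smul, hb0.2, hb1.2, hb0.1, hb1.1]
    have e3 : ∀ F : ℝ[X] →ₗ[ℝ] ℝ[X], F 1 = 0 → F (C a) = 0 := fun F hF => by
      rw [e, map_smul, hF, smul_zero]
    have e4 : ∀ F : ℝ[X] →ₗ[ℝ] ℝ, F (C a) = a * F 1 := fun F => by
      rw [e, map_smul, smul_eq_mul]
    rw [e3 σ h.1, e3 σa0 ha0.1, e3 σa1 ha1.1, e4, e4, e4, th_zero]
    simp only [map_zero, smul_eq_C_mul, map_add, map_sub, map_mul]
    ring
  | add p q hp hq =>
    simp only [th_add, mul_add, map_add] at hp hq ⊢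
    simp only [map_sub, map_add] at hp hq ⊢
    linear_combination hp + hq
  | monomial n a ih =>
    rw [pow_succ, ← mul_assoc, mul_comm _ X]
    generalize C a * X ^ n = P at ih
    have e1 : th (X * P) = X * (P - X * P) + X * th P := by rw [th_mul, th_X]; ring
    have e2 : (1 - X) * (X * P) = X * ((1 - X) * P) := by ring
    have e3 : (1 - X) * P = P - X * P := by ring
    have e4 : th P + (1 - 2 * X) * P = th P + P - X * P - X * P := by ring
    have hr := congrArg C (hrel P)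
    rw [e4, e3] at hr
    rw [e1, e2, map_add, h.2, h.2, h.2, hb0.2, hb1.2, ha0.2, ha1.2, map_sub, h.2, th_add, th_mul,
      th_X, th_C]
    rw [e3] at ih ⊢
    simp only [map_add, map_sub, map_zero] at hr ih ⊢
    linear_combination X * ih + hr

section mom

variable {ι0 ι1 : Type} [Fintype ι0] [Fintype ι1]

/-- The residue matrix of the extension. -/
noncomputable def gam (a : Bool → Matrix ι0 ι0 ℝ) (b : Bool → Matrix ι1 ι1 ℝ)
    (l : ι0 → ι1 → ℝ[X] →ₗ[ℝ] ℝ) : Matrix ι0 ι1 ℝ :=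
  Matrix.of fun u c => l u c 1 + (∑ u', a false u u' * l u' c 1 - ∑ u', a true u u' * l u' c 1)
    + (∑ c', b false c' c * l u c' 1 - ∑ c', b true c' c * l u c' 1)

/-- The two residue endomorphisms of the extension. -/
noncomputable def epsM (a : Bool → Matrix ι0 ι0 ℝ) (b : Bool → Matrix ι1 ι1 ℝ)
    (l : ι0 → ι1 → ℝ[X] →ₗ[ℝ] ℝ) (β : Bool) : Matrix (ι1 ⊕ ι0) (ι1 ⊕ ι0) ℝ :=
  Matrix.fromBlocks (b β) 0 (-gam a b l) (-a β)

theorem sum_nab {M : Type} [AddCommGroup M] [Module ℝ M] (b : Bool → Matrix ι1 ι1 ℝ)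
    (F : ι1 → ℝ[X] →ₗ[ℝ] M) (Q : ι1 → ℝ[X]) :
    ∑ c', F c' (nab b Q c') = ∑ c, (F c (th (Q c)) + ((∑ c', b false c' c • F c') ((1 - X) * Q c)
      + (∑ c', b true c' c • F c') (X * Q c))) := by
  simp only [nab, map_add, map_sum, sum_add_distrib, LinearMap.sum_apply, LinearMap.smul_apply]
  congr 1
  rw [← sum_add_distrib, sum_comm]
  refine sum_congr rfl fun c _ => ?_
  rw [← sum_add_distrib]
  refine sum_congr rfl fun c' _ => ?_
  rw [← map_smul, ← map_smul, ← map_add, smul_eq_C_mul, smul_eq_C_mul]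
  congr 1
  ring

theorem natDegree_nab_le (b : Bool → Matrix ι1 ι1 ℝ) (Q : ι1 → ℝ[X]) (d : ℕ)
    (hQ : ∀ c, (Q c).natDegree ≤ d) (c : ι1) : (nab b Q c).natDegree ≤ d + 1 := by
  unfold nab
  refine (natDegree_add_le _ _).trans (max_le ?_ ?_)
  · have := natDegree_th_le (Q c)
    have := hQ c
    omega
  · refine natDegree_sum_le_of_forall_le _ _ fun j _ => ?_
    have h1 := natDegree_mul_le (p := (1 - X) * C (b false c j) + X * C (b true c j)) (q := Q j)
    have h2 : ((1 - X) * C (b false c j) + X * C (b true c j) : ℝ[X]).natDegree ≤ 1 := by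
      compute_degree
    have := hQ j
    omega

end mom

end ZOdd

end

-- part Sat
section
/-!
Saturation of a constant stable subspace by a family of polynomial vectors.
-/

set_option autoImplicit false

namespace ZOdd

open Finset Polynomial

section sat

variable {ι : Type} [Fintype ι]

/-- The vector of coefficients of degree d. -/
noncomputable def cf (d : ℕ) : (ι → ℝ[X]) →ₗ[ℝ] (ι → ℝ) :=
  LinearMap.pi fun i => lcoeff ℝ d ∘ₗ LinearMap.proj i

omit [Fintype ι] in
theorem cf_apply (d : ℕ) (x : ι → ℝ[X]) (i : ι) : cf d x i = (x i).coeff d := rfl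

/-- A constant vector as a polynomial vector. -/
noncomputable def Cv (c : ι → ℝ) : ι → ℝ[X] := fun i => C (c i)

/-- Polynomial vectors with coefficients in W. -/
def PW (W : Submodule ℝ (ι → ℝ)) : Submodule ℝ[X] (ι → ℝ[X]) where
  carrier := {x | ∀ d, cf d x ∈ W}
  add_mem' := by
    intro a b ha hb d
    rw [map_add]
    exact W.add_mem (ha d) (hb d)
  zero_mem' := by intro d; simp
  smul_mem' := by
    intro f x hx d
    have : cf d (f • x) = ∑ p ∈ antidiagonal d, f.coeff p.1 • cf p.2 x := by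
      funext i
      simp [cf_apply, coeff_mul, Finset.sum_apply]
    rw [this]
    exact W.sum_mem fun p _ => W.smul_mem _ (hx p.2)

omit [Fintype ι] in
theorem mem_PW {W : Submodule ℝ (ι → ℝ)} {x : ι → ℝ[X]} : x ∈ PW W ↔ ∀ d, cf d x ∈ W := Iff.rfl

omit [Fintype ι] in
theorem Cv_mem {W : Submodule ℝ (ι → ℝ)} {c : ι → ℝ} : Cv c ∈ PW W ↔ c ∈ W := by
  constructor
  · intro h
    convert h 0 using 1
    funext i; simp [cf_apply, Cv]
  · intro h d
    by_cases hd : d = 0
    · convert h using 1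
      funext i; simp [cf_apply, Cv, hd]
    · convert W.zero_mem using 1
      funext i; simp [cf_apply, Cv, coeff_C, hd]

/-- Stability under both residues. -/
def St (ε : Bool → Matrix ι ι ℝ) (W : Submodule ℝ (ι → ℝ)) : Prop :=
  ∀ β, ∀ c ∈ W, (ε β).mulVec c ∈ W

theorem nab_mem_PW {ε : Bool → Matrix ι ι ℝ} {W : Submodule ℝ (ι → ℝ)} (hW : St ε W)
    {x : ι → ℝ[X]} (hx : x ∈ PW W) : nab ε x ∈ PW W := by
  have h1 : ∀ β, (fun i => ∑ j, C (ε β i j) * x j) ∈ PW W := by
    intro β d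
    convert hW β _ (hx d) using 1
    funext i
    simp [cf_apply, Matrix.mulVec, dotProduct, finsetSum_coeff]
  have h2 : (fun i => derivative (x i)) ∈ PW W := by
    intro d
    convert W.smul_mem ((d : ℝ) + 1) (hx (d + 1)) using 1
    funext i
    simp [cf_apply, coeff_derivative, mul_comm]
  convert (PW W).add_mem ((PW W).smul_mem (X * (1 - X)) h2)
    ((PW W).add_mem ((PW W).smul_mem (1 - X) (h1 false)) ((PW W).smul_mem X (h1 true))) using 1
  funext i
  simp only [nab, th, Pi.add_apply, Pi.smul_apply, smul_eq_mul, mul_sum, ← sum_add_distrib]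
  congr 1
  exact sum_congr rfl fun j _ => by ring

theorem nab_zero (ε : Bool → Matrix ι ι ℝ) : nab ε 0 = 0 := by
  funext i; simp [nab, th_zero]

theorem sat_core (ε : Bool → Matrix ι ι ℝ) (wt : ι → ℕ)
    (hε : ∀ β i j, ε β i j ≠ 0 → wt i < wt j) (W : Submodule ℝ (ι → ℝ)) (hW : St ε W)
    (Kf : ℕ → Set (ι → ℝ[X])) (hmono : ∀ j, Kf j ⊆ Kf (j + 1))
    (hnab : ∀ j, ∀ x ∈ Kf j, nab ε x ∈ Kf (j + 1)) :
    ∃ (W' : Submodule ℝ (ι → ℝ)) (μ : ℕ) (e : Fin μ → ι → ℝ[X]), μ ≤ Fintype.card ι ∧ St ε W' ∧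
      W ≤ W' ∧ (∀ k, e k ∈ Kf μ) ∧ (∀ k, e k ∈ PW W') ∧ (∀ x ∈ Kf 0, x ∈ PW W') ∧
      (∀ c : Fin μ → ℝ[X], ∑ k, c k • e k ∈ PW W → ∀ k, c k = 0) ∧
      Module.finrank ℝ W' ≤ Module.finrank ℝ W + μ := by
  classical
  have hind : ∀ (μ : ℕ) (e : Fin μ → ι → ℝ[X]),
      (∀ c : Fin μ → ℝ[X], ∑ k, c k • e k ∈ PW W → ∀ k, c k = 0) → μ ≤ Fintype.card ι := by
    intro μ e he
    have h1 : LinearIndependent ℝ[X] e :=
      Fintype.linearIndependent_iff.2 fun c hc => he c (by rw [hc]; exact (PW W).zero_mem)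
    have := h1.fintype_card_le_finrank
    rwa [Fintype.card_fin, Module.finrank_fintype_fun_eq_card] at this
  have hex : ∃ μ : ℕ, ¬ ∃ e : Fin (μ + 1) → ι → ℝ[X], (∀ k, e k ∈ Kf (μ + 1)) ∧
      ∀ c : Fin (μ + 1) → ℝ[X], ∑ k, c k • e k ∈ PW W → ∀ k, c k = 0 := by
    refine ⟨Fintype.card ι, ?_⟩
    rintro ⟨e, -, he⟩
    have := hind _ e he
    omega
  have hspec := Nat.find_spec hex
  have hmin := fun m => Nat.find_min hex (m := m)
  generalize Nat.find hex = μ at hspec hmin
  obtain ⟨e, heK, hli⟩ : ∃ e : Fin μ → ι → ℝ[X], (∀ k, e k ∈ Kf μ) ∧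
      ∀ c : Fin μ → ℝ[X], ∑ k, c k • e k ∈ PW W → ∀ k, c k = 0 := by
    cases μ with
    | zero => exact ⟨Fin.elim0, fun k => k.elim0, fun _ _ k => k.elim0⟩
    | succ m => exact not_not.1 (hmin m (Nat.lt_succ_self m))
  let S : Submodule ℝ[X] (ι → ℝ[X]) :=
    { carrier := {x | ∃ g : ℝ[X], g ≠ 0 ∧ ∃ c : Fin μ → ℝ[X], g • x - ∑ k, c k • e k ∈ PW W}
      add_mem' := by
        rintro x y ⟨g, hg, c, hc⟩ ⟨g', hg', c', hc'⟩
        refine ⟨g * g', mul_ne_zero hg hg', fun k => g' * c k + g * c' k, ?_⟩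
        convert (PW W).add_mem ((PW W).smul_mem g' hc) ((PW W).smul_mem g hc') using 1
        simp only [add_smul, sum_add_distrib, mul_smul, ← smul_sum, smul_sub, smul_add]
        rw [smul_comm g' g x]
        abel
      zero_mem' := ⟨1, one_ne_zero, 0, by simp⟩
      smul_mem' := by
        rintro f x ⟨g, hg, c, hc⟩
        refine ⟨g, hg, fun k => f * c k, ?_⟩
        convert (PW W).smul_mem f hc using 1
        simp only [mul_smul, ← smul_sum, smul_sub]
        rw [smul_comm g f x] }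
  have hsat : ∀ (f : ℝ[X]) x, f ≠ 0 → f • x ∈ S → x ∈ S := by
    rintro f x hf ⟨g, hg, c, hc⟩
    exact ⟨g * f, mul_ne_zero hg hf, c, by rwa [mul_smul]⟩
  have hPS : ∀ x ∈ PW W, x ∈ S := fun x hx => ⟨1, one_ne_zero, 0, by simpa using hx⟩
  have hKS : ∀ x ∈ Kf (μ + 1), x ∈ S := by
    intro x hx
    by_contra hxS
    refine hspec ⟨Fin.snoc (α := fun _ => ι → ℝ[X]) e x, fun k => ?_, fun c hc => ?_⟩
    · induction k using Fin.lastCases with
      | last => simpa using hx
      | cast k => simpa using hmono μ (heK k)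
    · rw [Fin.sum_univ_castSucc] at hc
      simp only [Fin.snoc_castSucc, Fin.snoc_last] at hc
      have h0 : c (Fin.last μ) = 0 := by
        by_contra h0
        refine hxS ⟨_, h0, fun k => -c k.castSucc, ?_⟩
        convert hc using 1
        simp only [neg_smul, sum_neg_distrib]
        abel
      rw [h0, zero_smul, add_zero] at hc
      intro k
      induction k using Fin.lastCases with
      | last => exact h0
      | cast k => exact hli _ hc k
  have heS : ∀ k, e k ∈ S := fun k => hKS _ (hmono μ (heK k))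
  have hst : ∀ x ∈ S, nab ε x ∈ S := by
    intro x hx
    obtain ⟨g, hg, c, hc⟩ := id hx
    refine hsat g _ hg ?_
    have h1 : ∀ s : Finset (Fin μ), nab ε (∑ k ∈ s, c k • e k) ∈ S := by
      intro s
      induction s using Finset.induction_on with
      | empty => simp [nab_zero]
      | insert k s hk ih =>
        rw [sum_insert hk, nab_add, nab_smul]
        exact S.add_mem (S.add_mem (S.smul_mem _ (heS k))
          (S.smul_mem _ (hKS _ (hnab μ _ (heK k))))) ih
    have h2 : g • nab ε x = nab ε (g • x - ∑ k, c k • e k) + nab ε (∑ k, c k • e k) - th g • x := by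
      rw [← nab_add, sub_add_cancel, nab_smul]; abel
    rw [h2]
    exact S.sub_mem (S.add_mem (hPS _ (nab_mem_PW hW hc)) (h1 _)) (S.smul_mem _ hx)
  have hcst := constancy ε wt hε S hsat hst
  let W' : Submodule ℝ (ι → ℝ) :=
    { carrier := {c | Cv c ∈ S}
      add_mem' := by
        intro a b ha hb
        show Cv (a + b) ∈ S
        convert S.add_mem ha hb using 1
        funext i; simp [Cv]
      zero_mem' := by
        show Cv 0 ∈ S
        convert S.zero_mem using 1
        funext i; simp [Cv]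
      smul_mem' := by
        intro r a ha
        show Cv (r • a) ∈ S
        convert S.smul_mem (C r) ha using 1
        funext i; simp [Cv] }
  have hSP : ∀ x ∈ S, x ∈ PW W' := fun x hx d => hcst x hx d
  have hWW : W ≤ W' := fun c hc => hPS _ (Cv_mem.2 hc)
  refine ⟨W', μ, e, hind μ e hli, fun β c hc => ?_, hWW, heK, fun k => hSP _ (heS k),
    fun x hx => ?_, hli, ?_⟩
  · have h1 := hSP _ (hst _ hc)
    have h2 : Matrix.mulVec (ε false) c ∈ W' := by
      convert h1 0 using 1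
      funext i
      simp only [cf_apply]
      unfold Cv
      simp [nab_const_coeff]
    cases β
    · exact h2
    · convert W'.add_mem (h1 1) h2 using 1
      funext i
      simp only [cf_apply, Pi.add_apply]
      unfold Cv
      simp [nab_const_coeff, coeff_X_mul, coeff_C]
  · have : ∀ j, Kf 0 ⊆ Kf j := fun j => by
      induction j with
      | zero => exact le_rfl
      | succ j ih => exact ih.trans (hmono j)
    exact hSP _ (hKS x (this _ hx))
  · obtain ⟨U, hU1, hU2⟩ := IsModularLattice.exists_disjoint_and_sup_eq hWW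
    have h1 := Submodule.finrank_sup_add_finrank_inf_eq W U
    rw [hU2] at h1
    let b := Module.finBasis ℝ U
    have hbS : ∀ k, Cv (b k : ι → ℝ) ∈ S := fun k => (hU2 ▸ le_sup_right : U ≤ W') (b k).2
    choose g hg c hc using hbS
    have h2 : LinearIndependent ℝ[X] c := by
      refine Fintype.linearIndependent_iff.2 fun r hr k => ?_
      have h3 : ∑ k, (r k * g k) • Cv (b k : ι → ℝ) ∈ PW W := by
        convert (PW W).sum_mem fun k (_ : k ∈ univ) => (PW W).smul_mem (r k) (hc k) using 1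
        simp only [smul_sub, sum_sub_distrib, mul_smul, smul_sum]
        rw [sum_comm, eq_comm, sub_eq_self]
        refine sum_eq_zero fun l _ => ?_
        have := congrFun hr l
        simp only [Finset.sum_apply, Pi.smul_apply, smul_eq_mul, Pi.zero_apply] at this
        simp only [← mul_smul, ← sum_smul, this, zero_smul]
      have h4 : r k * g k = 0 := by
        ext d
        have h5 : ((∑ k, (r k * g k).coeff d • b k : U) : ι → ℝ) ∈ W := by
          convert h3 d using 1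
          funext i
          simp [cf_apply, Cv, Finset.sum_apply, finsetSum_coeff]
        have h6 : (∑ k, (r k * g k).coeff d • b k : U) = 0 :=
          Subtype.ext (Submodule.disjoint_def.1 hU1 _ h5 (Subtype.prop _))
        simpa using Fintype.linearIndependent_iff.1 b.linearIndependent _ h6 k
      exact (mul_eq_zero.1 h4).resolve_right (hg k)
    have := h2.fintype_card_le_finrank
    rw [Fintype.card_fin, Module.finrank_fintype_fun_eq_card, Fintype.card_fin] at this
    omega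

end sat

end ZOdd

end

-- part HN
section
/-!
The kernel of a graded matrix of moments lies in a graded constant subspace of bounded size.
-/

set_option autoImplicit false

namespace ZOdd

open Finset Polynomial

theorem finrank_split {V V' : Type} [AddCommGroup V] [Module ℝ V] [AddCommGroup V'] [Module ℝ V']
    (p : Submodule ℝ V) [FiniteDimensional ℝ p] (f : V →ₗ[ℝ] V') :
    Module.finrank ℝ p = Module.finrank ℝ (p.map f) + Module.finrank ℝ ↥(p ⊓ LinearMap.ker f) := by
  have h := LinearMap.finrank_range_add_finrank_ker (f.domRestrict p)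
  rw [LinearMap.range_domRestrict, LinearMap.ker_domRestrict,
    ← Submodule.finrank_map_subtype_eq p (Submodule.comap _ _), Submodule.map_comap_subtype] at h
  exact h.symm

theorem sum_div_range (h : ℕ → ℕ) (n Ψ : ℕ) (hn : 0 < n) :
    ∑ d ∈ range (Ψ * n), h (d / n) = n * ∑ e ∈ range Ψ, h e := by
  induction Ψ with
  | zero => simp
  | succ Ψ ih =>
    rw [Nat.succ_mul, sum_range_add, ih, sum_range_succ, mul_add]
    congr 1
    rw [sum_congr rfl (g := fun _ => h Ψ)]
    · simp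
    · intro d hd
      rw [mul_comm, Nat.mul_add_div hn, Nat.div_eq_of_lt (mem_range.1 hd), add_zero]

theorem mem_dl {d : ℕ} {P : ℝ[X]} : P ∈ degreeLT ℝ d ↔ ∀ m, d ≤ m → P.coeff m = 0 := by
  rw [mem_degreeLT, degree_lt_iff_coeff_zero]

theorem dl_mono {d d' : ℕ} (h : d ≤ d') {P : ℝ[X]} (hP : P ∈ degreeLT ℝ d) : P ∈ degreeLT ℝ d' :=
  mem_dl.2 fun m hm => mem_dl.1 hP m (h.trans hm)

theorem dl_mul {d k : ℕ} {f P : ℝ[X]} (hf : f.natDegree ≤ k) (hP : P ∈ degreeLT ℝ d) :
    f * P ∈ degreeLT ℝ (d + k) := by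
  refine mem_dl.2 fun m hm => ?_
  rw [coeff_mul]
  refine sum_eq_zero fun p hp => ?_
  have := mem_antidiagonal.1 hp
  by_cases h : k < p.1
  · rw [coeff_eq_zero_of_natDegree_lt (hf.trans_lt h), zero_mul]
  · rw [mem_dl.1 hP _ (by omega), mul_zero]

theorem dl_th {d : ℕ} {P : ℝ[X]} (hP : P ∈ degreeLT ℝ d) : th P ∈ degreeLT ℝ (d + 1) := by
  have h1 : X * derivative P ∈ degreeLT ℝ d :=
    mem_dl.2 fun m hm => by rw [coeff_X_mul_derivative, mem_dl.1 hP m hm, mul_zero]
  have h2 : th P = (1 - X) * (X * derivative P) := by unfold th; ring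
  rw [h2]
  exact dl_mul (by compute_degree) h1

theorem sigma_dl {L : ℝ[X] →ₗ[ℝ] ℝ} {σ : ℝ[X] →ₗ[ℝ] ℝ[X]}
    (h : σ 1 = 0 ∧ ∀ P, σ (X * P) = X * σ P + C (L P)) (d : ℕ) :
    ∀ P ∈ degreeLT ℝ (d + 1), σ P ∈ degreeLT ℝ d := by
  have hC : ∀ r : ℝ, σ (C r) = 0 := fun r => by
    rw [show (C r : ℝ[X]) = r • 1 by simp [smul_eq_C_mul], map_smul, h.1, smul_zero]
  induction d with
  | zero =>
    intro P hP
    have : P = C (P.coeff 0) := by
      ext m
      cases m with
      | zero => simp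
      | succ m => rw [mem_dl.1 hP _ (by omega)]; simp
    rw [this, hC]
    exact zero_mem _
  | succ d ih =>
    intro P hP
    have h1 := ih (divX P) (mem_dl.2 fun m hm => by
      rw [coeff_divX]; exact mem_dl.1 hP _ (by omega))
    rw [← X_mul_divX_add P, map_add, hC, add_zero, h.2]
    refine add_mem (dl_mul (by simp) h1) (mem_dl.2 fun m hm => ?_)
    rw [coeff_C, if_neg (by omega)]

section hn

variable {ι0 ι1 : Type} [Fintype ι0] [Fintype ι1]

/-- A column vector together with the polynomial parts of its moment series. -/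
noncomputable def Ph (σ : ι0 → ι1 → ℝ[X] →ₗ[ℝ] ℝ[X]) : (ι1 → ℝ[X]) →ₗ[ℝ] (ι1 ⊕ ι0 → ℝ[X]) where
  toFun Q := Sum.elim Q fun u => ∑ c, σ u c (Q c)
  map_add' x y := by
    funext i; rcases i with c | u <;> simp [sum_add_distrib]
  map_smul' r x := by
    funext i; rcases i with c | u <;> simp [smul_sum]

/-- The moments of order zero. -/
noncomputable def lv (l : ι0 → ι1 → ℝ[X] →ₗ[ℝ] ℝ) (Q : ι1 → ℝ[X]) : ι0 → ℝ :=
  fun u => ∑ c, l u c (Q c)

/-- The differential relation between the moments. -/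
def Rel (a : Bool → Matrix ι0 ι0 ℝ) (b : Bool → Matrix ι1 ι1 ℝ)
    (l : ι0 → ι1 → ℝ[X] →ₗ[ℝ] ℝ) : Prop :=
  ∀ u c P, l u c (th P + (1 - 2 * X) * P)
      + ((∑ u', a false u u' • l u' c) ((1 - X) * P) + (∑ u', a true u u' • l u' c) (X * P))
      + ((∑ c', b false c' c • l u c') ((1 - X) * P) + (∑ c', b true c' c • l u c') (X * P)) = 0

/-- The maps which take the polynomial part. -/
def Sig (l : ι0 → ι1 → ℝ[X] →ₗ[ℝ] ℝ) (σ : ι0 → ι1 → ℝ[X] →ₗ[ℝ] ℝ[X]) : Prop :=
  ∀ u c, σ u c 1 = 0 ∧ ∀ P, σ u c (X * P) = X * σ u c P + C (l u c P)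

variable {a : Bool → Matrix ι0 ι0 ℝ} {b : Bool → Matrix ι1 ι1 ℝ}
  {l : ι0 → ι1 → ℝ[X] →ₗ[ℝ] ℝ} {σ : ι0 → ι1 → ℝ[X] →ₗ[ℝ] ℝ[X]}

omit [Fintype ι0] in
theorem Ph_X (hσ : Sig l σ) (Q : ι1 → ℝ[X]) :
    Ph σ ((X : ℝ[X]) • Q) = (X : ℝ[X]) • Ph σ Q + Cv (Sum.elim 0 (lv l Q)) := by
  funext i
  rcases i with c | u
  · simp [Ph, Cv]
  · simp [Ph, Cv, lv, (hσ _ _).2, sum_add_distrib, mul_sum]

omit [Fintype ι0] in
theorem Ph_C (hσ : Sig l σ) (q : ι1 → ℝ) : Ph σ (Cv q) = Cv (Sum.elim q 0) := by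
  funext i
  rcases i with c | u
  · simp [Ph, Cv]
  · have : ∀ c, σ u c (C (q c)) = 0 := fun c => by
      rw [show (C (q c) : ℝ[X]) = q c • 1 by simp [smul_eq_C_mul], map_smul, (hσ _ _).1, smul_zero]
    simp [Ph, Cv, this]

theorem hsw {N : Type} [AddCommGroup N] [Module ℝ N] (F : ι0 → ι1 → ℝ[X] →ₗ[ℝ] N) (r : ι0 → ℝ)
    (Q : ι1 → ℝ[X]) : ∑ c, (∑ u', r u' • F u' c) (Q c) = ∑ u', r u' • ∑ c, F u' c (Q c) := by
  simp only [LinearMap.sum_apply, LinearMap.smul_apply, smul_sum]
  exact sum_comm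

theorem Ph_nab (hrel : Rel a b l) (hσ : Sig l σ) (Q : ι1 → ℝ[X]) :
    nab (epsM a b l) (Ph σ Q) = Ph σ (nab b Q)
      - Cv (Sum.elim 0 (lv l Q + (a false - a true).mulVec (lv l Q))) := by
  have hcomb : ∀ {κ : Type} [Fintype κ] (r : κ → ℝ) (u : κ → ι0) (c : κ → ι1),
      (∑ k, r k • σ (u k) (c k)) 1 = 0 ∧ ∀ P, (∑ k, r k • σ (u k) (c k)) (X * P)
        = X * (∑ k, r k • σ (u k) (c k)) P + C ((∑ k, r k • l (u k) (c k)) P) := by
    intro κ _ r u c
    refine ⟨by simp [LinearMap.sum_apply, (hσ _ _).1], fun P => ?_⟩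
    simp only [LinearMap.sum_apply, LinearMap.smul_apply, (hσ _ _).2, map_sum, mul_sum,
      smul_eq_C_mul, smul_eq_mul, map_mul]
    rw [← sum_add_distrib]
    exact sum_congr rfl fun k _ => by ring
  funext i
  rcases i with c | u
  · simp [nab, epsM, Fintype.sum_sum_type, Ph, Cv]
  · have hinr : ∀ x : ι1 ⊕ ι0 → ℝ[X],
        nab (epsM a b l) x (Sum.inr u) = th (x (Sum.inr u))
          - ((1 - X) * ∑ u', a false u u' • x (Sum.inr u')
            + X * ∑ u', a true u u' • x (Sum.inr u'))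
          - ∑ c, C (gam a b l u c) * x (Sum.inl c) := by
      intro x
      simp only [nab, epsM, Fintype.sum_sum_type, Matrix.fromBlocks_apply₂₁,
        Matrix.fromBlocks_apply₂₂, Matrix.neg_apply, map_neg, mul_sum, smul_eq_C_mul]
      rw [← sum_add_distrib, sub_sub, sub_eq_add_neg (th _), neg_add, ← sum_neg_distrib,
        ← sum_neg_distrib, add_comm (∑ _ : ι0, _)]
      congr 2
      · exact sum_congr rfl fun c _ => by ring
      · exact sum_congr rfl fun c _ => by ring
    have h4 := sum_congr (rfl : (univ : Finset ι1) = univ) fun c _ =>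
      sigma_id _ _ _ _ _ _ _ _ _ _ (hσ u c) (hcomb (a false u) id fun _ => c)
        (hcomb (a true u) id fun _ => c) (hcomb (fun c' => b false c' c) (fun _ => u) id)
        (hcomb (fun c' => b true c' c) (fun _ => u) id) (hrel u c) (Q c)
    simp only [id] at h4
    rw [hinr]
    simp only [Ph, LinearMap.coe_mk, AddHom.coe_mk, Sum.elim_inr, Sum.elim_inl, Pi.sub_apply, Cv]
    rw [sum_nab, h4]
    have h5 : ∑ c, C (gam a b l u c) * Q c = ∑ c, C (l u c 1
        + ((∑ k, a false u k • l k c) 1 - (∑ k, a true u k • l k c) 1)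
        + ((∑ k, b false k c • l u k) 1 - (∑ k, b true k c • l u k) 1)) * Q c :=
      sum_congr rfl fun c _ => by simp [gam, LinearMap.sum_apply]
    rw [h5]
    simp only [sum_add_distrib, sum_sub_distrib, ← mul_sum, ← map_sum, hsw, th_sum]
    simp only [lv, Pi.add_apply, Matrix.sub_mulVec, Pi.sub_apply, Matrix.mulVec, dotProduct,
      smul_eq_mul]
    ring

theorem lv_nab (hrel : Rel a b l) (Q : ι1 → ℝ[X])
    (h : ∀ g : ℝ[X], g.natDegree ≤ 1 → lv l (g • Q) = 0) : lv l (nab b Q) = 0 := by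
  funext u
  have hd : ∀ g : ℝ[X], g.natDegree ≤ 1 → ∀ u, ∑ c, l u c (g * Q c) = 0 :=
    fun g hg u => congrFun (h g hg) u
  have h4 := sum_congr (rfl : (univ : Finset ι1) = univ) fun c _ => hrel u c (Q c)
  simp only [map_add, sum_add_distrib, sum_const_zero, hsw] at h4
  simp only [hd (1 - 2 * X) (by compute_degree), hd (1 - X) (by compute_degree),
    hd X (by simp), smul_zero, sum_const_zero, add_zero] at h4
  simp only [lv, Pi.zero_apply]
  rw [sum_nab]
  simp only [sum_add_distrib]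
  exact h4

omit [Fintype ι0] in
theorem Ph_mul (hσ : Sig l σ) (k : ℕ) (Q : ι1 → ℝ[X])
    (hQ : ∀ f : ℝ[X], f.natDegree + 1 ≤ k → lv l (f • Q) = 0) :
    ∀ d ≤ k, ∀ f : ℝ[X], f.natDegree ≤ d → Ph σ (f • Q) = f • Ph σ Q := by
  intro d
  have hC : ∀ r : ℝ, Ph σ ((C r : ℝ[X]) • Q) = (C r : ℝ[X]) • Ph σ Q := by
    intro r
    have h1 : ∀ {κ : Type} (x : κ → ℝ[X]), (C r : ℝ[X]) • x = r • x := fun x => by
      funext i; simp [smul_eq_C_mul]
    rw [h1, h1, map_smul]
  induction d with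
  | zero =>
    intro _ f hf
    rw [eq_C_of_natDegree_le_zero hf, hC]
  | succ d ih =>
    intro hd f hf
    have h2 : (divX f).natDegree ≤ d := by
      rw [natDegree_divX_eq_natDegree_tsub_one]; omega
    rw [← X_mul_divX_add f, add_smul, add_smul, map_add, hC, mul_smul, mul_smul, Ph_X hσ,
      ih (by omega) _ h2, hQ _ (by omega)]
    congr 1
    rw [add_eq_left]
    funext i; rcases i with c | u <;> simp [Cv]

/-- Constant column vectors supported on the columns of level above e. -/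
def Gs (ι0 : Type) {ι1 : Type} (ψ : ι1 → ℕ) (e : ℕ) : Submodule ℝ (ι1 ⊕ ι0 → ℝ) where
  carrier := {x | (∀ u, x (Sum.inr u) = 0) ∧ ∀ c, ψ c ≤ e → x (Sum.inl c) = 0}
  add_mem' := by
    rintro x y ⟨h1, h2⟩ ⟨h3, h4⟩
    exact ⟨fun u => by simp [h1, h3], fun c hc => by simp [h2 c hc, h4 c hc]⟩
  zero_mem' := ⟨fun _ => rfl, fun _ _ => rfl⟩
  smul_mem' := by
    rintro r x ⟨h1, h2⟩
    exact ⟨fun u => by simp [h1], fun c hc => by simp [h2 c hc]⟩

theorem lift (hrel : Rel a b l) (hσ : Sig l σ) (hb : b true = b false)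
    (hB : (a false - a true) * (a false - a true) = 0) (ψ : ι1 → ℕ)
    (hψ : ∀ c c', b false c c' ≠ 0 → ψ c' ≤ ψ c) {W : Submodule ℝ (ι1 ⊕ ι0 → ℝ)}
    (hW : St (epsM a b l) W) (e : ℕ) (q : ι1 → ℝ) (hq : Sum.elim q 0 ∈ W)
    (hq' : ∀ c, ψ c ≤ e → q c = 0) (d : ℕ) :
    ∃ (Q : ι1 → ℝ[X]) (q' : ι1 → ℝ), (∀ c, Q c ∈ degreeLT ℝ (d + 1)) ∧ (∀ c, (Q c).coeff d = q c) ∧
      (∀ c, ψ c ≤ e → Q c = 0 ∧ q' c = 0) ∧ Ph σ Q ∈ PW W ∧
      nab b Q = (C (d : ℝ) * (1 - X)) • Q - Cv q' := by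
  have hN : ∀ r : ι1 → ℝ, (∀ c, ψ c ≤ e → r c = 0) → ∀ c, ψ c ≤ e → (b false).mulVec r c = 0 := by
    intro r hr c hc
    refine sum_eq_zero fun c' _ => ?_
    by_cases h : b false c c' = 0
    · simp [h]
    · simp [hr c' ((hψ c c' h).trans hc)]
  have hC : ∀ r : ι1 → ℝ, nab b (Cv r) = Cv ((b false).mulVec r) := fun r => by
    funext c
    unfold Cv
    rw [nab_const_coeff, hb]
    simp
  induction d with
  | zero =>
    refine ⟨Cv q, -(b false).mulVec q, fun c => mem_dl.2 fun m hm => ?_, fun c => by simp [Cv],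
      fun c hc => ⟨by simp [Cv, hq' c hc], by simp [hN q hq' c hc]⟩, ?_, ?_⟩
    · simp only [Cv]; rw [coeff_C, if_neg (by omega)]
    · rw [Ph_C hσ]; exact Cv_mem.2 hq
    · rw [hC]; funext c; simp [Cv]
  | succ d ih =>
    obtain ⟨Q, q', h1, h2, h3, h4, h5⟩ := ih
    have hd : ((d : ℝ) + 1) ≠ 0 := by positivity
    set m := lv l Q with hm
    set B := a false - a true with hBdef
    have h6 : Sum.elim q' (((d : ℝ) + 1) • m + B.mulVec m) ∈ W := by
      rw [← Cv_mem]
      convert (PW W).sub_mem ((PW W).smul_mem (C (d : ℝ) * (1 - X)) h4) (nab_mem_PW hW h4) using 1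
      have h7 : (C (d : ℝ) * (1 - X) : ℝ[X]) • Q = (d : ℝ) • Q - (d : ℝ) • ((X : ℝ[X]) • Q) := by
        funext c; simp [smul_eq_C_mul]; ring
      rw [Ph_nab hrel hσ, h5, map_sub, h7, map_sub, map_smul, map_smul, Ph_X hσ, Ph_C hσ]
      funext i
      rcases i with c | u
      · simp [Cv, smul_eq_C_mul]; ring
      · simp [Cv, smul_eq_C_mul, ← hm, ← hBdef]; ring
    have h7 : Sum.elim (0 : ι1 → ℝ) (B.mulVec m) ∈ W := by
      convert W.smul_mem ((d : ℝ) + 1)⁻¹ (W.sub_mem (hW true _ h6) (hW false _ h6)) using 1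
      have h8 : B.mulVec (B.mulVec m) = 0 := by rw [Matrix.mulVec_mulVec, hB, Matrix.zero_mulVec]
      rw [← Matrix.sub_mulVec]
      have h9 : epsM a b l true - epsM a b l false = Matrix.fromBlocks 0 0 0 B := by
        ext i j
        rcases i with c | u <;> rcases j with c' | u' <;> simp [epsM, hb, hBdef]
        ring
      rw [h9, Matrix.fromBlocks_mulVec]
      funext i
      rcases i with c | u
      · simp
      · simp [Matrix.mulVec_add, Matrix.mulVec_smul, h8]
        field_simp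
    have h8 : Sum.elim (((d : ℝ) + 1)⁻¹ • q') m ∈ W := by
      convert W.smul_mem ((d : ℝ) + 1)⁻¹ (W.sub_mem h6 h7) using 1
      funext i
      rcases i with c | u
      · simp
      · simp; field_simp
    refine ⟨(X : ℝ[X]) • Q + Cv (((d : ℝ) + 1)⁻¹ • q'),
      q' - (b false).mulVec (((d : ℝ) + 1)⁻¹ • q'), fun c => ?_, fun c => ?_, fun c hc => ?_, ?_, ?_⟩
    · refine add_mem (dl_mul (by simp) (h1 c)) (mem_dl.2 fun m hm => ?_)
      show (C _ : ℝ[X]).coeff m = 0
      rw [coeff_C, if_neg (by omega)]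
    · simp only [Pi.add_apply, Pi.smul_apply, smul_eq_mul, Cv, coeff_add, coeff_X_mul, h2]
      rw [coeff_C, if_neg (by omega), add_zero]
    · refine ⟨by simp [Cv, h3 c hc], ?_⟩
      rw [Pi.sub_apply, hN _ (fun c hc => by simp [h3 c hc]) c hc, (h3 c hc).2, sub_zero]
    · rw [map_add, Ph_X hσ, Ph_C hσ, add_assoc]
      refine (PW W).add_mem ((PW W).smul_mem _ h4) ?_
      convert Cv_mem.2 h8 using 1
      funext i; rcases i with c | u <;> simp [Cv, hm]
    · rw [nab_add, nab_smul, h5, hC, th_X]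
      funext c
      have : (C (q' c) : ℝ[X]) = (C (d : ℝ) + 1) * C (((d : ℝ) + 1)⁻¹ * q' c) := by
        rw [← C_1, ← C_add, ← C_mul, mul_inv_cancel_left₀ hd]
      simp only [Pi.add_apply, Pi.sub_apply, Pi.smul_apply, smul_eq_mul, Cv, map_sub, Nat.cast_add,
        Nat.cast_one, map_add, map_one]
      rw [this]
      ring

/-- Column vectors of bounded degree whose extension has coefficients in W. -/
noncomputable def Ls (σ : ι0 → ι1 → ℝ[X] →ₗ[ℝ] ℝ[X]) (ψ : ι1 → ℕ) (n : ℕ)
    (W : Submodule ℝ (ι1 ⊕ ι0 → ℝ)) (d : ℕ) : Submodule ℝ (ι1 → ℝ[X]) :=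
  (Submodule.pi Set.univ fun c => degreeLT ℝ (min d (ψ c * n)))
    ⊓ ((PW W).restrictScalars ℝ).comap (Ph σ)

omit [Fintype ι0] in
theorem mem_Ls {ψ : ι1 → ℕ} {n d : ℕ} {W : Submodule ℝ (ι1 ⊕ ι0 → ℝ)} {Q : ι1 → ℝ[X]} :
    Q ∈ Ls σ ψ n W d ↔ (∀ c, Q c ∈ degreeLT ℝ (min d (ψ c * n))) ∧ Ph σ Q ∈ PW W := by
  simp [Ls, Submodule.mem_pi]

omit [Fintype ι0] in
theorem fd_Ls (ψ : ι1 → ℕ) (n d : ℕ) (W : Submodule ℝ (ι1 ⊕ ι0 → ℝ)) :
    FiniteDimensional ℝ (Ls σ ψ n W d) := by
  let f : Ls σ ψ n W d →ₗ[ℝ] (ι1 → Fin d → ℝ) :=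
    LinearMap.pi fun c => LinearMap.pi fun k => lcoeff ℝ k ∘ₗ LinearMap.proj c ∘ₗ Submodule.subtype _
  refine FiniteDimensional.of_injective f ?_
  rw [← LinearMap.ker_eq_bot, LinearMap.ker_eq_bot']
  intro Q hQ
  ext c m
  by_cases hm : m < d
  · exact congrFun (congrFun hQ c) ⟨m, hm⟩
  · exact mem_dl.1 ((mem_Ls.1 Q.2).1 c) m (by omega)

theorem finrank_Ls (hrel : Rel a b l) (hσ : Sig l σ) (hb : b true = b false)
    (hB : (a false - a true) * (a false - a true) = 0) (ψ : ι1 → ℕ)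
    (hψ : ∀ c c', b false c c' ≠ 0 → ψ c' ≤ ψ c) {W : Submodule ℝ (ι1 ⊕ ι0 → ℝ)}
    (hW : St (epsM a b l) W) (n : ℕ) (hn : 0 < n) (d : ℕ) :
    Module.finrank ℝ (Ls σ ψ n W d)
      = ∑ d' ∈ range d, Module.finrank ℝ ↥(W ⊓ Gs ι0 ψ (d' / n)) := by
  induction d with
  | zero =>
    have := fd_Ls (σ := σ) ψ n 0 W
    rw [sum_range_zero, Submodule.finrank_eq_zero, eq_bot_iff]
    intro Q hQ
    rw [Submodule.mem_bot]
    ext c m
    exact mem_dl.1 ((mem_Ls.1 hQ).1 c) m (by omega)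
  | succ d ih =>
    have := fd_Ls (σ := σ) ψ n (d + 1) W
    have hinr : ∀ Q ∈ Ls σ ψ n W (d + 1), ∀ u, (Ph σ Q (Sum.inr u)).coeff d = 0 := by
      intro Q hQ u
      refine mem_dl.1 (Submodule.sum_mem _ fun c _ => sigma_dl (hσ u c) d _ ?_) d le_rfl
      exact dl_mono (min_le_left _ _) ((mem_Ls.1 hQ).1 c)
    have e1 : Ls σ ψ n W (d + 1) ⊓ LinearMap.ker (cf d ∘ₗ Ph σ) = Ls σ ψ n W d := by
      ext Q
      rw [Submodule.mem_inf, LinearMap.mem_ker]
      constructor
      · rintro ⟨h1, h2⟩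
        refine mem_Ls.2 ⟨fun c => mem_dl.2 fun m hm => ?_, (mem_Ls.1 h1).2⟩
        by_cases h : m = d
        · rw [h]; exact congrFun h2 (Sum.inl c)
        · exact mem_dl.1 ((mem_Ls.1 h1).1 c) m (by omega)
      · intro h1
        have h2 : Q ∈ Ls σ ψ n W (d + 1) :=
          mem_Ls.2 ⟨fun c => dl_mono (by omega) ((mem_Ls.1 h1).1 c), (mem_Ls.1 h1).2⟩
        refine ⟨h2, ?_⟩
        funext i
        rcases i with c | u
        · exact mem_dl.1 ((mem_Ls.1 h1).1 c) d (min_le_left _ _)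
        · exact hinr Q h2 u
    have e2 : (Ls σ ψ n W (d + 1)).map (cf d ∘ₗ Ph σ) = W ⊓ Gs ι0 ψ (d / n) := by
      ext x
      constructor
      · rintro ⟨Q, hQ, rfl⟩
        refine ⟨(mem_Ls.1 hQ).2 d, hinr Q hQ, fun c hc => ?_⟩
        refine mem_dl.1 ((mem_Ls.1 hQ).1 c) d ((min_le_right _ _).trans ?_)
        exact (Nat.le_div_iff_mul_le hn).1 hc
      · rintro ⟨h1, h2, h3⟩
        have hx : x = Sum.elim (fun c => x (Sum.inl c)) 0 := by
          funext i; rcases i with c | u <;> simp [h2]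
        obtain ⟨Q, q', h4, h5, h6, h7, -⟩ := lift hrel hσ hb hB ψ hψ hW (d / n)
          (fun c => x (Sum.inl c)) (hx ▸ h1) h3 d
        have hQ : Q ∈ Ls σ ψ n W (d + 1) := by
          refine mem_Ls.2 ⟨fun c => ?_, h7⟩
          by_cases hc : ψ c ≤ d / n
          · rw [(h6 c hc).1]; exact zero_mem _
          · have := (Nat.div_lt_iff_lt_mul hn).1 (not_le.1 hc)
            exact dl_mono (by omega) (h4 c)
        refine ⟨Q, hQ, ?_⟩
        funext i
        rcases i with c | u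
        · exact h5 c
        · rw [h2]; exact hinr Q hQ u
    rw [sum_range_succ, ← ih, finrank_split _ (cf d ∘ₗ Ph σ), add_comm, e1, e2]

end hn

end ZOdd

end

-- part HN2
section
/-!
The maximal destabilising constant subspace.
-/

set_option autoImplicit false

namespace ZOdd

open Finset Polynomial

section hn

variable {ι0 ι1 : Type} [Fintype ι0] [Fintype ι1]

omit [Fintype ι0] in
theorem finrank_Gs (ψ : ι1 → ℕ) (e : ℕ) (W : Submodule ℝ (ι1 ⊕ ι0 → ℝ)) :
    Module.finrank ℝ ↥(W ⊓ Gs ι0 ψ e) ≤ (univ.filter fun c => e < ψ c).card := by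
  classical
  let f : ↥(W ⊓ Gs ι0 ψ e) →ₗ[ℝ] ({c // e < ψ c} → ℝ) :=
    LinearMap.pi fun c => LinearMap.proj (Sum.inl c.1) ∘ₗ Submodule.subtype _
  have hf : Function.Injective f := by
    rw [← LinearMap.ker_eq_bot, LinearMap.ker_eq_bot']
    intro x hx
    ext i
    rcases i with c | u
    · by_cases hc : e < ψ c
      · exact congrFun hx ⟨c, hc⟩
      · exact x.2.2.2 c (not_lt.1 hc)
    · exact x.2.2.1 u
  have := LinearMap.finrank_le_finrank_of_injective hf
  rwa [Module.finrank_fintype_fun_eq_card, Fintype.card_subtype] at this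

theorem exists_max {ι : Type} [Fintype ι] (ε : Bool → Matrix ι ι ℝ) (Ψ : ℕ)
    (G : ℕ → Submodule ℝ (ι → ℝ)) :
    ∃ W0 : Submodule ℝ (ι → ℝ), St ε W0 ∧
      Module.finrank ℝ W0 ≤ ∑ e ∈ range Ψ, Module.finrank ℝ ↥(W0 ⊓ G e) ∧
      ∀ W, St ε W → ∑ e ∈ range Ψ, Module.finrank ℝ ↥(W0 ⊓ G e) + Module.finrank ℝ W
        ≤ ∑ e ∈ range Ψ, Module.finrank ℝ ↥(W ⊓ G e) + Module.finrank ℝ W0 → W ≤ W0 := by
  let g : Submodule ℝ (ι → ℝ) → ℕ := fun W => ∑ e ∈ range Ψ, Module.finrank ℝ ↥(W ⊓ G e)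
  let r : Submodule ℝ (ι → ℝ) → ℕ := fun W => Module.finrank ℝ W
  set N := Fintype.card ι with hN
  have hr : ∀ W, r W ≤ N := fun W =>
    (Submodule.finrank_le W).trans (by rw [Module.finrank_fintype_fun_eq_card])
  have hg : ∀ W, g W ≤ Ψ * N := fun W =>
    (sum_le_card_nsmul _ _ N fun e _ => hr _).trans (by simp)
  have hbot : St ε ⊥ := fun β c hc => by
    rw [Submodule.mem_bot] at hc ⊢
    rw [hc, Matrix.mulVec_zero]
  obtain ⟨z, ⟨W0, hW0, rfl⟩, hz⟩ := Int.exists_greatest_of_bdd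
    (P := fun z => ∃ W, St ε W ∧ z = ((N : ℤ) + 1) * ((g W : ℤ) - r W) + r W)
    ⟨((N : ℤ) + 1) * (Ψ * N) + N, by
      rintro z ⟨W, -, rfl⟩
      have h1 : (r W : ℤ) ≤ N := by exact_mod_cast hr W
      have h2 : (g W : ℤ) ≤ Ψ * N := by exact_mod_cast hg W
      have h3 : (0 : ℤ) ≤ r W := by positivity
      nlinarith⟩ ⟨_, ⊥, hbot, rfl⟩
  have h1 : ∀ W, St ε W → g W + r W0 ≤ g W0 + r W := by
    intro W hW
    have h2 := hz _ ⟨W, hW, rfl⟩
    have h3 : (r W0 : ℤ) ≤ N := by exact_mod_cast hr W0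
    have h4 : (0 : ℤ) ≤ r W := by positivity
    by_contra h5
    have h6 : (g W0 : ℤ) - r W0 + 1 ≤ g W - r W := by omega
    nlinarith
  refine ⟨W0, hW0, ?_, fun W hW h => ?_⟩
  · have := h1 ⊥ hbot
    have h2 : r ⊥ = 0 := finrank_bot ℝ _
    show r W0 ≤ g W0
    omega
  · have hs : St ε (W0 ⊔ W) := by
      intro β c hc
      obtain ⟨x, hx, y, hy, rfl⟩ := Submodule.mem_sup.1 hc
      rw [Matrix.mulVec_add]
      exact Submodule.add_mem_sup (hW0 β x hx) (hW β y hy)
    have hi : St ε (W0 ⊓ W) := fun β c hc => ⟨hW0 β c hc.1, hW β c hc.2⟩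
    have h2 : g W0 + g W ≤ g (W0 ⊔ W) + g (W0 ⊓ W) := by
      simp only [g, ← sum_add_distrib]
      refine sum_le_sum fun e _ => ?_
      rw [← Submodule.finrank_sup_add_finrank_inf_eq]
      refine add_le_add (Submodule.finrank_mono ?_) (Submodule.finrank_mono ?_)
      · exact sup_le (inf_le_inf_right _ le_sup_left) (inf_le_inf_right _ le_sup_right)
      · exact fun x hx => ⟨⟨hx.1.1, hx.2.1⟩, hx.1.2⟩
    have h3 : r (W0 ⊔ W) + r (W0 ⊓ W) = r W0 + r W := Submodule.finrank_sup_add_finrank_inf_eq _ _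
    have h4 := h1 _ hi
    have h5 := hz _ ⟨_, hs, rfl⟩
    have h6 : g W0 + r W ≤ g W + r W0 := h
    have h7 : (g W0 : ℤ) - r W0 ≤ g (W0 ⊔ W) - r (W0 ⊔ W) := by omega
    have h8 : (r (W0 ⊔ W) : ℤ) ≤ r W0 := by nlinarith
    have h9 : W0 = W0 ⊔ W := Submodule.eq_of_le_of_finrank_le le_sup_left (by exact_mod_cast h8)
    rw [h9]
    exact le_sup_right

theorem graded_of_scale {ι : Type} [Fintype ι] (wt : ι → ℕ) (W : Submodule ℝ (ι → ℝ))
    (h : ∀ x ∈ W, (fun i => (2 : ℝ) ^ wt i * x i) ∈ W) :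
    ∀ x ∈ W, ∀ d, (fun i => if wt i = d then x i else 0) ∈ W := by
  classical
  intro x hx d
  have h1 : ∀ S : Finset ℕ, (fun i => (∏ d' ∈ S, ((2 : ℝ) ^ wt i - 2 ^ d')) * x i) ∈ W := by
    intro S
    induction S using Finset.induction_on with
    | empty => simpa using hx
    | insert d' S hd ih =>
      convert W.sub_mem (h _ ih) (W.smul_mem ((2 : ℝ) ^ d') ih) using 1
      funext i
      simp only [prod_insert hd, Pi.sub_apply, Pi.smul_apply, smul_eq_mul]
      ring
  have h2 : ∏ d' ∈ (range (univ.sup wt + 1)).erase d, ((2 : ℝ) ^ d - 2 ^ d') ≠ 0 := by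
    refine prod_ne_zero_iff.2 fun d' hd' => sub_ne_zero.2 fun h3 => ?_
    exact (mem_erase.1 hd').1 (pow_right_injective₀ (by norm_num) (by norm_num) h3).symm
  convert W.smul_mem (∏ d' ∈ (range (univ.sup wt + 1)).erase d, ((2 : ℝ) ^ d - 2 ^ d'))⁻¹
    (h1 ((range (univ.sup wt + 1)).erase d)) using 1
  funext i
  simp only [Pi.smul_apply, smul_eq_mul]
  split_ifs with hi
  · rw [hi, inv_mul_cancel_left₀ h2]
  · rw [prod_eq_zero (f := fun d' => (2 : ℝ) ^ wt i - 2 ^ d') (i := wt i) (mem_erase.2 ⟨hi,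
      mem_range.2 (Nat.lt_succ_of_le (le_sup (f := wt) (mem_univ i)))⟩) (sub_self _)]
    simp

variable {a : Bool → Matrix ι0 ι0 ℝ} {b : Bool → Matrix ι1 ι1 ℝ}
  {l : ι0 → ι1 → ℝ[X] →ₗ[ℝ] ℝ}

theorem hn_core [DecidableEq ι0] [DecidableEq ι1] (hrel : Rel a b l) (hb : b true = b false)
    (hB : (a false - a true) * (a false - a true) = 0) (wt : ι1 ⊕ ι0 → ℕ)
    (hε : ∀ β i j, epsM a b l β i j ≠ 0 → wt i + 1 = wt j) (φ : ι1 → ℕ)
    (hφ : ∀ c c', b false c c' ≠ 0 → φ c' ≤ φ c) :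
    ∃ W : Submodule ℝ (ι1 ⊕ ι0 → ℝ), St (epsM a b l) W ∧
      (∀ x ∈ W, ∀ d, (fun i => if wt i = d then x i else 0) ∈ W) ∧
      (∀ U : Finset ι0, (∀ u ∈ U, Pi.single (Sum.inr u) 1 ∈ W) → U.card ≤ ∑ c, φ c) ∧
      ∃ n1, ∀ n, n1 ≤ n → ∀ Q : ι1 → ℝ[X], (∀ c, Q c ∈ degreeLT ℝ (φ c * n)) →
        (∀ i < n, lv l ((X ^ i : ℝ[X]) • Q) = 0) → ∀ d, ∃ p, Sum.elim (cf d Q) p ∈ W := by
  choose σ hσ using fun u c => exists_sigma (l u c)
  have hσ : Sig l σ := hσ
  set ψ : ι1 → ℕ := fun c => φ c + 1 with hψdef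
  set Ψ := univ.sup φ + 1 with hΨ
  have hψΨ : ∀ c, ψ c ≤ Ψ := fun c => Nat.succ_le_succ (le_sup (f := φ) (mem_univ c))
  obtain ⟨W0, hW0, h0, hmax⟩ := exists_max (epsM a b l) Ψ (Gs ι0 ψ)
  refine ⟨W0, hW0, graded_of_scale wt W0 fun x hx => ?_, fun U hU => ?_, ?_⟩
  · let τ : (ι1 ⊕ ι0 → ℝ) ≃ₗ[ℝ] (ι1 ⊕ ι0 → ℝ) := LinearEquiv.piCongrRight fun i =>
      LinearEquiv.smulOfNeZero ℝ ℝ ((2 : ℝ) ^ wt i) (by positivity)
    have hτ : ∀ x i, τ x i = 2 ^ wt i * x i := fun x i => rfl
    have h1 : ∀ e, W0.map (τ : _ →ₗ[ℝ] _) ⊓ Gs ι0 ψ e = (W0 ⊓ Gs ι0 ψ e).map (τ : _ →ₗ[ℝ] _) := by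
      intro e
      ext y
      constructor
      · rintro ⟨⟨x, hx, rfl⟩, h2, h3⟩
        refine ⟨x, ⟨hx, fun u => ?_, fun c hc => ?_⟩, rfl⟩
        · exact (mul_eq_zero.1 ((hτ x _).symm.trans (h2 u))).resolve_left (by positivity)
        · exact (mul_eq_zero.1 ((hτ x _).symm.trans (h3 c hc))).resolve_left (by positivity)
      · rintro ⟨x, ⟨hx, h2, h3⟩, rfl⟩
        refine ⟨⟨x, hx, rfl⟩, fun u => ?_, fun c hc => ?_⟩
        · exact (hτ x _).trans (by rw [h2, mul_zero])
        · exact (hτ x _).trans (by rw [h3 c hc, mul_zero])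
    refine hmax (W0.map (τ : _ →ₗ[ℝ] _)) ?_ ?_ ⟨x, hx, rfl⟩
    · rintro β y ⟨x, hx, rfl⟩
      refine ⟨(2 : ℝ) • (epsM a b l β).mulVec x, W0.smul_mem _ (hW0 β x hx), ?_⟩
      funext i
      show τ _ i = (epsM a b l β).mulVec (τ x) i
      simp only [hτ, Pi.smul_apply, smul_eq_mul, Matrix.mulVec, dotProduct, mul_sum]
      refine sum_congr rfl fun j _ => ?_
      by_cases h : epsM a b l β i j = 0
      · simp [h]
      · rw [← hε β i j h]; ring
    · rw [LinearEquiv.finrank_map_eq]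
      refine Nat.add_le_add_right (sum_le_sum fun e _ => ?_) _
      rw [h1, LinearEquiv.finrank_map_eq]
  · let f : (ι1 ⊕ ι0 → ℝ) →ₗ[ℝ] (U → ℝ) := LinearMap.pi fun u => LinearMap.proj (Sum.inr u.1)
    have h1 := finrank_split W0 f
    have h2 : W0.map f = ⊤ := by
      rw [eq_top_iff]
      intro y _
      rw [pi_eq_sum_univ' y]
      refine Submodule.sum_mem _ fun u _ => Submodule.smul_mem _ _ ⟨_, hU u u.2, ?_⟩
      funext u'
      show (Pi.single (Sum.inr u.1) (1 : ℝ) : ι1 ⊕ ι0 → ℝ) (Sum.inr u'.1) = _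
      by_cases h : u' = u
      · subst h; simp
      · rw [Pi.single_eq_of_ne h, Pi.single_eq_of_ne]
        exact fun h' => h (Subtype.ext (Sum.inr_injective h'))
    have h3 : Module.finrank ℝ ↥(W0 ⊓ Gs ι0 ψ 0) ≤ Module.finrank ℝ ↥(W0 ⊓ LinearMap.ker f) :=
      Submodule.finrank_mono fun x hx => ⟨hx.1, funext fun u => hx.2.1 u.1⟩
    rw [h2, finrank_top, Module.finrank_fintype_fun_eq_card, Fintype.card_coe] at h1
    rw [hΨ, sum_range_succ'] at h0
    have h4 : ∑ e ∈ range (univ.sup φ), Module.finrank ℝ ↥(W0 ⊓ Gs ι0 ψ (e + 1)) ≤ ∑ c, φ c := by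
      refine (sum_le_sum fun e _ => finrank_Gs ψ (e + 1) W0).trans ?_
      simp only [card_filter]
      rw [sum_comm]
      refine sum_le_sum fun c _ => ?_
      rw [← card_filter]
      refine (card_le_card fun e he => ?_).trans (card_range (φ c)).le
      have := (mem_filter.1 he).2
      simp only [hψdef] at this
      exact mem_range.2 (by omega)
    omega
  · set N := Fintype.card (ι1 ⊕ ι0) with hN
    refine ⟨N * N + N + 1, fun n hn Q hQ hz d => ?_⟩
    have hlv : ∀ Q Q' : ι1 → ℝ[X], lv l (Q - Q') = lv l Q - lv l Q' := fun Q Q' => by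
      funext u; simp [lv]
    obtain ⟨W', μ, e, hμ, hW', hle, heK, heP, hK0, hind, hrk⟩ := sat_core (epsM a b l) wt
      (fun β i j h => by have := hε β i j h; omega) W0 hW0
      (fun j => {x | j ≤ N → ∃ Q, x = Ph σ Q ∧ (∀ c, Q c ∈ degreeLT ℝ (φ c * n + j)) ∧
        ∀ f : ℝ[X], f.natDegree + j + 1 ≤ n → lv l (f • Q) = 0}) (by
        intro j x hx hj
        obtain ⟨Q, h1, h2, h3⟩ := hx (by omega)
        exact ⟨Q, h1, fun c => dl_mono (by omega) (h2 c), fun f hf => h3 f (by omega)⟩) (by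
        intro j x hx hj
        obtain ⟨Q, rfl, h2, h3⟩ := hx (by omega)
        refine ⟨nab b Q, ?_, fun c => ?_, fun f hf => ?_⟩
        · have h4 : lv l Q = 0 := by simpa using h3 1 (by simp; omega)
          rw [Ph_nab hrel hσ, h4]
          funext i; rcases i with c | u <;> simp [Cv]
        · refine add_mem (dl_th (h2 c)) (Submodule.sum_mem _ fun c' _ => ?_)
          by_cases h : b false c c' = 0
          · simp [hb, h]
          · refine dl_mono ?_ (dl_mul (k := 1) (by compute_degree) (h2 c'))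
            have := Nat.mul_le_mul_right n (hφ c c' h)
            omega
        · have h4 : f • nab b Q = nab b (f • Q) - th f • Q := by rw [nab_smul]; abel
          rw [h4, hlv, h3 (th f) (by have := natDegree_th_le f; omega), sub_zero]
          refine lv_nab hrel _ fun g hg => ?_
          rw [← mul_smul]
          refine h3 _ ?_
          have := natDegree_mul_le (p := g) (q := f)
          omega)
    choose Qe he1 he2 he3 using fun k => heK k hμ
    obtain ⟨r, hr⟩ : ∃ r, n = N + r + 1 := ⟨n - N - 1, by omega⟩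
    have hdeg : ∀ c : degreeLT ℝ (r + 1), (c : ℝ[X]).natDegree ≤ r := fun c =>
      natDegree_le_iff_coeff_eq_zero.2 fun m hm => mem_dl.1 c.2 m hm
    have hmul : ∀ (c : degreeLT ℝ (r + 1)) k, Ph σ ((c : ℝ[X]) • Qe k) = (c : ℝ[X]) • e k := by
      intro c k
      rw [he1 k]
      exact Ph_mul hσ (n - μ) _ (fun f hf => he3 k f (by omega)) r (by omega) _ (hdeg c)
    let Θ : (Ls σ ψ n W0 (Ψ * n) × (Fin μ → degreeLT ℝ (r + 1))) →ₗ[ℝ] (ι1 → ℝ[X]) :=
      LinearMap.coprod (Submodule.subtype _) (∑ k,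
        (LinearMap.toSpanSingleton ℝ[X] _ (Qe k)).restrictScalars ℝ ∘ₗ Submodule.subtype _
          ∘ₗ LinearMap.proj k)
    have hΘ : ∀ y, Θ y = y.1 + ∑ k, (y.2 k : ℝ[X]) • Qe k := fun y => by
      simp [Θ, LinearMap.sum_apply]
    have hPΘ : ∀ y, Ph σ (Θ y) = Ph σ y.1 + ∑ k, (y.2 k : ℝ[X]) • e k := fun y => by
      rw [hΘ, map_add, map_sum]
      simp only [hmul]
    have hmem : ∀ y, Θ y ∈ Ls σ ψ n W' (Ψ * n) := by
      intro y
      have h1 := mem_Ls.1 y.1.2
      refine mem_Ls.2 ⟨fun c => ?_, ?_⟩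
      · rw [hΘ, Pi.add_apply, Finset.sum_apply]
        refine add_mem (h1.1 c) (Submodule.sum_mem _ fun k _ => ?_)
        refine dl_mono ?_ (dl_mul (hdeg _) (he2 k c))
        have h2 := Nat.mul_le_mul_right n (hψΨ c)
        have h3 : ψ c * n = φ c * n + n := by simp only [hψdef]; ring
        omega
      · rw [hPΘ]
        exact add_mem (fun d => hle (h1.2 d))
          (Submodule.sum_mem _ fun k _ => Submodule.smul_mem _ _ (heP k))
    have hinj : Function.Injective (Θ.codRestrict _ hmem) := by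
      rw [← LinearMap.ker_eq_bot, LinearMap.ker_eq_bot']
      intro y hy
      have h1 : Θ y = 0 := congrArg Subtype.val hy
      have h2 := hPΘ y
      rw [h1, map_zero] at h2
      have h3 := hind (fun k => y.2 k) (by
        rw [eq_neg_of_add_eq_zero_right h2.symm]
        exact neg_mem (mem_Ls.1 y.1.2).2)
      rw [hΘ] at h1
      simp only [h3, zero_smul, sum_const_zero, add_zero] at h1
      exact Prod.ext (Subtype.ext h1) (funext fun k => Subtype.ext (h3 k))
    have := fd_Ls (σ := σ) ψ n (Ψ * n) W0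
    have := fd_Ls (σ := σ) ψ n (Ψ * n) W'
    have h1 := LinearMap.finrank_le_finrank_of_injective hinj
    have hψ : ∀ c c', b false c c' ≠ 0 → ψ c' ≤ ψ c := fun c c' h => Nat.succ_le_succ (hφ c c' h)
    rw [Module.finrank_prod, Module.finrank_pi_fintype,
      finrank_Ls hrel hσ hb hB ψ hψ hW0 n (by omega), finrank_Ls hrel hσ hb hB ψ hψ hW' n (by omega),
      sum_div_range (fun e => Module.finrank ℝ ↥(W0 ⊓ Gs ι0 ψ e)) n Ψ (by omega),
      sum_div_range (fun e => Module.finrank ℝ ↥(W' ⊓ Gs ι0 ψ e)) n Ψ (by omega)] at h1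
    simp only [Module.finrank_eq_card_basis (degreeLT.basis ℝ (r + 1)), Fintype.card_fin, sum_const,
      card_univ, smul_eq_mul] at h1
    have h2 : W' ≤ W0 := by
      refine hmax W' hW' ?_
      generalize ∑ e ∈ range Ψ, Module.finrank ℝ ↥(W0 ⊓ Gs ι0 ψ e) = g0 at h1 ⊢
      generalize ∑ e ∈ range Ψ, Module.finrank ℝ ↥(W' ⊓ Gs ι0 ψ e) = g1 at h1 ⊢
      by_contra h3
      have h4 : g1 + 1 ≤ g0 + μ := by omega
      have h5 := Nat.mul_le_mul_left n h4
      have h6 : μ * N ≤ N * N := Nat.mul_le_mul_right N hμ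
      have h7 : n * μ = μ * (r + 1) + μ * N := by rw [hr]; ring
      rw [mul_add, mul_add] at h5
      omega
    have h3 := hK0 (Ph σ Q) fun _ => ⟨Q, rfl, hQ, fun f hf => ?_⟩
    · refine ⟨fun u => cf d (Ph σ Q) (Sum.inr u), ?_⟩
      convert h2 (h3 d) using 1
      funext i; rcases i with c | u <;> rfl
    · funext u
      rw [as_sum_range' f n (by omega)]
      simp only [lv, sum_smul, Finset.sum_apply, map_sum, Pi.zero_apply]
      rw [sum_comm]
      refine sum_eq_zero fun i hi => ?_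
      have := congrFun (hz i (mem_range.1 hi)) u
      simp only [lv, Pi.smul_apply, smul_eq_mul, Pi.zero_apply] at this
      simp only [← C_mul_X_pow_eq_monomial, ← smul_eq_C_mul, Pi.smul_apply, smul_eq_mul,
        smul_mul_assoc, map_smul, ← mul_sum, this, mul_zero]

end hn

end ZOdd

end
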