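import Pool.Agent.MP_f3dc73_nt.Z31.A
import Pool.Agent.MP_f3dc73_nt.Z31.B

-- part Gen
section
/-!
The concrete system and its transversality.
-/

set_option autoImplicit false

namespace ZOdd

open Finset Polynomial

section abs

variable {ι0 ι1 : Type} [Fintype ι0] [Fintype ι1]

/-- The functionals attached to a sequence of moment matrices. -/
noncomputable def lG (G : ℕ → Matrix ι0 ι1 ℝ) (u : ι0) (c : ι1) : ℝ[X] →ₗ[ℝ] ℝ :=
  (basisMonomials ℝ).constr ℝ fun t => G t u c

omit [Fintype ι0] [Fintype ι1] in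
theorem lG_pow (G : ℕ → Matrix ι0 ι1 ℝ) (u : ι0) (c : ι1) (t : ℕ) : lG G u c (X ^ t) = G t u c := by
  have := (basisMonomials ℝ).constr_basis ℝ (fun t => G t u c) t
  rw [coe_basisMonomials] at this
  rw [X_pow_eq_monomial]
  exact this

theorem rel_of_rec (G : ℕ → Matrix ι0 ι1 ℝ) (a0 B : Matrix ι0 ι0 ℝ) (N : Matrix ι1 ι1 ℝ)
    (h : ∀ (t : ℕ) u c, ((t : ℝ) + 2) * G (t + 1) u c + ∑ u', B u u' * G (t + 1) u' c
      = ((t : ℝ) + 1) * G t u c + ∑ u', a0 u u' * G t u' c + ∑ c', N c' c * G t u c') :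
    Rel (fun β => cond β (a0 - B) a0) (fun _ => N) (lG G) := by
  intro u c P
  induction P using Polynomial.induction_on' with
  | add p q hp hq =>
    simp only [th_add, mul_add, map_add] at hp hq ⊢
    linear_combination hp + hq
  | monomial n x =>
    have e0 : (monomial n x : ℝ[X]) = C x * X ^ n := C_mul_X_pow_eq_monomial.symm
    have e1 : th (monomial n x) + (1 - 2 * X) * monomial n x
        = (x * (n + 1)) • X ^ n - (x * (n + 2)) • X ^ (n + 1) := by
      have : X * derivative (X ^ n : ℝ[X]) = C (n : ℝ) * X ^ n := by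
        cases n with
        | zero => simp
        | succ n => rw [derivative_X_pow]; simp; ring
      rw [e0]
      simp only [th, derivative_C_mul, smul_eq_C_mul, map_mul, map_add, map_one, map_ofNat]
      linear_combination (1 - X) * C x * this
    have e2 : (1 - X) * monomial n x = x • X ^ n - x • (X ^ (n + 1) : ℝ[X]) := by
      rw [e0]; simp only [smul_eq_C_mul]; ring
    have e3 : X * monomial n x = x • (X ^ (n + 1) : ℝ[X]) := by
      rw [e0]; simp only [smul_eq_C_mul]; ring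
    rw [e1, e2, e3]
    simp only [map_sub, map_smul, LinearMap.sum_apply, LinearMap.smul_apply, lG_pow, smul_eq_mul,
      cond_true, cond_false, Matrix.sub_apply, sub_mul, sum_sub_distrib]
    linear_combination (-x) * h n u c

omit [Fintype ι0] [Fintype ι1] in
/-- The matrix of a map defined on a subset. -/
noncomputable def pmat {ι : Type} [DecidableEq ι] (f : ι → Option ι) : Matrix ι ι ℝ :=
  Matrix.of fun r r' => if f r = some r' then 1 else 0

theorem pmat_sum {ι : Type} [Fintype ι] [DecidableEq ι] (f : ι → Option ι) (r : ι) (g : ι → ℝ) :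
    ∑ r', pmat f r r' * g r' = (f r).elim 0 g := by
  simp only [pmat, Matrix.of_apply]
  cases f r with
  | none => simp
  | some r0 => simp

end abs

/-- Row labels. -/
abbrev I0 (a : ℕ) : Type := Fin a × Fin a × Fin a

/-- Column labels. -/
abbrev I1 (δ K w : ℕ) : Type := (Fin δ × Fin K) × Fin (w + 1)

/-- Lowering the jet order of a row. -/
def du {a : ℕ} (r : I0 a) : Option (I0 a) :=
  if (r.2.1 : ℕ) = 0 then none else some (r.1, ⟨r.2.1 - 1, by omega⟩, r.2.2)

/-- Lowering the type of a row. -/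
def di {a : ℕ} (r : I0 a) : Option (I0 a) :=
  if 2 ≤ (r.2.2 : ℕ) then some (r.1, r.2.1, ⟨r.2.2 - 1, by omega⟩) else none

/-- From type one to type zero. -/
def d1 {a : ℕ} (r : I0 a) : Option (I0 a) :=
  if (r.2.2 : ℕ) = 1 then some (r.1, r.2.1, ⟨0, r.1.pos⟩) else none

/-- Lowering the jet order of a column. -/
def dv {δ K w : ℕ} (c : I1 δ K w) : Option (I1 δ K w) :=
  if (c.2 : ℕ) = 0 then none else some (c.1, ⟨c.2 - 1, by omega⟩)

/-- The stacked moment matrices. -/
noncomputable def Gm {a δ K w : ℕ} (dd : ℕ → Fin δ × Fin K → ℕ → ℕ → ℝ) (t : ℕ) :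
    Matrix (I0 a) (I1 δ K w) ℝ :=
  Matrix.of fun r c => (((r.2.1 : ℕ) + c.2).choose r.2.1 : ℝ)
    * mom (dd r.1 c.1) t r.2.2 (r.2.1 + c.2)

theorem pascal_sh (u v : ℕ) (f : ℕ → ℝ) : ((u + v).choose u : ℝ) * sh f (u + v)
    = (if u = 0 then 0 else ((u - 1 + v).choose (u - 1) : ℝ) * f (u - 1 + v))
      + if v = 0 then 0 else ((u + (v - 1)).choose u : ℝ) * f (u + (v - 1)) := by
  rcases u with _ | u <;> rcases v with _ | v
  · simp [sh]
  · simp [sh]
  · simp [sh]
  · have e : u + 1 + (v + 1) = u + (v + 1) + 1 := by ring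
    have e' : u + 1 + v = u + (v + 1) := by ring
    simp only [sh, Nat.add_sub_cancel, e, e', Nat.succ_ne_zero, if_false, Nat.choose_succ_succ']
    push_cast
    ring

section conc

variable {a δ K w : ℕ} (dd : ℕ → Fin δ × Fin K → ℕ → ℕ → ℝ)

theorem Gm_rel : Rel (fun β => cond β (pmat du + pmat di - pmat d1) (pmat du + pmat di))
    (fun _ => (pmat dv).transpose) (lG (Gm (a := a) (w := w) dd)) := by
  refine rel_of_rec _ _ _ _ fun t r c => ?_
  obtain ⟨j, u, i⟩ := r
  obtain ⟨c, v⟩ := c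
  have ht : ((t : ℝ) + 2) ≠ 0 := by positivity
  have h1 := pascal_sh u v (mom (dd j c) t i)
  simp only [Matrix.add_apply, add_mul, sum_add_distrib, Matrix.transpose_apply, pmat_sum, du, di,
    d1, dv]
  have h2 : ((t : ℝ) + 2) * mom (dd j c) (t + 1) i (u + v) = ((t : ℝ) + 1) * mom (dd j c) t i (u + v)
      + sh (mom (dd j c) t i) (u + v) + if (i : ℕ) = 0 then 0 else if (i : ℕ) = 1
        then -pm (dd j c) (t + 1) (u + v) else mom (dd j c) t (i - 1) (u + v) := by
    rw [mom, mul_div_cancel₀ _ ht]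
  by_cases hi0 : (i : ℕ) = 0
  · simp only [hi0, if_true] at h1 h2
    split_ifs at h1 ⊢ <;> first
      | omega
      | (simp only [Option.elim, Gm, Matrix.of_apply, hi0]
         linear_combination (((u : ℕ) + v).choose u : ℝ) * h2 + h1)
  · by_cases hi1 : (i : ℕ) = 1
    · simp only [hi1, if_true, one_ne_zero, if_false] at h1 h2
      split_ifs at h1 ⊢ <;> first
        | omega
        | (simp only [Option.elim, Gm, Matrix.of_apply, hi1, mom_zero_eq]
           linear_combination (((u : ℕ) + v).choose u : ℝ) * h2 + h1)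
    · simp only [hi0, hi1, if_false] at h2
      split_ifs at h1 ⊢ <;> first
        | omega
        | (simp only [Option.elim, Gm, Matrix.of_apply]
           linear_combination (((u : ℕ) + v).choose u : ℝ) * h2 + h1)

theorem Gm_gam (r : I0 a) (c : I1 δ K w) :
    gam (fun β => cond β (pmat du + pmat di - pmat d1) (pmat du + pmat di))
      (fun _ => (pmat dv).transpose) (lG (Gm dd)) r c
      = (((r.2.1 : ℕ) + c.2).choose r.2.1 : ℝ) * dd r.1 c.1 r.2.2 (r.2.1 + c.2) := by
  have h1 : ∀ (r : I0 a) (c : I1 δ K w), lG (Gm dd) r c 1 = Gm dd 0 r c := fun r c => by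
    rw [← pow_zero X, lG_pow]
  simp only [gam, Matrix.of_apply, h1, cond_true, cond_false, Matrix.sub_apply, sub_mul,
    sum_sub_distrib, sub_sub_cancel, sub_self, add_zero, pmat_sum, d1]
  split_ifs with h
  · simp only [Option.elim, Gm, Matrix.of_apply, mom, h]
    simp
    ring
  · simp [Gm, mom, h]

theorem generate (ha : 2 ≤ a) (hw : 2 * a ≤ w) (hK : 3 * a ≤ K) (p : ℝ) (hp : p ≠ 0)
    (ev : Fin δ × Fin K → ℝ) (c0 : ℕ → ℝ) (h00 : ∀ j c, dd j c 0 0 = 0)
    (hev : ∀ j < a, ∀ m ≤ w + a, ∑ c, ev c * dd j c 0 m = p ^ j * c0 m)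
    (hc0 : ∀ m < 2 * a, c0 (m + 1) = 0) (hc1 : c0 (2 * a + 1) ≠ 0)
    (W : Submodule ℝ (I1 δ K w ⊕ I0 a → ℝ))
    (hW : St (epsM (fun β => cond β (pmat du + pmat di - pmat d1) (pmat du + pmat di))
      (fun _ => (pmat dv).transpose) (lG (Gm dd))) W)
    (hgr : ∀ x ∈ W, ∀ d, (fun i => if Sum.elim (fun c : I1 δ K w => c.2 + K - c.1.2)
      (fun r : I0 a => K - (r.1 + r.2.1 + r.2.2)) i = d then x i else 0) ∈ W)
    (y : Fin (w + 1) → ℝ) (hy : ∀ v : Fin (w + 1), (v : ℕ) < 3 * a → y v = 0) (hy0 : y ≠ 0)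
    (q : I0 a → ℝ) (hq : Sum.elim (fun c : I1 δ K w => ev c.1 * y c.2) q ∈ W) (r : I0 a)
    (hr : 1 ≤ (r.2.2 : ℕ)) : Pi.single (Sum.inr r) 1 ∈ W := by
  set ε := epsM (fun β => cond β (pmat du + pmat di - pmat d1) (pmat du + pmat di))
      (fun _ => (pmat dv).transpose) (lG (Gm (a := a) (w := w) dd)) with hε
  have hl : ∀ β (x : I1 δ K w ⊕ I0 a → ℝ) c,
      (ε β).mulVec x (Sum.inl c) = ∑ c', pmat dv c' c * x (Sum.inl c') := by
    intro β x c
    simp [hε, epsM, Matrix.mulVec, dotProduct, Fintype.sum_sum_type]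
  have hr0 : ∀ (x : I1 δ K w ⊕ I0 a → ℝ) r, (ε false).mulVec x (Sum.inr r)
      = -∑ c : I1 δ K w, (((r.2.1 : ℕ) + c.2).choose r.2.1 : ℝ) * dd r.1 c.1 r.2.2 (r.2.1 + c.2)
          * x (Sum.inl c)
        - ∑ r', pmat du r r' * x (Sum.inr r') - ∑ r', pmat di r r' * x (Sum.inr r') := by
    intro x r
    simp only [hε, epsM, Matrix.mulVec, dotProduct, Fintype.sum_sum_type, Matrix.fromBlocks_apply₂₁,
      Matrix.fromBlocks_apply₂₂, Matrix.neg_apply, Gm_gam, cond_false, Matrix.add_apply, neg_mul,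
      sum_neg_distrib, add_mul, sum_add_distrib]
    ring
  have hB : ∀ x ∈ W, Sum.elim (0 : I1 δ K w → ℝ)
      (fun r => ∑ r', pmat d1 r r' * x (Sum.inr r')) ∈ W := by
    intro x hx
    convert W.sub_mem (hW true x hx) (hW false x hx) using 1
    funext i
    rcases i with c | r
    · simp [hl]
    · simp only [hε, epsM, Matrix.mulVec, dotProduct, Fintype.sum_sum_type, Sum.elim_inr,
        Matrix.fromBlocks_apply₂₁, Matrix.fromBlocks_apply₂₂, Matrix.neg_apply, cond_false,
        cond_true, Pi.sub_apply, Matrix.sub_apply, neg_mul, sum_neg_distrib, sub_mul,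
        sum_sub_distrib]
      ring
  let z0 : Fin a := ⟨0, by omega⟩
  let Y : ℕ → ℝ := fun v => if h : v < w + 1 then y ⟨v, h⟩ else 0
  have hYy : ∀ v : Fin (w + 1), Y v = y v := fun v => dif_pos v.2
  let Th : (I1 δ K w ⊕ I0 a → ℝ) → Fin a → Fin a → ℝ := fun x j u => x (Sum.inr (j, u, z0))
    + ∑ c : I1 δ K w, (((u : ℕ) + c.2).choose u : ℝ) * dd j c.1 0 (u + c.2 + 1) * x (Sum.inl c)
  have hit : ∀ n : ℕ, ∃ x ∈ W, (∀ c, x (Sum.inl c) = ev c.1 * Y (c.2 + n)) ∧
      ∀ j u : Fin a, (u : ℕ) < n → Th x j u = 0 := by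
    intro n
    induction n with
    | zero => exact ⟨_, hq, fun c => by rw [add_zero, hYy]; rfl, fun _ _ h => absurd h (by omega)⟩
    | succ n ih =>
      obtain ⟨x, hx, h1, h2⟩ := ih
      refine ⟨_, hW false x hx, fun c => ?_, fun j u hu => ?_⟩
      · rw [hl]
        by_cases hc : (c.2 : ℕ) + 1 < w + 1
        · rw [sum_eq_single (c.1, ⟨c.2 + 1, hc⟩)]
          · simp [pmat, dv, h1, add_assoc, add_comm 1 n]
          · rintro ⟨c1, v⟩ _ hne
            simp only [pmat, dv, Matrix.of_apply]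
            split_ifs with h3 h4 h4
            · simp at h4
            · simp
            · exfalso
              apply hne
              obtain rfl := Option.some_injective _ h4
              simp only [Prod.mk.injEq, true_and]
              exact Fin.ext (by simp only; omega)
            · simp
          · simp
        · have : Y (c.2 + (n + 1)) = 0 := dif_neg (by omega)
          rw [this, mul_zero]
          refine sum_eq_zero fun c' _ => ?_
          simp only [pmat, dv, Matrix.of_apply]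
          split_ifs with h3 h4 h4
          · simp at h4
          · simp
          · exfalso
            obtain rfl := Option.some_injective _ h4
            have := c'.2.2
            simp only at hc
            omega
          · simp
      · have h3 : ∑ c : I1 δ K w, (((u : ℕ) + c.2).choose u : ℝ) * dd j c.1 0 (u + c.2 + 1)
            * (ε false).mulVec x (Sum.inl c) = ∑ c : I1 δ K w, (if (c.2 : ℕ) = 0 then 0 else
              (((u : ℕ) + (c.2 - 1)).choose u : ℝ) * dd j c.1 0 (u + (c.2 - 1) + 1))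
                * x (Sum.inl c) := by
          simp only [hl, mul_sum]
          rw [sum_comm]
          refine sum_congr rfl fun c _ => ?_
          have := pmat_sum dv c fun c' : I1 δ K w =>
            (((u : ℕ) + c'.2).choose u : ℝ) * dd j c'.1 0 (u + c'.2 + 1) * x (Sum.inl c)
          refine (sum_congr rfl fun c' _ => mul_left_comm _ _ _).trans (this.trans ?_)
          unfold dv
          split_ifs <;> simp
        have h4 : ∀ c : I1 δ K w, (((u : ℕ) + c.2).choose u : ℝ) * dd j c.1 0 (u + c.2)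
            = (if (u : ℕ) = 0 then 0 else (((u : ℕ) - 1 + c.2).choose (u - 1) : ℝ)
              * dd j c.1 0 (u - 1 + c.2 + 1)) + if (c.2 : ℕ) = 0 then 0 else
              (((u : ℕ) + (c.2 - 1)).choose u : ℝ) * dd j c.1 0 (u + (c.2 - 1) + 1) := by
          intro c
          refine Eq.trans ?_ (pascal_sh u c.2 fun m => dd j c.1 0 (m + 1))
          congr 1
          unfold sh
          split_ifs with h
          · rw [h, h00]
          · show _ = dd j c.1 0 (u + c.2 - 1 + 1)
            rw [Nat.sub_add_cancel (by omega)]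
        simp only [Th]
        rw [h3, hr0, pmat_sum, pmat_sum]
        simp only [z0, h4, add_mul, sum_add_distrib, du, di]
        by_cases hu0 : (u : ℕ) = 0
        · simp [hu0]
        · have := h2 j ⟨u - 1, by omega⟩ (by simp only; omega)
          simp only [Th, z0] at this
          simp only [hu0, if_false, Option.elim, show ¬ (2 ≤ 0) by omega]
          linear_combination -this
  obtain ⟨v0, hv0, hmax⟩ := exists_max_image (univ.filter fun v => y v ≠ 0) (fun v => (v : ℕ)) (by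
    obtain ⟨v, hv⟩ := Function.ne_iff.1 hy0
    exact ⟨v, mem_filter.2 ⟨mem_univ _, hv⟩⟩)
  have hv1 : y v0 ≠ 0 := (mem_filter.1 hv0).2
  have hv2 : 3 * a ≤ v0 := not_lt.1 fun h => hv1 (hy v0 h)
  have hY : ∀ v, Y v ≠ 0 → v ≤ v0 := by
    intro v hv
    by_cases h : v < w + 1
    · exact hmax ⟨v, h⟩ (mem_filter.2 ⟨mem_univ _, by rw [← hYy]; exact hv⟩)
    · exact absurd (dif_neg h) hv
  let pu : (I1 δ K w ⊕ I0 a → ℝ) →ₗ[ℝ] (Fin a × Fin a → ℝ) :=
    LinearMap.pi fun s => LinearMap.proj (Sum.inr (s.1, s.2, z0))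
  have hpure : ∀ n : ℕ, ∀ s : Fin a × Fin a, a ≤ s.2 + n → Pi.single s 1 ∈ W.map pu := by
    intro n
    induction n with
    | zero => intro s hs; have := s.2.2; omega
    | succ n ih =>
      intro s hs
      obtain ⟨x, hx, h1, h2⟩ := hit (v0 + s.2 - 2 * a)
      have h3 : ∀ j u : Fin a, x (Sum.inr (j, u, z0)) = -(p ^ (j : ℕ) * ∑ v : Fin (w + 1),
          (((u : ℕ) + v).choose u : ℝ) * c0 (u + v + 1) * Y (v + (v0 + s.2 - 2 * a))) := by
        intro j u
        have h4 := h2 j u (by have := u.2; omega)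
        simp only [Th, h1, Fintype.sum_prod_type_right] at h4
        rw [eq_neg_iff_add_eq_zero, ← h4, mul_sum]
        congr 1
        refine sum_congr rfl fun v _ => ?_
        have h5 := hev j j.2 (u + v + 1) (by have := u.2; have := v.2; omega)
        calc _ = (((u : ℕ) + v).choose u : ℝ) * (p ^ (j : ℕ) * c0 (u + v + 1))
              * Y (v + (v0 + s.2 - 2 * a)) := by ring
          _ = _ := by
            rw [← h5, mul_sum, sum_mul, Fintype.sum_prod_type_right]
            exact sum_congr rfl fun _ _ => sum_congr rfl fun _ _ => by ring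
      set z := pu fun i => if Sum.elim (fun c : I1 δ K w => c.2 + K - c.1.2)
        (fun r : I0 a => K - (r.1 + r.2.1 + r.2.2)) i = K - (s.1 + s.2) then x i else 0 with hz
      have hzW : z ∈ W.map pu := ⟨_, hgr x hx _, rfl⟩
      have hzv : ∀ s' : Fin a × Fin a, z s' = if K - (s'.1 + s'.2 + 0) = K - (s.1 + s.2)
          then x (Sum.inr (s'.1, s'.2, z0)) else 0 := fun s' => rfl
      have hzs : z s ≠ 0 := by
        rw [hzv, if_pos (by simp), h3, neg_ne_zero,
          sum_eq_single ⟨2 * a - s.2, by omega⟩]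
        · have e1 : (s.2 : ℕ) + (2 * a - s.2) = 2 * a := by have := s.2.2; omega
          have e2 : 2 * a - s.2 + (v0 + s.2 - 2 * a) = v0 := by have := s.2.2; omega
          simp only [e1, e2]
          refine mul_ne_zero (pow_ne_zero _ hp) (mul_ne_zero (mul_ne_zero ?_ hc1) ?_)
          · exact_mod_cast (Nat.choose_pos (by have := s.2.2; omega)).ne'
          · rw [hYy]; exact hv1
        · intro v _ hv
          by_cases h : Y (v + (v0 + s.2 - 2 * a)) = 0
          · rw [h, mul_zero]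
          · have h5 := hY _ h
            have h6 : (v : ℕ) ≠ 2 * a - s.2 := fun h => hv (Fin.ext h)
            rw [hc0 _ (by omega)]; simp
        · simp
      have h4 : z s • Pi.single s (1 : ℝ)
          = z - ∑ s' ∈ univ.erase s, z s' • (Pi.single s' 1 : Fin a × Fin a → ℝ) := by
        rw [eq_sub_iff_add_eq, add_sum_erase univ (fun s' => z s' • (Pi.single s' 1 : _ → ℝ))
          (mem_univ s)]
        exact (pi_eq_sum_univ' z).symm
      rw [← inv_smul_smul₀ hzs (Pi.single s (1 : ℝ) : Fin a × Fin a → ℝ), h4]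
      refine Submodule.smul_mem _ _ (sub_mem hzW (Submodule.sum_mem _ fun s' hs' => ?_))
      by_cases h5 : (s.2 : ℕ) < s'.2
      · exact Submodule.smul_mem _ _ (ih s' (by omega))
      · have : z s' = 0 := by
          rw [hzv]
          split_ifs with h6
          · have := s.1.2; have := s.2.2; have := s'.1.2; have := s'.2.2
            have h7 : (s'.2 : ℕ) < s.2 := by
              by_contra h7
              exact (mem_erase.1 hs').1 (Prod.ext (Fin.ext (by omega)) (Fin.ext (by omega)))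
            rw [h3, sum_eq_zero, mul_zero, neg_zero]
            intro v _
            by_cases h : Y (v + (v0 + s.2 - 2 * a)) = 0
            · rw [h, mul_zero]
            · have h5 := hY _ h
              rw [hc0 _ (by omega)]; simp
          · rfl
        rw [this, zero_smul]
        exact zero_mem _
  have hall : ∀ n : ℕ, ∀ r : I0 a, (r.2.2 : ℕ) = n + 1 → Pi.single (Sum.inr r) 1 ∈ W := by
    intro n
    induction n with
    | zero =>
      rintro ⟨j, u, i⟩ hi
      obtain ⟨x, hx, h1⟩ := hpure a (j, u) (by omega)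
      convert hB x hx using 1
      funext i'
      rcases i' with c | ⟨j', u', i'⟩
      · simp
      · have h2 : x (Sum.inr (j', u', z0)) = _ := congrFun h1 (j', u')
        rw [Sum.elim_inr, pmat_sum]
        simp only [d1]
        split_ifs with h
        · simp only [Option.elim]
          have h3 : i' = i := Fin.ext (by simp only at hi h; omega)
          rw [h2, h3]
          simp [Pi.single_apply]
        · have h3 : i' ≠ i := fun h' => h (by rw [h']; simpa using hi)
          simp [h3]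
    | succ n ih =>
      rintro ⟨j, u, i⟩ hi
      simp only at hi
      set r0 : I0 a := (j, u, ⟨n + 1, by omega⟩) with hr0def
      have h1 : Sum.elim (0 : I1 δ K w → ℝ) (fun r => pmat du r r0) ∈ W := by
        have : Sum.elim (0 : I1 δ K w → ℝ) (fun r => pmat du r r0)
            = ∑ r : I0 a, pmat du r r0 • (Pi.single (Sum.inr r) 1 : I1 δ K w ⊕ I0 a → ℝ) := by
          funext i'
          rcases i' with c | r <;> simp [Finset.sum_apply, Pi.single_apply]
        rw [this]
        refine Submodule.sum_mem _ fun r _ => ?_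
        by_cases h : du r = some r0
        · refine Submodule.smul_mem _ _ (ih r ?_)
          unfold du at h
          split_ifs at h
          have := congrArg (fun r : I0 a => (r.2.2 : ℕ)) (Option.some_injective _ h)
          exact this
        · simp [pmat, h]
      convert W.sub_mem (W.neg_mem (hW false _ (ih r0 rfl))) h1 using 1
      funext i'
      rcases i' with c | ⟨j', u', i'⟩
      · rw [Pi.sub_apply, Pi.neg_apply, hl]
        simp
      · rw [Pi.sub_apply, Pi.neg_apply, hr0]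
        simp only [Pi.single_apply, Sum.inr.injEq, reduceCtorEq, if_false, mul_zero,
          sum_const_zero, mul_ite, mul_one, sum_ite_eq', mem_univ, if_true, Sum.elim_inr]
        have : pmat di (j', u', i') r0 = if (j', u', i') = (j, u, i) then 1 else 0 := by
          simp only [pmat, di, Matrix.of_apply, hr0def]
          congr 1
          rw [eq_iff_iff]
          split_ifs with h
          · simp only [Option.some.injEq, Prod.mk.injEq, Fin.ext_iff]
            omega
          · simp only [Prod.mk.injEq, Fin.ext_iff, false_iff]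
            omega
        rw [this]
        ring
  exact hall (r.2.2 - 1) r (by omega)

end conc

end ZOdd

end

-- part Trans
section
/-!
The uniform angle between the kernel and the evaluation subspace.
-/

set_option autoImplicit false

namespace ZOdd

open Finset Polynomial

theorem angle {α β : Type} [Fintype α] [Fintype β] (Y : Submodule ℝ (α → ℝ))
    (W : Submodule ℝ (β → ℝ)) (J : (α → ℝ) →ₗ[ℝ] (β → ℝ)) (h : ∀ y ∈ Y, J y ∈ W → y = 0) :
    ∃ κ : ℝ, 0 ≤ κ ∧ ∀ y ∈ Y, ∀ z ∈ W, ‖y‖ ≤ κ * ‖J y - z‖ := by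
  have : IsClosed (W : Set (β → ℝ)) := W.closed_of_finiteDimensional
  obtain ⟨κ, -, hκ⟩ := LinearMap.exists_antilipschitzWith (W.mkQ ∘ₗ J ∘ₗ Y.subtype) (by
    rw [LinearMap.ker_eq_bot']
    intro y hy
    exact Subtype.ext (h y y.2 ((Submodule.Quotient.mk_eq_zero W).1 hy)))
  refine ⟨κ, κ.2, fun y hy z hz => ?_⟩
  have h1 := hκ.le_mul_dist ⟨y, hy⟩ 0
  rw [map_zero, dist_zero_right, dist_zero_right] at h1
  refine h1.trans (mul_le_mul_of_nonneg_left ?_ κ.2)
  have h2 : (W.mkQ ∘ₗ J ∘ₗ Y.subtype) ⟨y, hy⟩ = Submodule.Quotient.mk (J y - z) := by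
    rw [Submodule.Quotient.mk_sub, (Submodule.Quotient.mk_eq_zero W).2 hz, sub_zero]
    rfl
  rw [h2]
  exact Submodule.Quotient.norm_mk_le _ _

theorem trans_core {a δ K w : ℕ} (dd : ℕ → Fin δ × Fin K → ℕ → ℕ → ℝ) (ha : 2 ≤ a)
    (hw : 2 * a ≤ w) (hK : 3 * a ≤ K) (p : ℝ) (hp : p ≠ 0)
    (ev : Fin δ × Fin K → ℝ) (c0 : ℕ → ℝ) (h00 : ∀ j c, dd j c 0 0 = 0)
    (hev : ∀ j < a, ∀ m ≤ w + a, ∑ c, ev c * dd j c 0 m = p ^ j * c0 m)
    (hc0 : ∀ m < 2 * a, c0 (m + 1) = 0) (hc1 : c0 (2 * a + 1) ≠ 0)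
    (hhom : ∀ j c i m, dd j c i m ≠ 0 → (c.2 : ℕ) + 1 = j + m + i)
    (φ : ℕ → ℕ) (hφ : ∀ v, φ (v + 1) ≤ φ v)
    (hcnt : δ * K * ∑ v : Fin (w + 1), φ v < a * (a * (a - 1))) :
    ∃ κ : ℝ, 0 ≤ κ ∧ ∃ n1, ∀ n, n1 ≤ n → ∀ y : (Σ v : Fin (w + 1), Fin (φ v * n)) → ℝ,
      (∀ q, (q.1 : ℕ) < 3 * a → y q = 0) → ∀ z : (Σ c : I1 δ K w, Fin (φ c.2 * n)) → ℝ,
        (∀ (r : I0 a) (μ : Fin n), ∑ q, Gm dd (μ + q.2) r q.1 * z q = 0) →
        ‖y‖ ≤ κ * ‖(fun q : Σ c : I1 δ K w, Fin (φ c.2 * n) => ev q.1.1 * y ⟨q.1.2, q.2⟩) - z‖ := by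
  have hdv : ∀ c c' : I1 δ K w, pmat dv c' c ≠ 0 → c.1 = c'.1 ∧ (c.2 : ℕ) + 1 = c'.2 := by
    intro c c' h
    simp only [pmat, dv, Matrix.of_apply] at h
    split_ifs at h with h1 h2 h2
    · simp at h2
    · simp at h
    · obtain rfl := Option.some_injective _ h2
      exact ⟨rfl, by simp only; omega⟩
    · simp at h
  have hrow : ∀ f : I0 a → Option (I0 a), (∀ r r', f r = some r' →
      (r'.1 : ℕ) + r'.2.1 + r'.2.2 + 1 = r.1 + r.2.1 + r.2.2) → ∀ r r', pmat f r r' = 0 ∨
      (r'.1 : ℕ) + r'.2.1 + r'.2.2 + 1 = r.1 + r.2.1 + r.2.2 := by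
    intro f hf r r'
    by_cases h : f r = some r'
    · exact Or.inr (hf r r' h)
    · exact Or.inl (by simp [pmat, h])
  have h1 := hrow du fun r r' h => by
    unfold du at h
    split_ifs at h
    obtain rfl := Option.some_injective _ h
    simp only; omega
  have h2 := hrow di fun r r' h => by
    unfold di at h
    split_ifs at h
    obtain rfl := Option.some_injective _ h
    simp only; omega
  have h3 := hrow d1 fun r r' h => by
    unfold d1 at h
    split_ifs at h
    obtain rfl := Option.some_injective _ h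
    simp only; omega
  obtain ⟨W, hW, hgr, hU, n1, hn1⟩ := hn_core (Gm_rel (a := a) (w := w) dd) rfl (by
      simp only [cond_true, cond_false, sub_sub_cancel]
      ext r r'
      rw [Matrix.mul_apply, pmat_sum]
      unfold d1
      split_ifs <;> simp [pmat])
    (Sum.elim (fun c : I1 δ K w => c.2 + K - c.1.2) (fun r : I0 a => K - (r.1 + r.2.1 + r.2.2))) (by
      rintro β (c | r) (c' | r') h
      · have := hdv c c' (by simpa [epsM] using h)
        have h4 := c.1.2.2
        simp only [Sum.elim_inl, ← this.1]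
        omega
      · simp [epsM] at h
      · simp only [epsM, Matrix.fromBlocks_apply₂₁, Matrix.neg_apply, Gm_gam, neg_ne_zero] at h
        have := hhom _ _ _ _ (right_ne_zero_of_mul h)
        have := r.1.2; have := r.2.1.2; have := r.2.2.2; have := c'.1.2.2
        simp only [Sum.elim_inl, Sum.elim_inr]
        omega
      · have h4 : (r'.1 : ℕ) + r'.2.1 + r'.2.2 + 1 = r.1 + r.2.1 + r.2.2 := by
          by_contra h4
          apply h
          cases β <;> simp [epsM, (h1 r r').resolve_right h4, (h2 r r').resolve_right h4,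
            (h3 r r').resolve_right h4]
        have := r.1.2; have := r.2.1.2; have := r.2.2.2
        simp only [Sum.elim_inr]
        omega)
    (fun c => φ c.2) (fun c c' h => by
      have := (hdv c c' h).2
      simp only [← this]
      exact hφ _)
  let Y : Submodule ℝ (Fin (w + 1) → ℝ) :=
    { carrier := {y | ∀ v : Fin (w + 1), (v : ℕ) < 3 * a → y v = 0}
      add_mem' := fun hx hy v hv => by simp [hx v hv, hy v hv]
      zero_mem' := fun _ _ => rfl
      smul_mem' := fun r x hx v hv => by simp [hx v hv] }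
  let J : (Fin (w + 1) → ℝ) →ₗ[ℝ] (I1 δ K w → ℝ) := LinearMap.pi fun c => ev c.1 • LinearMap.proj c.2
  let pr : (I1 δ K w ⊕ I0 a → ℝ) →ₗ[ℝ] (I1 δ K w → ℝ) :=
    LinearMap.pi fun c => LinearMap.proj (Sum.inl c)
  obtain ⟨κ, hκ, hang⟩ := angle Y (W.map pr) J (by
    rintro y hy ⟨x, hx, hxy⟩
    by_contra hy0
    have h4 : Sum.elim (fun c : I1 δ K w => ev c.1 * y c.2) (fun r => x (Sum.inr r)) ∈ W := by
      convert (show x ∈ W from hx) using 1
      funext i
      rcases i with c | r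
      · exact (congrFun hxy c).symm
      · rfl
    have h5 := hU (univ ×ˢ univ ×ˢ univ.erase ⟨0, by omega⟩) fun r hr =>
      generate dd ha hw hK p hp ev c0 h00 hev hc0 hc1 W hW hgr y hy hy0 _ h4 r (by
        have := (mem_erase.1 (mem_product.1 (mem_product.1 hr).2).2).1
        exact Nat.one_le_iff_ne_zero.2 fun h => this (Fin.ext h))
    rw [Fintype.sum_prod_type] at h5
    simp only [card_product, card_univ, Fintype.card_fin, card_erase_of_mem (mem_univ _), sum_const,
      Fintype.card_prod, smul_eq_mul] at h5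
    omega)
  refine ⟨κ, hκ, n1, fun n hn y hy z hz => ?_⟩
  let Q : I1 δ K w → ℝ[X] := fun c => ∑ ν : Fin (φ c.2 * n), z ⟨c, ν⟩ • X ^ (ν : ℕ)
  have hQ : ∀ c d, (Q c).coeff d = if h : d < φ c.2 * n then z ⟨c, ⟨d, h⟩⟩ else 0 := by
    intro c d
    simp only [Q, finsetSum_coeff, coeff_smul, coeff_X_pow, smul_eq_mul]
    split_ifs with h
    · rw [sum_eq_single ⟨d, h⟩]
      · simp
      · intro ν _ hν
        rw [if_neg fun h' => hν (Fin.ext h'.symm), mul_zero]
      · simp
    · refine sum_eq_zero fun ν _ => ?_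
      rw [if_neg (by have := ν.2; omega), mul_zero]
  have h4 := hn1 n hn Q (fun c => mem_dl.2 fun m hm => by rw [hQ, dif_neg (by omega)]) (by
    intro i hi
    funext r
    have := hz r ⟨i, hi⟩
    rw [Fintype.sum_sigma] at this
    simp only [lv, Q, Pi.smul_apply, smul_eq_mul, mul_sum, map_sum, mul_smul_comm, ← pow_add,
      map_smul, lG_pow, Pi.zero_apply]
    rw [← this]
    exact sum_congr rfl fun c _ => sum_congr rfl fun ν _ => mul_comm _ _)
  refine (pi_norm_le_iff_of_nonneg (by positivity)).2 fun q => ?_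
  obtain ⟨x, hx⟩ := h4 q.2
  have h5 := hang (fun v => if h : (q.2 : ℕ) < φ v * n then y ⟨v, ⟨q.2, h⟩⟩ else 0) (fun v hv => by
    show dite _ _ _ = _
    split_ifs
    · exact hy _ hv
    · rfl) _ ⟨_, hx, rfl⟩
  refine le_trans ?_ (h5.trans (mul_le_mul_of_nonneg_left ?_ hκ))
  · refine le_trans (le_of_eq ?_) (norm_le_pi_norm _ q.1)
    rw [dif_pos q.2.2]
  · refine (pi_norm_le_iff_of_nonneg (norm_nonneg _)).2 fun c => ?_
    show ‖ev c.1 * dite _ _ _ - (Q c).coeff q.2‖ ≤ _
    rw [hQ]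
    split_ifs with h
    · exact norm_le_pi_norm ((fun q : Σ c : I1 δ K w, Fin (φ c.2 * n) => ev q.1.1 * y ⟨q.1.2, q.2⟩)
        - z) ⟨c, ⟨q.2, h⟩⟩
    · simp

end ZOdd

end

-- part Main
section
/-!
The determinant argument.
-/

set_option autoImplicit false

namespace ZOdd

open Finset

theorem Lam_fd (s : ℕ) : FiniteDimensional ℚ (Lam s) :=
  FiniteDimensional.span_of_finite ℚ (Set.Finite.insert _
    (((Set.finite_Iic s).image fun j => zr j / Real.pi ^ j).subset (by
      rintro x ⟨j, -, h, rfl⟩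
      exact ⟨j, h, rfl⟩)))

theorem Lam_pos (s : ℕ) : 1 ≤ Module.finrank ℚ (Lam s) := by
  have := Lam_fd s
  refine Module.finrank_pos_iff_exists_ne_zero.2
    ⟨⟨1, Submodule.subset_span (Set.mem_insert _ _)⟩, fun h => ?_⟩
  exact one_ne_zero (congrArg Subtype.val h)

theorem Lam_dual (s : ℕ) : ∃ (φ : Fin (Module.finrank ℚ (Lam s)) → ℝ →ₗ[ℚ] ℚ)
    (θ : Fin (Module.finrank ℚ (Lam s)) → ℝ), ∀ x ∈ Lam s, ∑ l, θ l * (φ l x : ℝ) = x := by
  have := Lam_fd s
  let b := Module.finBasis ℚ (Lam s)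
  have hext : ∀ i, ∃ g : ℝ →ₗ[ℚ] ℚ, g.comp (Lam s).subtype = b.coord i :=
    fun i => LinearMap.exists_extend _
  choose ψ hψ using hext
  refine ⟨ψ, fun i => (b i : ℝ), fun x hx => ?_⟩
  have h2 := congrArg (fun v : Lam s => (v : ℝ)) (b.sum_repr ⟨x, hx⟩)
  simp only [AddSubmonoidClass.coe_finsetSum, SetLike.val_smul] at h2
  conv_rhs => rw [← h2]
  refine Finset.sum_congr rfl fun i _ => ?_
  have h3 : ψ i x = b.repr ⟨x, hx⟩ i := by
    have := congrArg (fun g : Lam s →ₗ[ℚ] ℚ => g ⟨x, hx⟩) (hψ i)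
    simpa using this
  rw [h3, Rat.smul_def, mul_comm]

theorem common_den {ι : Type} [Fintype ι] (r : ι → ℚ) : ∃ (d0 : ℕ) (C0 : ℝ), 1 ≤ d0 ∧ 1 ≤ C0 ∧
    ∀ i, (∃ z : ℤ, (d0 : ℝ) * (r i : ℝ) = z) ∧ |(r i : ℝ)| ≤ C0 := by
  classical
  refine ⟨∏ i, (r i).den, 1 + ∑ i, |(r i : ℝ)|, prod_pos fun i _ => (r i).den_pos,
    le_add_of_nonneg_right (sum_nonneg fun _ _ => abs_nonneg _), fun i => ⟨?_, ?_⟩⟩
  · obtain ⟨k, hk⟩ : (r i).den ∣ ∏ i, (r i).den := dvd_prod_of_mem _ (mem_univ i)
    refine ⟨k * (r i).num, ?_⟩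
    have : ((r i).den : ℝ) * (r i : ℝ) = (r i).num := by
      exact_mod_cast congrArg (fun x : ℚ => (x : ℝ)) (Rat.den_mul_eq_num (r i))
    rw [hk]
    push_cast
    rw [← this]
    ring
  · have := single_le_sum (f := fun i => |(r i : ℝ)|) (fun _ _ => abs_nonneg _) (mem_univ i)
    linarith

theorem sum_phi (V yy : ℕ) (hV : 1 ≤ V) (hyy : 1 ≤ yy) :
    ∑ v : Fin (V * yy + 1), V * yy / max (v : ℕ) V = V * yy + ∑ v ∈ Icc V (V * yy), V * yy / v := by
  have h1 : V ≤ V * yy := Nat.le_mul_of_pos_right V hyy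
  rw [Fin.sum_univ_eq_sum_range (fun v => V * yy / max v V),
    ← sum_range_add_sum_Ico _ (show V ≤ V * yy + 1 by omega), Ico_add_one_right_eq_Icc]
  congr 1
  · rw [sum_congr rfl (g := fun _ => yy)]
    · simp
    · intro v hv
      rw [max_eq_right (mem_range.1 hv).le, Nat.mul_div_cancel_left _ hV]
  · exact sum_congr rfl fun v hv => by rw [max_eq_left (mem_Icc.1 hv).1]

theorem expo_le (a yy r0 n : ℕ) (ha : 2 ≤ a) (hr : 2 * yy + 12 ≤ r0) (hn : 1 ≤ n) :
    yy * n + (20 * a * (2 * r0 * n + 4 + n) + (n + yy * n)) ≤ 50 * (a * r0 * n) := by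
  have h1 := Nat.mul_le_mul_left a (show 12 ≤ r0 by omega)
  have h2 := Nat.mul_le_mul_right r0 (show 1 ≤ a by omega)
  have h4 : 2 * yy + 1 + 100 * a ≤ 10 * (a * r0) := by omega
  have h5 := Nat.mul_le_mul_right n h4
  have h6 : a ≤ a * n := Nat.le_mul_of_pos_right a hn
  have h7 : (2 * yy + 1 + 100 * a) * n = 2 * (yy * n) + n + 100 * (a * n) := by ring
  have h8 : 20 * a * (2 * r0 * n + 4 + n) = 40 * (a * r0 * n) + 80 * a + 20 * (a * n) := by ring
  rw [mul_assoc 10] at h5
  omega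

theorem core_ineq (a V yy r0 s : ℕ) (ha : 2 ≤ a) (hV : 3 * a ≤ V) (hyy : 1 ≤ yy)
    (hs : V * yy + 2 * a ≤ s) (hr : 2 * yy + 12 ≤ r0)
    (ht : 2 * (a * r0) ≤ ∑ v ∈ Icc V (V * yy), V * yy / v)
    (hcnt : Module.finrank ℚ (Lam s) * (V * yy + 3 * a) * ((V * yy + 1) * yy) < a * (a * (a - 1))) :
    ((a * r0 : ℕ) : ℝ) ^ 2 * (Real.log ((r0 : ℝ) / (yy + 1)) - 50)
      ≤ 24 * (Module.finrank ℚ (Lam s) : ℝ) * ((V * yy : ℕ) : ℝ)
        * ((V * yy + ∑ v ∈ Icc V (V * yy), V * yy / v : ℕ) : ℝ)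
        * (2 + Real.log ((V * yy + 2 * a : ℕ) : ℝ)) := by
  classical
  obtain ⟨φl, θ, hθ⟩ := Lam_dual s
  have hδ := Lam_pos s
  have hsum := sum_phi V yy (by omega) hyy
  have hcost := fun n d0 => cost_le (Module.finrank ℚ (Lam s)) (V * yy + 3 * a) a V yy n d0 hV
    (by omega) hyy
  have hVw : V ≤ V * yy := Nat.le_mul_of_pos_right V hyy
  have hφy : ∀ v, V * yy / max v V ≤ yy := fun v =>
    (Nat.div_le_div_left (le_max_right _ _) (by omega)).trans (Nat.mul_div_cancel_left _ (by omega)).le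
  generalize Module.finrank ℚ (Lam s) = δ at *
  generalize ∑ v ∈ Icc V (V * yy), V * yy / v = s0 at *
  generalize hw : V * yy = w at hs hcnt hsum hcost hVw hφy ⊢
  obtain ⟨T, hT⟩ := exists_T a
  obtain ⟨τ, hτ, hτw, hτ0, hτ1⟩ := tc_T a T hT
  have hrow := fun n Tn => small_row a (by omega) T hT τ hτ w yy r0 n Tn (fun v => w / max v V) hφy
  set c : ℕ → ℕ → ℝ := fun i m => sh (τ i) m
    + if i = 0 then 0 else if i = 1 then -τ 0 m else τ (i - 1) m with hc
  have hc00 : c 0 0 = 0 := by simp [hc, sh]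
  have hcw : ∀ i ≤ a, ∀ m ≤ w + a, c i m / Real.pi ^ (m + i - 1) ∈ Lam s := by
    intro i hi m hm
    simp only [hc, add_div]
    refine add_mem ?_ ?_
    · unfold sh
      split_ifs with h
      · simp
      · rw [show m + i - 1 = m - 1 + i by omega]
        exact hτw i (by omega) _ s (by omega)
    · split_ifs with h h'
      · simp
      · rw [h', neg_div]
        exact neg_mem (hτw 0 (by omega) m s (by omega))
      · rw [show m + i - 1 = m + (i - 1) by omega]
        exact hτw _ (by omega) _ s (by omega)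
  let dd : ℕ → Fin δ × Fin (w + 3 * a) → ℕ → ℕ → ℝ := fun j k i m =>
    if (k.2 : ℕ) + 1 = j + m + i then (φl k.1 (c i m / Real.pi ^ (m + i - 1)) : ℝ) else 0
  let ev : Fin δ × Fin (w + 3 * a) → ℝ := fun k => Real.pi ^ (k.2 : ℕ) * θ k.1
  have h00 : ∀ j k, dd j k 0 0 = 0 := fun j k => by simp [dd, hc00]
  have hev : ∀ j < a, ∀ i ≤ a, ∀ m ≤ w + a, ∑ k, ev k * dd j k i m = Real.pi ^ j * c i m := by
    intro j hj i hi m hm
    by_cases h : m + i = 0
    · obtain ⟨rfl, rfl⟩ : m = 0 ∧ i = 0 := by omega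
      simp [h00, hc00]
    · rw [Fintype.sum_prod_type_right, sum_eq_single ⟨j + (m + i - 1), by omega⟩]
      · simp only [ev, dd, show j + (m + i - 1) + 1 = j + m + i by omega, if_true, mul_assoc,
          ← mul_sum, hθ _ (hcw i hi m hm), pow_add]
        rw [mul_div_cancel₀ _ (pow_ne_zero _ Real.pi_ne_zero)]
      · intro k _ hk
        refine sum_eq_zero fun l _ => ?_
        simp only [dd]
        rw [if_neg fun h' => hk (Fin.ext (by simp only; omega)), mul_zero]
      · simp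
  obtain ⟨κ, hκ, n1, htr⟩ := trans_core (w := w) dd ha (by omega) (by omega) Real.pi Real.pi_ne_zero
    ev (c 0) h00 (fun j hj => hev j hj 0 (by omega))
    (fun m hm => by simpa [hc, sh] using hτ0 m hm) (by simpa [hc, sh] using hτ1)
    (fun j k i m h => by
      by_contra h'
      exact h (if_neg h')) (fun v => w / max v V)
    (fun v => Nat.div_le_div_left (max_le_max (by omega) le_rfl) (by omega))
    (lt_of_le_of_lt (Nat.mul_le_mul_left _
      (show ∑ v : Fin (w + 1), w / max (v : ℕ) V ≤ (w + 1) * yy from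
        (sum_le_card_nsmul univ _ yy fun v _ => hφy _).trans (by simp))) hcnt)
  obtain ⟨d0, C0, hd0, hC0, hden⟩ := common_den
    fun p : Fin δ × Fin (a + 1) × Fin (w + a + 1) =>
      φl p.1 (c p.2.1 p.2.2 / Real.pi ^ ((p.2.2 : ℕ) + p.2.1 - 1))
  have hdd : ∀ j k, ∀ i ≤ a, ∀ m ≤ w + a,
      (∃ z : ℤ, (d0 : ℝ) * dd j k i m = z) ∧ |dd j k i m| ≤ C0 := by
    intro j k i hi m hm
    simp only [dd]
    split_ifs
    · exact hden (k.1, ⟨i, by omega⟩, ⟨m, by omega⟩)
    · exact ⟨⟨0, by simp⟩, by simp; linarith⟩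
  set c1 := δ * (w + 3 * a) * ((w + 1) * yy) with hc1
  set E1 : ℝ := 2 ^ (w + a) * (2 * C0 * (yy + 1)) with hE1
  have hE1' : 1 ≤ E1 := by
    have h1 : (1 : ℝ) ≤ 2 ^ (w + a) := one_le_pow₀ (by norm_num)
    have h2 : (0 : ℝ) ≤ yy := by positivity
    exact one_le_mul_of_one_le_of_one_le h1
      (one_le_mul_of_one_le_of_one_le (by linarith) (by linarith))
  set A1 : ℝ := d0 * (c1 : ℝ) ^ 3 * E1 with hA1
  set A2 : ℝ := 4 ^ a * ((w + 1) * yy) * 2 ^ (w + a) * 2 * κ with hA2
  have hA1' : 0 ≤ A1 := by positivity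
  have hA2' : 0 ≤ A2 := by positivity
  set L := Real.log ((r0 : ℝ) / (yy + 1)) with hL
  rw [← sub_nonneg]
  refine asym (A1 + A2 + 1) _ (4 * c1 + a * r0) n1 (by linarith) fun n hn hn1 => ?_
  have hnR : (1 : ℝ) ≤ n := by exact_mod_cast hn1
  let γ := Σ v : Fin (w + 1), Fin (w / max (v : ℕ) V * n)
  let β := Σ k : I1 δ (w + 3 * a) w, Fin (w / max (k.2 : ℕ) V * n)
  have : Nonempty β := ⟨⟨((⟨0, hδ⟩, ⟨0, by omega⟩), ⟨0, by omega⟩), ⟨0, Nat.mul_pos
    (Nat.div_pos (by simp only; omega) (by omega)) hn1⟩⟩⟩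
  let LM : Matrix ((Fin V × Fin (yy * n)) ⊕ Fin (a * r0 * n)) γ ℝ := Matrix.of (Sum.elim
    (fun p q => if (q.1 : ℕ) = p.1 ∧ (q.2 : ℕ) = p.2 then 1 else 0)
    fun e q => ∑ l ∈ range (yy * n - q.2 + 1), (-1) ^ (yy * n - q.2 - l)
      * ((yy * n - q.2).choose l : ℝ) * ((e : ℕ).choose q.1 : ℝ) * ((q.2 + l : ℕ) : ℝ) ^ (e - q.1 : ℕ))
  let J : (γ → ℝ) →ₗ[ℝ] (β → ℝ) := LinearMap.pi fun q => ev q.1.1 • LinearMap.proj ⟨q.1.2, q.2⟩
  have hβ : Fintype.card β ≤ c1 * n := by
    simp only [β, Fintype.card_sigma, Fintype.card_fin]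
    refine (sum_le_card_nsmul _ _ (yy * n) fun k _ => Nat.mul_le_mul_right n (hφy _)).trans ?_
    simp only [card_univ, Fintype.card_prod, Fintype.card_fin, smul_eq_mul, hc1]
    exact le_of_eq (by ring)
  have key := det_scaled (α := I0 a × Fin n) (β := β) (fun p q => Gm dd (p.2 + q.2) p.1 q.1)
    (fun q => if (q.1.1.2 : ℕ) < q.1.2 + 3 * a then
      d0 * DD ((w / max (q.1.2 : ℕ) V + 1) * n) (w + 2 * a) else 1) (fun q => by
      split_ifs
      · exact Nat.mul_pos hd0 (DD_pos _ _)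
      · exact le_rfl) (by
      rintro ⟨⟨j, u, i⟩, μ⟩ ⟨⟨k, v⟩, ν⟩
      have := j.2; have := u.2; have := i.2; have := μ.2; have := v.2; have hν := ν.2
      simp only [Gm, Matrix.of_apply] at hν ⊢
      split_ifs with h
      · obtain ⟨z, hz⟩ := mom_den prod_dvd_DD (dd j k) d0 a (w + a)
          (fun i hi m hm => (hdd j k i hi m hm).1) ((w / max (v : ℕ) V + 1) * n) (w + 2 * a)
          (μ + ν) i (u + v) (by rw [add_mul]; omega) (by omega) (by omega) (by omega)
        exact ⟨((u : ℕ) + v).choose u * z, by rw [mul_left_comm, hz]; simp⟩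
      · refine ⟨0, ?_⟩
        rw [mom_vanish (dd j k) (k.2 - j) (fun i m h' => if_neg (by omega)) _ _ _ (by omega)]
        simp) (E1 * n) (one_le_mul_of_one_le_of_one_le hE1' hnR) (by
      rintro ⟨⟨j, u, i⟩, μ⟩ ⟨⟨k, v⟩, ν⟩
      have := j.2; have := u.2; have := i.2; have := μ.2; have := v.2
      have hν := ν.2.trans_le (Nat.mul_le_mul_right n (hφy _))
      simp only [Gm, Matrix.of_apply, abs_mul, Nat.abs_cast, hE1]
      rw [mul_assoc]
      refine mul_le_mul ?_ ((mom_size (dd j k) C0 a (w + a) (fun i hi m hm => (hdd j k i hi m hm).2)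
        _ _ _ (by omega) (by omega)).trans ?_) (abs_nonneg _) (by positivity)
      · exact_mod_cast (Nat.choose_le_two_pow _ _).trans
          (Nat.pow_le_pow_right (by norm_num) (by omega))
      · rw [mul_assoc (2 * C0)]
        refine mul_le_mul_of_nonneg_left ?_ (by positivity)
        have h1 : (μ : ℕ) + ν + 2 ≤ (yy + 1) * n := by rw [add_mul]; omega
        exact_mod_cast h1) (LinearMap.ker LM.mulVecLin) J (a * r0 * n) (by
      have h1 := LinearMap.finrank_range_add_finrank_ker LM.mulVecLin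
      have h2 := Submodule.finrank_le (LinearMap.range LM.mulVecLin)
      simp only [Module.finrank_fintype_fun_eq_card, Fintype.card_sum, Fintype.card_prod,
        Fintype.card_fin, γ, Fintype.card_sigma, ← sum_mul, hsum] at h1 h2
      have h3 := Nat.mul_le_mul_right n ht
      have h4 : V * (yy * n) = w * n := by rw [← hw]; ring
      rw [add_mul] at h1
      rw [mul_assoc] at h3
      rw [h4] at h2
      generalize Module.finrank ℝ (LinearMap.range LM.mulVecLin) = r1 at h1 h2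
      generalize Module.finrank ℝ (LinearMap.ker LM.mulVecLin) = r2 at h1 ⊢
      omega) (4 ^ a * (((w + 1) * yy * n : ℕ) * 2 ^ (w + a) * 2 ^ (yy * n)
        * (2 * Real.exp (20 * a * (2 * r0 * n + 4 + n) + (n + yy * n))
          * (((yy : ℝ) + 1) / r0) ^ (a * r0 * n)))) κ (by positivity) hκ (by
      rintro y hy ⟨⟨j, u, i⟩, μ⟩
      have h1 := hrow n (a * r0 * n) hn1 (by omega) y (fun e he => by
        have := congrFun (LinearMap.mem_ker.1 hy) (Sum.inr ⟨e, he⟩)
        simp only [Matrix.mulVecLin_apply, Matrix.mulVec, dotProduct, LM, Matrix.of_apply,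
          Sum.elim_inr, Pi.zero_apply] at this
        rw [← this]
        exact sum_congr rfl fun q _ => mul_comm _ _) u i μ u.2 i.2 μ.2
      have h2 : ∑ q : β, Gm dd (μ + q.2) (j, u, i) q.1 * J y q = Real.pi ^ (j : ℕ) * ∑ q : γ,
          y q * ((((u : ℕ) + q.1).choose u : ℝ) * mom c (μ + q.2) i (u + q.1)) := by
        simp only [β, γ, Fintype.sum_sigma, mul_sum]
        rw [Fintype.sum_prod_type_right]
        refine sum_congr rfl fun v _ => ?_
        refine (sum_comm (s := univ) (t := univ) (f := fun (k : Fin δ × Fin (w + 3 * a)) (ν : Fin (w / max (v : ℕ) V * n)) =>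
          Gm dd (μ + ν) (j, u, i) (k, v) * J y ⟨(k, v), ν⟩)).trans (sum_congr rfl fun ν _ => ?_)
        have := u.2; have := i.2; have := v.2
        rw [mom_sum univ (fun k => ev k / Real.pi ^ (j : ℕ)) (dd j) c a (w + a) (fun i hi m hm => by
          simp only [div_mul_eq_mul_div, ← sum_div, hev j j.2 i hi m hm]
          rw [mul_div_cancel_left₀ _ (pow_ne_zero _ Real.pi_ne_zero)]) _ _ _ (by omega) (by omega)]
        simp only [mul_sum]
        refine sum_congr rfl fun k _ => ?_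
        have h3 : Real.pi ^ (j : ℕ) ≠ 0 := pow_ne_zero _ Real.pi_ne_zero
        show _ * _ * (ev k * y ⟨v, ν⟩) = _
        field_simp
      show |∑ q : β, Gm dd (μ + q.2) (j, u, i) q.1 * J y q| ≤ _
      rw [h2, abs_mul, mul_assoc]
      refine mul_le_mul ?_ h1 (abs_nonneg _) (by positivity)
      rw [abs_of_pos (pow_pos Real.pi_pos _)]
      exact (pow_le_pow_left₀ Real.pi_pos.le Real.pi_le_four _).trans
        (pow_le_pow_right₀ (by norm_num) j.2.le)) (by
      intro y hy z hz
      refine htr n hn y (fun q hq => ?_) z fun r μ => hz (r, μ)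
      have := congrFun (LinearMap.mem_ker.1 hy) (Sum.inl (⟨q.1, by omega⟩,
        ⟨q.2, q.2.2.trans_le (Nat.mul_le_mul_right n (hφy _))⟩))
      simp only [Matrix.mulVecLin_apply, Matrix.mulVec, dotProduct, LM, Matrix.of_apply,
        Sum.elim_inl, Pi.zero_apply] at this
      rw [sum_eq_single q] at this
      · simpa using this
      · rintro ⟨v, ν⟩ _ hne
        rw [if_neg, zero_mul]
        rintro ⟨h1, h2⟩
        obtain ⟨v', ν'⟩ := q
        obtain rfl : v = v' := Fin.ext h1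
        exact hne (congrArg _ (Fin.ext h2))
      · simp)
  refine key.trans ?_
  set C := A1 + A2 + 1 with hC
  have hCn : 1 ≤ C * n := one_le_mul_of_one_le_of_one_le (by linarith) hnR
  have hβ1 : (1 : ℝ) ≤ Fintype.card β := by exact_mod_cast Fintype.card_pos
  have hβ2 : (Fintype.card β : ℝ) ≤ c1 * n := by exact_mod_cast hβ
  have e1 : ((Fintype.card β : ℝ) ^ 3 * (E1 * n)) ^ Fintype.card β
      ≤ (((c1 : ℝ) * n) ^ 3 * (E1 * n)) ^ (c1 * n) := by
    refine (pow_le_pow_right₀ (one_le_mul_of_one_le_of_one_le (one_le_pow₀ hβ1)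
      (one_le_mul_of_one_le_of_one_le hE1' hnR)) hβ).trans ?_
    gcongr
  have e2 : (d0 : ℝ) * (((c1 : ℝ) * n) ^ 3 * (E1 * n)) ≤ (C * n) ^ 4 := by
    have h1 : A1 ≤ C ^ 4 := (show A1 ≤ C by linarith).trans
      (le_self_pow₀ (by linarith) (by norm_num))
    calc _ = A1 * (n : ℝ) ^ 4 := by rw [hA1]; ring
      _ ≤ C ^ 4 * (n : ℝ) ^ 4 := by gcongr
      _ = _ := by ring
  have e3 : 4 ^ a * ((((w + 1) * yy * n : ℕ) : ℝ) * 2 ^ (w + a) * 2 ^ (yy * n)
        * (2 * Real.exp (20 * a * (2 * r0 * n + 4 + n) + (n + yy * n))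
          * (((yy : ℝ) + 1) / r0) ^ (a * r0 * n))) * κ
      ≤ C * n * Real.exp ((50 - L) * ((a * r0 * n : ℕ) : ℝ)) := by
    have hr0 : (0 : ℝ) < r0 := by exact_mod_cast (by omega : 0 < r0)
    have h1 : (((yy : ℝ) + 1) / r0) ^ (a * r0 * n) = Real.exp (-L * ((a * r0 * n : ℕ) : ℝ)) := by
      rw [mul_comm (-L), Real.exp_nat_mul, hL, Real.exp_neg, Real.exp_log (by positivity), inv_div]
    have h2 : (2 : ℝ) ^ (yy * n) ≤ Real.exp ((yy * n : ℕ) : ℝ) := by
      rw [← Real.exp_one_pow]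
      exact pow_le_pow_left₀ (by norm_num) (by linarith [Real.add_one_le_exp 1]) _
    have h3 := expo_le a yy r0 n ha hr hn1
    have h4 : ((yy * n : ℕ) : ℝ) + (20 * a * (2 * r0 * n + 4 + n) + (n + yy * n))
        ≤ 50 * ((a * r0 * n : ℕ) : ℝ) := by exact_mod_cast h3
    calc _ = A2 * n * (2 ^ (yy * n) * Real.exp (20 * a * (2 * r0 * n + 4 + n) + (n + yy * n))
          * Real.exp (-L * ((a * r0 * n : ℕ) : ℝ))) := by rw [h1, hA2]; push_cast; ring
      _ ≤ C * n * (Real.exp ((yy * n : ℕ) : ℝ)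
          * Real.exp (20 * a * (2 * r0 * n + 4 + n) + (n + yy * n))
          * Real.exp (-L * ((a * r0 * n : ℕ) : ℝ))) := by
        gcongr
        linarith
      _ ≤ _ := by
        rw [← Real.exp_add, ← Real.exp_add]
        gcongr
        linarith
  calc _ ≤ ((d0 : ℝ) ^ (c1 * n) * Real.exp (24 * (δ : ℝ) * (w : ℝ) * ((w + s0 : ℕ) : ℝ)
          * (2 + Real.log ((w + 2 * a : ℕ) : ℝ)) * (n : ℝ) ^ 2))
          * (((c1 : ℝ) * n) ^ 3 * (E1 * n)) ^ (c1 * n)
          * (C * n * Real.exp ((50 - L) * ((a * r0 * n : ℕ) : ℝ))) ^ (a * r0 * n) := by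
        gcongr
        exact hcost n d0 hd0
    _ = ((d0 : ℝ) * (((c1 : ℝ) * n) ^ 3 * (E1 * n))) ^ (c1 * n) * (C * n) ^ (a * r0 * n)
          * (Real.exp (24 * (δ : ℝ) * (w : ℝ) * ((w + s0 : ℕ) : ℝ)
          * (2 + Real.log ((w + 2 * a : ℕ) : ℝ)) * (n : ℝ) ^ 2)
          * Real.exp ((50 - L) * ((a * r0 * n : ℕ) : ℝ)) ^ (a * r0 * n)) := by
        rw [mul_pow (d0 : ℝ), mul_pow (C * n)]; ring
    _ ≤ ((C * n) ^ 4) ^ (c1 * n) * (C * n) ^ (a * r0 * n) * _ := by gcongr
    _ = _ := by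
        rw [← pow_mul, ← pow_add, ← Real.exp_nat_mul, ← Real.exp_add]
        congr 2
        · ring
        · push_cast; ring

theorem main : ∃ c : ℝ, 0 < c ∧ ∀ k : ℕ, Odd k → 3 ≤ k → c * Real.log k ≤ Module.finrank ℚ
      (Submodule.span ℚ {x : ℂ | ∃ r : ℕ, 2 * r + 3 ≤ k ∧
        x = riemannZeta 2 ^ r * riemannZeta ((k - 2 * r : ℕ) : ℂ)}) :=
  bridge (param Lam_pos core_ineq)

end ZOdd

end
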